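import Pool.Agent.T2h96.ST.Stm

set_option autoImplicit false

namespace Pool.Agent.T2h96.ST.AL

open Matrix Pool.Agent.T2h61.PR Pool.Agent.T2h96.SN Pool.Agent.T2h96.SM

/-- an element whose order is prime to `p` and which has `p`-power order is trivial -/
theorem eq_one {G : Type} [Group G] {g : G} {p : ℕ} (h : (orderOf g).Coprime p) {k : ℕ}
    (hk : g ^ p ^ k = 1) : g = 1 := by
  rw [← orderOf_eq_one_iff]
  exact Nat.Coprime.eq_one_of_dvd (h.pow_right k) (orderOf_dvd_of_pow_eq_one hk)

theorem map_closure_range {ι Λ G : Type} [Group Λ] [Group G] (f : Λ →* G) (x : ι → Λ) :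
    (Subgroup.closure (Set.range x)).map f = Subgroup.closure (Set.range fun t => f (x t)) := by
  rw [MonoidHom.map_closure, ← Set.range_comp]
  rfl

theorem closure_f {ι Λ G : Type} [Group Λ] [Group G] (f : Λ →* G) (hf : Function.Surjective f)
    (x : ι → Λ) (hx : Subgroup.closure (Set.range x) = ⊤) :
    Subgroup.closure (Set.range fun t => f (x t)) = ⊤ := by
  rw [← map_closure_range, hx]
  exact Subgroup.map_top_of_surjective f hf

/-- the closure of the `f (a s)` is normal -/
theorem normal_of {ι G : Type} [Group G] (y a b : ι → G)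
    (hy : Subgroup.closure (Set.range y) = ⊤) (hyab : ∀ t, y t = a t * b t)
    (hc : ∀ t s, a t * b s = b s * a t) : (Subgroup.closure (Set.range a)).Normal := by
  rw [← Subgroup.normalizer_eq_top_iff, eq_top_iff, ← hy, Subgroup.closure_le]
  rintro _ ⟨t, rfl⟩
  show y t ∈ Subgroup.normalizer _
  rw [hyab]
  refine mul_mem ?_ ?_
  · exact Subgroup.le_normalizer (Subgroup.subset_closure ⟨t, rfl⟩)
  · have hb : b t ∈ Subgroup.centralizer ((Subgroup.closure (Set.range a) : Subgroup G) : Set G) := by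
      rw [Subgroup.centralizer_closure, Subgroup.mem_centralizer_iff]
      rintro _ ⟨s, rfl⟩
      exact hc s t
    rw [Subgroup.mem_normalizer_iff]
    intro h
    rw [Subgroup.mem_centralizer_iff] at hb
    constructor
    · intro hh
      have := hb h hh
      rw [← this, mul_assoc, mul_inv_cancel, mul_one]
      exact hh
    · intro hh
      have := hb _ hh
      have e : h = b t * h * (b t)⁻¹ := by
        have e1 : b t * h = b t * (b t * h * (b t)⁻¹) := by
          rw [← this]
          group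
        exact mul_left_cancel e1
      rw [e]
      exact hh

theorem tr_comm {n : ℕ} {A : Type} [CommRing A] {i j k : Fin n} (hij : i ≠ j) (hjk : j ≠ k)
    (hik : i ≠ k) (c : A) : tr i k hik c =
      tr i j hij c * tr j k hjk 1 * (tr i j hij c)⁻¹ * (tr j k hjk 1)⁻¹ := by
  have h : tr i k hik c * (tr j k hjk 1 * tr i j hij c) = tr i j hij c * tr j k hjk 1 := by
    apply Subtype.ext
    show Matrix.transvection i k c * (Matrix.transvection j k 1 * Matrix.transvection i j c) =
      Matrix.transvection i j c * Matrix.transvection j k 1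
    simp only [Matrix.transvection, mul_add, add_mul, one_mul, mul_one,
      Matrix.single_mul_single_same, Matrix.single_mul_single_of_ne, ne_eq, hik.symm, hjk.symm,
      not_false_eq_true, add_zero]
    abel
  rw [← h]
  group

theorem tr_mem {n : ℕ} {A : Type} [CommRing A] (hn : 3 ≤ n) {i k : Fin n} (hik : i ≠ k) (c : A) :
    tr i k hik c ∈ (⁅(⊤ : Subgroup (SLn n A)), ⊤⁆ : Subgroup (SLn n A)) := by
  obtain ⟨j, hji, hjk⟩ : ∃ j : Fin n, j ≠ i ∧ j ≠ k := by
    by_contra hcon
    push Not at hcon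
    have h2 : (Finset.univ : Finset (Fin n)) ⊆ {i, k} := by
      intro j _
      rw [Finset.mem_insert, Finset.mem_singleton]
      by_cases hj : j = i
      · exact Or.inl hj
      · exact Or.inr (hcon j hj)
    have h3 := (Finset.card_le_card h2).trans Finset.card_le_two
    rw [Finset.card_univ, Fintype.card_fin] at h3
    omega
  rw [tr_comm hji.symm hjk hik c, ← commutatorElement_def]
  exact Subgroup.commutator_mem_commutator (Subgroup.mem_top _) (Subgroup.mem_top _)

theorem trace_two {n : ℕ} {A : Type} [CommRing A] {i k : Fin n} (h : i ≠ k) :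
    ((tr i k h (1 : A) * tr k i h.symm 1 : SLn n A) : Mn n A).trace = (n : A) + 1 := by
  show (Matrix.transvection i k (1 : A) * Matrix.transvection k i (1 : A)).trace = (n : A) + 1
  simp only [Matrix.transvection, mul_add, add_mul, one_mul, mul_one,
      Matrix.single_mul_single_same, Matrix.trace_add, Matrix.trace_one, Fintype.card_fin]
  rw [Matrix.trace_single_eq_of_ne _ _ _ h, Matrix.trace_single_eq_of_ne _ _ _ h.symm,
    Matrix.trace_single_eq_same]
  ring

end Pool.Agent.T2h96.ST.AL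

namespace Pool.Agent.T2h96.ST

open Matrix Pool.Agent.T2h61.PR Pool.Agent.T2h96.SN Pool.Agent.T2h96.SM

theorem t_AL : S_PAD → S_DZ → S_DIC → S_PP → S_NS2 → S_COM → S_CTQ → S_AL := by
  intro hPAD hDZ hDIC hPP hNS2 hCOM hCTQ n _ hn ι Λ _ x κ hFG hRF hQ hx hNil hfin
  have : Fact (Nat.Prime 2) := ⟨Nat.prime_two⟩
  obtain ⟨σ, hσ⟩ := hPAD n (by omega) Λ hFG hQ 2
  have hf : Function.Surjective (rp σ) := hDZ n 2 Λ σ hσ
  rcases hDIC n 2 hn ι Λ x κ hx (rp σ) hf (hNil _ _) with h | hodd
  · exact ⟨2, inferInstance, σ, hσ, h⟩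
  have hcl := AL.closure_f (rp σ) hf x hx
  -- some `f (x t)` is not trivial
  obtain ⟨t₀, ht₀⟩ : ∃ t, rp σ (x t) ≠ 1 := by
    by_contra hcon
    push Not at hcon
    have h01 : (⟨0, by omega⟩ : Fin n) ≠ ⟨1, by omega⟩ := by
      intro h
      simpa using congrArg Fin.val h
    have h1 : tr ⟨0, by omega⟩ ⟨1, by omega⟩ h01 (1 : ZMod 2) ∈
        Subgroup.closure (Set.range fun t => rp σ (x t)) := by
      rw [hcl]
      exact Subgroup.mem_top _
    have h2 : Subgroup.closure (Set.range fun t => rp σ (x t)) ≤ ⊥ := by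
      rw [Subgroup.closure_le]
      rintro _ ⟨t, rfl⟩
      exact hcon t
    have h3 := Subgroup.mem_bot.mp (h2 h1)
    have h4 := congrArg (fun M : SLn n (ZMod 2) => (M : Mn n (ZMod 2)) ⟨0, by omega⟩ ⟨1, by omega⟩) h3
    have h5 : (Matrix.transvection (⟨0, by omega⟩ : Fin n) (⟨1, by omega⟩ : Fin n) (1 : ZMod 2))
        ⟨0, by omega⟩ ⟨1, by omega⟩ = (1 : Mn n (ZMod 2)) ⟨0, by omega⟩ ⟨1, by omega⟩ := h4
    rw [Matrix.transvection, Matrix.add_apply, Matrix.single_apply_same,
      Matrix.one_apply_ne h01, zero_add] at h5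
    exact one_ne_zero h5
  -- the prime
  have hord : orderOf (rp σ (x t₀)) ≠ 1 := by
    rwa [ne_eq, orderOf_eq_one_iff]
  obtain ⟨p, hp, hpd⟩ := Nat.exists_prime_and_dvd hord
  have : Fact p.Prime := ⟨hp⟩
  obtain ⟨a, b, hax, hbx, hxab, hap, hbp, hab⟩ := hPP n hn ι Λ x κ hRF hNil hfin p hp
  have hfa : rp σ (a t₀) ≠ 1 := by
    intro h
    have h1 : rp σ (x t₀) = rp σ (b t₀) := by
      rw [hxab t₀, map_mul, h, one_mul]
    rw [h1] at hpd
    have h2 : p ∣ orderOf (b t₀) := hpd.trans (orderOf_map_dvd _ _)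
    have h3 : p ∣ 1 := by
      have := Nat.dvd_gcd h2 (dvd_refl p)
      rwa [hbp t₀] at this
    exact hp.one_lt.ne' (Nat.dvd_one.mp h3)
  have hnorm : (Subgroup.closure (Set.range fun s => rp σ (a s))).Normal :=
    AL.normal_of (fun t => rp σ (x t)) _ (fun t => rp σ (b t)) hcl
      (fun t => by rw [hxab t, map_mul]) (fun t s => by rw [← map_mul, hab t s, map_mul])
  have hHtop : Subgroup.closure (Set.range fun s => rp σ (a s)) = ⊤ := by
    refine (hNS2 n hn).1 _ hnorm ?_
    intro h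
    have h1 : rp σ (a t₀) ∈ Subgroup.closure (Set.range fun s => rp σ (a s)) :=
      Subgroup.subset_closure ⟨t₀, rfl⟩
    rw [h, Subgroup.mem_bot] at h1
    exact hfa h1
  -- `σ (b s)` is scalar
  have hcent : ∀ s, ∀ l ∈ Subgroup.closure (Set.range a), l * b s = b s * l := by
    intro s l hl
    have hb : b s ∈ Subgroup.centralizer ((Subgroup.closure (Set.range a) : Subgroup Λ) : Set Λ) := by
      rw [Subgroup.centralizer_closure, Subgroup.mem_centralizer_iff]
      rintro _ ⟨t, rfl⟩
      exact hab t s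
    exact (Subgroup.mem_centralizer_iff.mp hb) l hl
  have hscal : ∀ s, ∃ c : ℤ_[2], (σ (b s) : Mn n ℤ_[2]) = c • (1 : Mn n ℤ_[2]) := by
    intro s
    refine hCOM n 2 (by omega) (σ '' (Subgroup.closure (Set.range a) : Subgroup Λ)) ?_ _ ?_
    · intro y
      have h1 : y ∈ (Subgroup.closure (Set.range a)).map (rp σ) := by
        rw [AL.map_closure_range, hHtop]
        exact Subgroup.mem_top _
      obtain ⟨l, hl, hly⟩ := h1
      exact ⟨σ l, ⟨l, hl, rfl⟩, hly⟩
    · rintro _ ⟨l, hl, rfl⟩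
      rw [← Matrix.SpecialLinearGroup.coe_mul, ← Matrix.SpecialLinearGroup.coe_mul, ← map_mul,
        ← map_mul, hcent s l hl]
  have hcom : ∀ l ∈ Subgroup.closure (Set.range b), ∀ m : SLn n ℤ_[2], σ l * m = m * σ l := by
    intro l hl m
    have h1 : Subgroup.closure (Set.range b) ≤ (Subgroup.center (SLn n ℤ_[2])).comap σ := by
      rw [Subgroup.closure_le]
      rintro _ ⟨s, rfl⟩
      show σ (b s) ∈ Subgroup.center (SLn n ℤ_[2])
      rw [Subgroup.mem_center_iff]
      intro g
      obtain ⟨c, hc⟩ := hscal s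
      apply Subtype.ext
      show (g : Mn n ℤ_[2]) * (σ (b s) : Mn n ℤ_[2]) = (σ (b s) : Mn n ℤ_[2]) * (g : Mn n ℤ_[2])
      rw [hc, Matrix.mul_smul, Matrix.smul_mul, mul_one, one_mul]
    exact ((Subgroup.mem_center_iff.mp (h1 hl)) m).symm
  have hker : ∀ w ∈ (⁅Subgroup.closure (Set.range b), Subgroup.closure (Set.range b)⁆ : Subgroup Λ),
      σ w = 1 := by
    have h1 : ⁅Subgroup.closure (Set.range b), Subgroup.closure (Set.range b)⁆ ≤ σ.ker := by
      rw [Subgroup.commutator_le]
      intro g₁ hg₁ g₂ hg₂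
      rw [MonoidHom.mem_ker, map_commutatorElement, commutatorElement_eq_one_iff_mul_comm]
      exact hcom g₁ hg₁ (σ g₂)
    intro w hw
    exact h1 hw
  -- the representation for `p`
  obtain ⟨ρ, hρ⟩ := hPAD n (by omega) Λ hFG hQ p
  have hg : Function.Surjective (rp ρ) := hDZ n p Λ ρ hρ
  rcases hDIC n p hn ι Λ x κ hx (rp ρ) hg (hNil _ _) with h | hcop
  · exact ⟨p, inferInstance, ρ, hρ, h⟩
  exfalso
  have hra : ∀ s, rp ρ (a s) = 1 := by
    intro s
    obtain ⟨k, hk⟩ := hap s
    refine AL.eq_one (p := p) (k := k) ?_ (by rw [← map_pow, hk, map_one])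
    refine Nat.Coprime.coprime_dvd_left ?_ (hcop s)
    obtain ⟨m, hm⟩ := Subgroup.mem_zpowers_iff.mp (hax s)
    rw [← hm, map_zpow]
    exact orderOf_dvd_of_mem_zpowers (Subgroup.zpow_mem_zpowers _ _)
  have hxb : (fun t => rp ρ (x t)) = fun t => rp ρ (b t) := by
    funext t
    rw [hxab t, map_mul, hra, one_mul]
  have hL' : (Subgroup.closure (Set.range b)).map (rp ρ) = ⊤ := by
    rw [AL.map_closure_range, ← hxb]
    exact AL.closure_f (rp ρ) hg x hx
  have h01 : (⟨0, by omega⟩ : Fin n) ≠ ⟨1, by omega⟩ := by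
    intro h
    simpa using congrArg Fin.val h
  have hmem : tr ⟨0, by omega⟩ ⟨1, by omega⟩ h01 (1 : ZMod p) *
      tr ⟨1, by omega⟩ ⟨0, by omega⟩ h01.symm 1 ∈
      (⁅Subgroup.closure (Set.range b), Subgroup.closure (Set.range b)⁆ : Subgroup Λ).map (rp ρ) := by
    rw [Subgroup.map_commutator, hL']
    exact mul_mem (AL.tr_mem hn _ _) (AL.tr_mem hn _ _)
  obtain ⟨w, hw, hwe⟩ := hmem
  have htr := hCTQ n hn Λ hFG hQ p 2 ρ σ hρ hσ w (hker w hw)
  have htr2 : ((rp ρ w : SLn n (ZMod p)) : Mn n (ZMod p)).trace = (n : ZMod p) := by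
    have h1 := congrArg (PadicInt.toZMod (p := p)) htr
    rw [map_natCast] at h1
    rw [← h1]
    show ((ρ w : Mn n ℤ_[p]).map (PadicInt.toZMod (p := p))).trace = _
    simp only [Matrix.trace, Matrix.diag_apply, Matrix.map_apply, map_sum]
  rw [hwe, AL.trace_two] at htr2
  have : (1 : ZMod p) = 0 := by
    linear_combination htr2
  exact one_ne_zero this

end Pool.Agent.T2h96.ST
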