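import Pool.Agent.T2h96.ST.Stm2

/-!
# (B4) a basis of the `4 × 4` matrices with trace relations
-/

set_option autoImplicit false

namespace Pool.Agent.T2h96.ST

open Matrix Pool.Agent.T2h61.PR Pool.Agent.T2h96.SN Pool.Agent.T2h96.SM

theorem t_B4 : S_B4 := by
  intro K _ _ ι _ _ m mi r ri hcard hmi hr ho
  have h4 : ∀ i, (m i * mi i).trace = 4 := by
    intro i
    rw [hmi i, Matrix.trace_one]
    simp
  have hco : ∀ (a : ι → K) (j : ι), ((∑ i, a i • m i) * mi j).trace = 4 * a j := by
    intro a j
    rw [Matrix.sum_mul, Matrix.trace_sum, Finset.sum_eq_single j]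
    · rw [Matrix.smul_mul, Matrix.trace_smul, h4, smul_eq_mul, mul_comm]
    · intro i _ hij
      rw [Matrix.smul_mul, Matrix.trace_smul, ho i j hij, smul_zero]
    · intro h
      exact absurd (Finset.mem_univ j) h
  have hli : LinearIndependent K m := by
    rw [Fintype.linearIndependent_iff]
    intro a ha j
    have h1 := hco a j
    rw [ha, Matrix.zero_mul, Matrix.trace_zero] at h1
    have h2 : (4 : K) ≠ 0 := by norm_num
    exact (mul_eq_zero.1 h1.symm).resolve_left h2
  have hfr : Fintype.card ι = Module.finrank K (Mn 4 K) := by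
    rw [hcard, Module.finrank_matrix]
    simp
  have hspan : Submodule.span K (Set.range m) = ⊤ := hli.span_eq_top_of_card_eq_finrank' hfr
  have hmem : r ∈ Submodule.span K (Set.range m) := by rw [hspan]; trivial
  obtain ⟨a, ha⟩ := (Submodule.mem_span_range_iff_exists_fun K).1 hmem
  have h5 : ∀ j, (r * mi j).trace = 4 * a j := by
    intro j
    rw [← ha]
    exact hco a j
  have h6 : (r * ri).trace = ∑ i, a i * (m i * ri).trace := by
    conv_lhs => rw [← ha]
    rw [Matrix.sum_mul, Matrix.trace_sum]
    refine Finset.sum_congr rfl fun i _ => ?_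
    rw [Matrix.smul_mul, Matrix.trace_smul, smul_eq_mul]
  have h7 : (r * ri).trace = 4 := by
    rw [hr, Matrix.trace_one]
    simp
  calc ∑ i, (r * mi i).trace * (m i * ri).trace = ∑ i, 4 * (a i * (m i * ri).trace) := by
        refine Finset.sum_congr rfl fun i _ => ?_
        rw [h5 i]; ring
    _ = 4 * ∑ i, a i * (m i * ri).trace := by rw [Finset.mul_sum]
    _ = 16 := by rw [← h6, h7]; norm_num

end Pool.Agent.T2h96.ST
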