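import Pool.Agent.T2h96.ST.Stm

/-!
C2: a matrix of finite order all of whose powers have the trace of the identity is the identity.
-/

set_option autoImplicit false

namespace Pool.Agent.T2h96.ST

open Matrix Pool.Agent.T2h61.PR

theorem t_C2 : S_C2 := by
  intro n K _ _ T m hm hT htr
  have hm0 : (m : K) ≠ 0 := by exact_mod_cast hm.ne'
  obtain ⟨S, hS⟩ : ∃ S : Mn n K, S = ∑ k ∈ Finset.range m, T ^ k := ⟨_, rfl⟩
  have hTS : T * S = S := by
    have h1 : T * S = ∑ k ∈ Finset.range m, T ^ (k + 1) := by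
      rw [hS, Finset.mul_sum]
      exact Finset.sum_congr rfl fun k _ => (pow_succ' T k).symm
    have h2 := Finset.sum_range_succ (fun k => T ^ k) m
    have h3 := Finset.sum_range_succ' (fun k => T ^ k) m
    rw [h2] at h3
    rw [h1, hS]
    have h4 : ∑ k ∈ Finset.range m, T ^ (k + 1) + T ^ 0 = ∑ k ∈ Finset.range m, T ^ k + T ^ m :=
      h3.symm
    rw [hT, pow_zero] at h4
    exact add_right_cancel h4
  have hpow : ∀ k, T ^ k * S = S := by
    intro k
    induction k with
    | zero => rw [pow_zero, one_mul]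
    | succ k ih => rw [pow_succ, mul_assoc, hTS, ih]
  have hSS : S * S = (m : K) • S := by
    conv_lhs => rw [hS, Finset.sum_mul, ← hS]
    rw [Finset.sum_congr rfl fun k _ => hpow k, Finset.sum_const, Finset.card_range]
    rw [Nat.cast_smul_eq_nsmul]
  obtain ⟨E, hE⟩ : ∃ E : Mn n K, E = (m : K)⁻¹ • S := ⟨_, rfl⟩
  have hEE : E * E = E := by
    rw [hE, smul_mul_assoc, mul_smul_comm, hSS, smul_smul, smul_smul]
    congr 1
    field_simp
  have htE : E.trace = (n : K) := by
    rw [hE, Matrix.trace_smul, hS, Matrix.trace_sum, Finset.sum_congr rfl fun k _ => htr k,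
      Finset.sum_const, Finset.card_range, nsmul_eq_mul, smul_eq_mul]
    field_simp
  have hTE : T * E = E := by
    rw [hE, mul_smul_comm, hTS]
  have hF : IsIdempotentElem (1 - E) := by
    unfold IsIdempotentElem
    rw [sub_mul, mul_sub, mul_sub, mul_one, mul_one, one_mul, hEE]
    abel
  have hF' : IsIdempotentElem (Matrix.toLin' (1 - E)) := by
    unfold IsIdempotentElem
    have h1 : Matrix.toLin' (1 - E) * Matrix.toLin' (1 - E) = Matrix.toLin' ((1 - E) * (1 - E)) :=
      (Matrix.toLin'_mul _ _).symm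
    rw [h1, hF]
  have htF : LinearMap.trace K (Fin n → K) (Matrix.toLin' (1 - E)) = 0 := by
    rw [Matrix.trace_toLin'_eq, Matrix.trace_sub, Matrix.trace_one, htE, Fintype.card_fin, sub_self]
  have h0 := LinearMap.IsIdempotentElem.eq_zero_of_trace_eq_zero hF' htF
  have h1 : (1 : Mn n K) - E = 0 := by
    have := (Matrix.toLin' (R := K) (m := Fin n) (n := Fin n)).map_eq_zero_iff.1 h0
    exact this
  have h2 : E = 1 := (sub_eq_zero.1 h1).symm
  rw [h2, mul_one] at hTE
  exact hTE

end Pool.Agent.T2h96.ST
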