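import Pool.Agent.T2h96.ST.T_TF

/-!
# Task COM (helper21): commutants
-/

set_option autoImplicit false

namespace Pool.Agent.T2h96.ST

open Matrix Pool.Agent.T2h61.PR Pool.Agent.T2h96.SN Pool.Agent.T2h96.SM

namespace COM

/-- A matrix over a field which commutes with `SL (n)` is scalar. -/
theorem scalar_of_comm {n : ℕ} {F : Type} [Field F] (M : Mn n F)
    (h : ∀ y : SLn n F, (y : Mn n F) * M = M * (y : Mn n F)) (i j : Fin n) (hij : i ≠ j) :
    M i j = 0 ∧ M i i = M j j := by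
  have hc : ∀ a b : Fin n, a ≠ b → Commute (Matrix.single a b (1 : F)) M := by
    intro a b hab
    have h1 := h (Matrix.SpecialLinearGroup.transvection hab 1)
    have h2 : ((Matrix.SpecialLinearGroup.transvection hab (1 : F) : SLn n F) : Mn n F) =
        1 + Matrix.single a b (1 : F) := rfl
    rw [h2, add_mul, mul_add, one_mul, mul_one] at h1
    exact add_left_cancel h1
  exact ⟨Matrix.row_eq_zero_of_commute_single (hc j i hij.symm) hij.symm,
    Matrix.diag_eq_of_commute_single (hc i j hij)⟩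

theorem dvd_of_toZMod {p : ℕ} [hp : Fact p.Prime] (x : ℤ_[p]) (h : PadicInt.toZMod x = 0) :
    ∃ y : ℤ_[p], x = (p : ℤ_[p]) * y := by
  have h1 : x ∈ RingHom.ker (PadicInt.toZMod (p := p)) := h
  rw [PadicInt.ker_toZMod, PadicInt.maximalIdeal_eq_span_p, Ideal.mem_span_singleton] at h1
  exact h1

theorem step {n p : ℕ} [hp : Fact p.Prime] (hn : 2 ≤ n) (S : Set (SLn n ℤ_[p]))
    (hS : ∀ y : SLn n (ZMod p), ∃ s ∈ S,
      Matrix.SpecialLinearGroup.map (n := Fin n) (PadicInt.toZMod (p := p)) s = y)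
    (T : Mn n ℤ_[p]) (hT : ∀ s ∈ S, (s : Mn n ℤ_[p]) * T = T * (s : Mn n ℤ_[p])) (k : ℕ) :
    ∃ (c : ℤ_[p]) (T' : Mn n ℤ_[p]), T = c • (1 : Mn n ℤ_[p]) + (p : ℤ_[p]) ^ k • T' := by
  induction k with
  | zero => exact ⟨0, T, by rw [zero_smul, zero_add, pow_zero, one_smul]⟩
  | succ k ih =>
    obtain ⟨c, T', hT'⟩ := ih
    have hp0 : (p : ℤ_[p]) ^ k ≠ 0 := pow_ne_zero k (Nat.cast_ne_zero.2 hp.out.ne_zero)
    have hcomm : ∀ s ∈ S, (s : Mn n ℤ_[p]) * T' = T' * (s : Mn n ℤ_[p]) := by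
      intro s hs
      have h1 := hT s hs
      rw [hT', mul_add, add_mul, mul_smul_comm, smul_mul_assoc, mul_one, one_mul, mul_smul_comm,
        smul_mul_assoc] at h1
      have h2 := add_left_cancel h1
      ext i j
      have h3 := congrFun (congrFun h2 i) j
      rw [Matrix.smul_apply, Matrix.smul_apply, smul_eq_mul, smul_eq_mul] at h3
      exact mul_left_cancel₀ hp0 h3
    have hred : ∀ y : SLn n (ZMod p), (y : Mn n (ZMod p)) * T'.map (PadicInt.toZMod (p := p)) =
        T'.map (PadicInt.toZMod (p := p)) * (y : Mn n (ZMod p)) := by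
      intro y
      obtain ⟨s, hs, hsy⟩ := hS y
      have h1 : (y : Mn n (ZMod p)) = (s : Mn n ℤ_[p]).map (PadicInt.toZMod (p := p)) := by
        rw [← hsy]
        rfl
      rw [h1, ← Matrix.map_mul, ← Matrix.map_mul, hcomm s hs]
    have hsc := scalar_of_comm _ hred
    have h0 : 0 < n := by omega
    have hdv : ∀ i j : Fin n, ∃ y : ℤ_[p],
        T' i j - (if i = j then T' ⟨0, h0⟩ ⟨0, h0⟩ else 0) = (p : ℤ_[p]) * y := by
      intro i j
      apply dvd_of_toZMod
      rw [map_sub, sub_eq_zero]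
      by_cases hij : i = j
      · rw [if_pos hij, ← hij]
        by_cases hi : i = ⟨0, h0⟩
        · rw [hi]
        · exact (hsc i ⟨0, h0⟩ hi).2
      · rw [if_neg hij, map_zero]
        exact (hsc i j hij).1
    choose Y hY using hdv
    refine ⟨c + (p : ℤ_[p]) ^ k * T' ⟨0, h0⟩ ⟨0, h0⟩, Matrix.of Y, ?_⟩
    rw [hT']
    ext i j
    have h1 := hY i j
    simp only [Matrix.add_apply, Matrix.smul_apply, Matrix.one_apply, smul_eq_mul,
      Matrix.of_apply]
    by_cases hij : i = j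
    · rw [if_pos hij] at h1 ⊢
      rw [pow_succ]
      linear_combination ((p : ℤ_[p]) ^ k) * h1
    · rw [if_neg hij] at h1 ⊢
      rw [pow_succ]
      linear_combination ((p : ℤ_[p]) ^ k) * h1

end COM

theorem t_COM : S_COM := by
  intro n p hp hn S hS T hT
  have hstep := COM.step hn S hS T hT
  have h0 : 0 < n := by omega
  refine ⟨T ⟨0, h0⟩ ⟨0, h0⟩, ?_⟩
  ext i j
  rw [Matrix.smul_apply, smul_eq_mul, Matrix.one_apply]
  rw [← sub_eq_zero]
  apply TF.zero_of_dvd
  intro k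
  obtain ⟨c, T', hT'⟩ := hstep k
  refine ⟨T' i j - (if i = j then T' ⟨0, h0⟩ ⟨0, h0⟩ else 0), ?_⟩
  rw [hT']
  simp only [Matrix.add_apply, Matrix.smul_apply, Matrix.one_apply, smul_eq_mul]
  by_cases hij : i = j
  · simp only [if_pos hij, if_true]
    ring
  · rw [if_neg hij, if_neg hij]
    ring

end Pool.Agent.T2h96.ST
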