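import Pool.Agent.T2h96.ST.Stm
import Pool.Agent.T2h61.PR.T_CA

/-!
# (CTQ) traces for different primes
-/

set_option autoImplicit false

namespace Pool.Agent.T2h96.ST

open Matrix Pool.Agent.T2h61.PR Pool.Agent.T2h96.SN Pool.Agent.T2h96.SM

namespace CTQ

/-- the representation over an extension field of `ℚ_p` -/
noncomputable def rO {n p : ℕ} [Fact p.Prime] {Λ Ω : Type} [Group Λ] [Field Ω] (i : ℚ_[p] →+* Ω)
    (ρ : Λ →* SLn n ℤ_[p]) : Λ →* SLn n Ω :=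
  (Matrix.SpecialLinearGroup.map (n := Fin n) (i.comp (PadicInt.Coe.ringHom (p := p)))).comp ρ

theorem rO_trace {n p : ℕ} [Fact p.Prime] {Λ Ω : Type} [Group Λ] [Field Ω] (i : ℚ_[p] →+* Ω)
    (ρ : Λ →* SLn n ℤ_[p]) (l : Λ) :
    (rO i ρ l : Mn n Ω).trace = i (((ρ l : Mn n ℤ_[p]).trace : ℤ_[p]) : ℚ_[p]) := by
  have := (AddMonoidHom.map_trace (i.comp (PadicInt.Coe.ringHom (p := p))).toAddMonoidHom
    (ρ l : Mn n ℤ_[p]))
  exact this.symm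

theorem rO_infinite (hINF : S_INF) {n p : ℕ} (hn : 3 ≤ n) [Fact p.Prime] {Λ Ω : Type} [Group Λ]
    [Field Ω] (i : ℚ_[p] →+* Ω) (ρ : Λ →* SLn n ℤ_[p]) (hρ : Dn ρ) :
    (Set.range (rO i ρ)).Infinite := by
  intro hfin
  apply hINF n p (by omega) Λ ρ hρ
  have hF : Function.Injective
      (Matrix.SpecialLinearGroup.map (n := Fin n) (i.comp (PadicInt.Coe.ringHom (p := p)))) := by
    intro a b hab
    apply Subtype.ext
    ext r s
    have h1 := congrFun (congrFun (congrArg Subtype.val hab) r) s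
    have h2 : i (((a : Mn n ℤ_[p]) r s : ℤ_[p]) : ℚ_[p]) = i (((b : Mn n ℤ_[p]) r s : ℤ_[p]) : ℚ_[p]) := h1
    exact Subtype.ext (i.injective h2)
  have h1 : (Set.range ρ).Finite := by
    refine Set.Finite.of_finite_image ?_ hF.injOn
    rw [← Set.range_comp]
    exact hfin
  refine (h1.image (toU n p)).subset ?_
  rintro _ ⟨l, rfl⟩
  exact ⟨ρ l, ⟨l, rfl⟩, rfl⟩

end CTQ

theorem t_CTQ : S_CT → S_INF → S_CTQ := by
  intro hCT hINF n hn Λ _ hFG hFQ p q _ _ ρ σ hρ hσ l hl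
  obtain ⟨Ω, _, i, j, -⟩ := CA.amalgam ℚ ℚ_[p] ℚ_[q] (algebraMap ℚ ℚ_[p]) (algebraMap ℚ ℚ_[q])
  have hchar : CharZero Ω := charZero_of_injective_ringHom i.injective
  have h1 := hCT n hn Λ hFG hFQ Ω (CTQ.rO i ρ) (CTQ.rO j σ) (CTQ.rO_infinite hINF hn i ρ hρ)
    (CTQ.rO_infinite hINF hn j σ hσ) l
  have h2 : (CTQ.rO j σ l : Mn n Ω).trace = (n : Ω) := by
    rw [CTQ.rO_trace, hl]
    simp
  have h3 : (CTQ.rO j σ l⁻¹ : Mn n Ω).trace = (n : Ω) := by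
    rw [CTQ.rO_trace, map_inv, hl]
    simp
  rw [h2, h3, or_self, CTQ.rO_trace] at h1
  have h4 : i (((ρ l : Mn n ℤ_[p]).trace : ℤ_[p]) : ℚ_[p]) = i ((n : ℤ_[p]) : ℚ_[p]) := by
    rw [h1]
    simp
  exact Subtype.ext (i.injective h4)

end Pool.Agent.T2h96.ST
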