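import Pool.Agent.T2h96.ST.Stm2
import Pool.Agent.T2h61.PR.T_TOP
import Pool.Agent.T2h61.PR.T_CA

/-!
# (D3) the sums of traces are integers
-/

set_option autoImplicit false

namespace Pool.Agent.T2h96.ST

open Matrix Pool.Agent.T2h61.PR Pool.Agent.T2h96.SN

theorem D3.inf (hINF : S_INF) (n p : ℕ) [Fact p.Prime] (hn : 2 ≤ n) (Λ : Type) [Group Λ]
    (ρ : Λ →* SLn n ℤ_[p]) (hρ : Dn ρ) (Ω : Type) [Field Ω] (i : ℚ_[p] →+* Ω) :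
    (Set.range ((Matrix.SpecialLinearGroup.map (n := Fin n)
      (i.comp (PadicInt.Coe.ringHom (p := p)))).comp ρ)).Infinite := by
  intro hfin
  apply hINF n p hn Λ ρ hρ
  have hinj := sl_map_inj (n := n) i i.injective
  have h1 : Set.range ((Matrix.SpecialLinearGroup.map (n := Fin n)
      (i.comp (PadicInt.Coe.ringHom (p := p)))).comp ρ) =
      (Matrix.SpecialLinearGroup.map (n := Fin n) i) '' Set.range
      ((Matrix.SpecialLinearGroup.map (n := Fin n) (PadicInt.Coe.ringHom (p := p))).comp ρ) := by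
    rw [← Set.range_comp]
    rfl
  rw [h1] at hfin
  have h2 := Set.Finite.of_finite_image hfin hinj.injOn
  refine (h2.image (Matrix.SpecialLinearGroup.toGL (n := Fin n) (R := ℚ_[p]))).subset ?_
  rintro _ ⟨l, rfl⟩
  refine ⟨_, ⟨l, rfl⟩, ?_⟩
  apply Units.ext
  rfl

/-- the sum of the traces of `ρ l` and `ρ l⁻¹` -/
noncomputable def D3.T {n p : ℕ} [Fact p.Prime] {Λ : Type} [Group Λ] (ρ : Λ →* SLn n ℤ_[p])
    (l : Λ) : ℤ_[p] := (ρ l : Mn n ℤ_[p]).trace + (ρ l⁻¹ : Mn n ℤ_[p]).trace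

theorem D3.tr_map {n p : ℕ} [Fact p.Prime] {Λ : Type} [Group Λ] (ρ : Λ →* SLn n ℤ_[p])
    {Ω : Type} [Field Ω] (i : ℚ_[p] →+* Ω) (l : Λ) :
    (((Matrix.SpecialLinearGroup.map (n := Fin n)
      (i.comp (PadicInt.Coe.ringHom (p := p)))).comp ρ) l : Mn n Ω).trace =
      i (((ρ l : Mn n ℤ_[p]).trace : ℤ_[p]) : ℚ_[p]) := by
  have := (AddMonoidHom.map_trace (i.comp (PadicInt.Coe.ringHom (p := p))).toAddMonoidHom
      (ρ l : Mn n ℤ_[p]))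
  exact this.symm

theorem D3.eqT (hCT : S_CT) (hINF : S_INF) (n : ℕ) (hn : 3 ≤ n) (Λ : Type) [Group Λ]
    (hFG : Group.FG Λ) (hFQ : SameFQ Λ (SLn n ℤ)) (l : Λ) (p q : ℕ) [Fact p.Prime] [Fact q.Prime]
    (ρ : Λ →* SLn n ℤ_[p]) (σ : Λ →* SLn n ℤ_[q]) (hρ : Dn ρ) (hσ : Dn σ) (Ω : Type) [Field Ω]
    (i : ℚ_[p] →+* Ω) (j : ℚ_[q] →+* Ω) :
    i ((D3.T ρ l : ℤ_[p]) : ℚ_[p]) = j ((D3.T σ l : ℤ_[q]) : ℚ_[q]) := by
  haveI : CharZero Ω := charZero_of_injective_ringHom i.injective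
  have h1 := hCT n hn Λ hFG hFQ Ω _ _ (D3.inf hINF n p (by omega) Λ ρ hρ Ω i)
    (D3.inf hINF n q (by omega) Λ σ hσ Ω j) l
  have h2 := hCT n hn Λ hFG hFQ Ω _ _ (D3.inf hINF n p (by omega) Λ ρ hρ Ω i)
    (D3.inf hINF n q (by omega) Λ σ hσ Ω j) l⁻¹
  have h3 := hCT n hn Λ hFG hFQ Ω _ _ (D3.inf hINF n q (by omega) Λ σ hσ Ω j)
    (D3.inf hINF n p (by omega) Λ ρ hρ Ω i) l
  have h4 := hCT n hn Λ hFG hFQ Ω _ _ (D3.inf hINF n q (by omega) Λ σ hσ Ω j)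
    (D3.inf hINF n p (by omega) Λ ρ hρ Ω i) l⁻¹
  rw [inv_inv] at h2 h4
  simp only [D3.tr_map] at h1 h2 h3 h4
  rw [D3.T, D3.T, PadicInt.coe_add, PadicInt.coe_add, map_add, map_add]
  generalize i (((ρ l : Mn n ℤ_[p]).trace : ℤ_[p]) : ℚ_[p]) = a at *
  generalize i (((ρ l⁻¹ : Mn n ℤ_[p]).trace : ℤ_[p]) : ℚ_[p]) = b at *
  generalize j (((σ l : Mn n ℤ_[q]).trace : ℤ_[q]) : ℚ_[q]) = c at *
  generalize j (((σ l⁻¹ : Mn n ℤ_[q]).trace : ℤ_[q]) : ℚ_[q]) = d at *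
  rcases h1 with rfl | rfl
  · rcases h2 with rfl | rfl
    · rfl
    · rcases h4 with h | h <;> rw [h]
  · rcases h2 with rfl | rfl
    · rcases h3 with h | h <;> rw [h]
    · exact add_comm _ _

theorem t_D3 : S_CT → S_INF → S_PAD → S_D3 := by
  intro hCT hINF hPAD n hn Λ _ hFG hFQ l
  have hrat : ∀ (p : ℕ) [Fact p.Prime] (ρ : Λ →* SLn n ℤ_[p]), Dn ρ →
      ∃ t : ℚ, ((D3.T ρ l : ℤ_[p]) : ℚ_[p]) = t := by
    intro p _ ρ hρ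
    apply CA.rational
    intro Ω _ i j
    exact D3.eqT hCT hINF n hn Λ hFG hFQ l p p ρ ρ hρ hρ Ω i j
  haveI : Fact (Nat.Prime 2) := ⟨Nat.prime_two⟩
  obtain ⟨ρ₂, hρ₂⟩ := hPAD n (by omega) Λ hFG hFQ 2
  obtain ⟨t, ht⟩ := hrat 2 ρ₂ hρ₂
  have hall : ∀ (p : ℕ) [Fact p.Prime] (ρ : Λ →* SLn n ℤ_[p]), Dn ρ →
      ((D3.T ρ l : ℤ_[p]) : ℚ_[p]) = t := by
    intro p _ ρ hρ
    obtain ⟨Ω, hΩ, i, j, hij⟩ := CA.amalgam ℚ ℚ_[p] ℚ_[2] (algebraMap ℚ ℚ_[p]) (algebraMap ℚ ℚ_[2])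
    apply i.injective
    rw [D3.eqT hCT hINF n hn Λ hFG hFQ l p 2 ρ ρ₂ hρ hρ₂ Ω i j, ht]
    have := hij t
    simpa using this.symm
  have hden : t.den = 1 := by
    by_contra hne
    obtain ⟨p, hp, hpd⟩ := Nat.exists_prime_and_dvd hne
    haveI : Fact p.Prime := ⟨hp⟩
    obtain ⟨ρ, hρ⟩ := hPAD n (by omega) Λ hFG hFQ p
    have h := hall p ρ hρ
    have h3 : ‖(t : ℚ_[p])‖ ≤ 1 := by
      rw [← h]
      exact (D3.T ρ l).2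
    have h4 := PadicInt.isUnit_den t h3
    rw [PadicInt.isUnit_iff] at h4
    have h5 : ‖((t.den : ℤ) : ℤ_[p])‖ < 1 := by
      rw [PadicInt.norm_int_lt_one_iff_dvd]
      exact_mod_cast hpd
    have h6 : ((t.den : ℤ) : ℤ_[p]) = ((t.den : ℕ) : ℤ_[p]) := by push_cast; rfl
    rw [h6, h4] at h5
    exact lt_irrefl _ h5
  refine ⟨t.num, ?_⟩
  intro p _ ρ hρ
  have h := hall p ρ hρ
  have h7 : t = (t.num : ℚ) := by
    conv_lhs => rw [← Rat.num_div_den t, hden]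
    simp
  have h8 : ((D3.T ρ l : ℤ_[p]) : ℚ_[p]) = (((t.num : ℤ) : ℤ_[p]) : ℚ_[p]) := by
    rw [h]
    conv_lhs => rw [h7]
    push_cast
    rfl
  exact Subtype.val_injective h8

end Pool.Agent.T2h96.ST
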