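import Pool.Agent.T2h96.ST.Stm

/-!
# (DIC) dichotomy
-/

set_option autoImplicit false

namespace Pool.Agent.T2h96.ST

open Matrix Pool.Agent.T2h61.PR Pool.Agent.T2h96.SN Pool.Agent.T2h96.SM

theorem t_DIC : S_JOR → S_TXA → S_TXB → S_DIC := by
  intro hJOR hTXA hTXB n ℓ _ _ hn ι Λ _ x κ hx f hf hynil
  set y : ι → SLn n (ZMod ℓ) := fun j => f (x j) with hy
  have hcl : Subgroup.closure (Set.range y) = ⊤ := by
    have h1 : Set.range y = f '' Set.range x := by
      rw [← Set.range_comp]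
      rfl
    rw [h1, ← MonoidHom.map_closure, hx, ← MonoidHom.range_eq_map, MonoidHom.range_eq_top]
    exact hf
  have hj := fun j => hJOR ℓ (SLn n (ZMod ℓ)) (y j)
  choose a ha b hb hab ha' hb' using hj
  rcases hTXB n ℓ (ZMod ℓ) ι hn y a b κ hynil hcl ha hb hab ha' hb' with h | h
  · left
    obtain ⟨π, g, d, ζ, hd, h2⟩ := hTXA n ℓ (ZMod ℓ) ι hn y a b κ hynil ha hb hab ha' hb' h
    exact ⟨π, g, d, ζ, hd, h2⟩
  · right
    intro j
    have h3 : y j = b j := by rw [hab j, h j, one_mul]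
    have h4 : (orderOf (y j)).Coprime ℓ := by
      rw [h3]
      exact hb' j
    exact h4

end Pool.Agent.T2h96.ST
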