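import Pool.Agent.T2h96.ST.Stm

/-!
# (DZ) the reduction modulo `p` is onto
-/

set_option autoImplicit false

namespace Pool.Agent.T2h96.ST

open Matrix Pool.Agent.T2h61.PR Pool.Agent.T2h96.SN Pool.Agent.T2h96.SM

namespace DZ

/-- there is only one homomorphism to the residue field -/
theorem eq_toZMod (p : ℕ) [Fact p.Prime] (φ : ℤ_[p] →+* ZMod p) : φ = PadicInt.toZMod := by
  ext x
  have h1 := PadicInt.toZMod_spec (p := p) x
  rw [PadicInt.maximalIdeal_eq_span_p, Ideal.mem_span_singleton] at h1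
  obtain ⟨z, hz⟩ := h1
  have h2 : x = (ZMod.cast (PadicInt.toZMod x) : ℤ_[p]) + (p : ℤ_[p]) * z := by
    rw [← hz]
    ring
  have h3 : (ZMod.cast (PadicInt.toZMod x) : ℤ_[p]) = (((PadicInt.toZMod x).val : ℕ) : ℤ_[p]) :=
    ZMod.cast_eq_val _
  rw [h3] at h2
  have h4 : φ x = (((PadicInt.toZMod x).val : ℕ) : ZMod p) := by
    rw [h2, map_add, map_mul, map_natCast, map_natCast]
    simp
  rw [h4, ZMod.natCast_zmod_val]

end DZ

theorem t_DZ : S_DZ := by
  intro n p _ Λ _ ρ hρ y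
  have e : ZMod (p ^ 1) ≃+* ZMod p := ZMod.ringEquivCongr (pow_one p)
  obtain ⟨l, hl⟩ := hρ 1 (Matrix.SpecialLinearGroup.map (n := Fin n) (e.symm : ZMod p →+* ZMod (p ^ 1)) y)
  refine ⟨l, ?_⟩
  have h1 : (e : ZMod (p ^ 1) →+* ZMod p).comp (PadicInt.toZModPow (p := p) 1) = PadicInt.toZMod :=
    DZ.eq_toZMod p _
  have h2 : rp ρ l = Matrix.SpecialLinearGroup.map (n := Fin n) (e : ZMod (p ^ 1) →+* ZMod p)
      (((Matrix.SpecialLinearGroup.map (n := Fin n) (PadicInt.toZModPow (p := p) 1)).comp ρ) l) := by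
    apply Subtype.ext
    ext i j
    show PadicInt.toZMod (p := p) ((ρ l : Mn n ℤ_[p]) i j) =
      e (PadicInt.toZModPow (p := p) 1 ((ρ l : Mn n ℤ_[p]) i j))
    rw [← h1]
    rfl
  rw [h2, hl]
  apply Subtype.ext
  ext i j
  show e (e.symm ((y : Mn n (ZMod p)) i j)) = (y : Mn n (ZMod p)) i j
  simp

end Pool.Agent.T2h96.ST
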