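import Pool.Agent.T2h96.ST.Stm

/-!
UB: lower bound for the group generated by conjugates of `cy k 1`, `k ≠ k₀`, over `F_2`.
-/

set_option autoImplicit false

namespace Pool.Agent.T2h96.ST

open Matrix Pool.Agent.T2h61.PR Pool.Agent.T2h96.SN

namespace UB

variable {n : ℕ} [NeZero n]

/-- the conjugates of the elements of `H` -/
def S (H : Subgroup (SLn n (ZMod 2))) (g : (Mn n (ZMod 2))ˣ) : Set (Mn n (ZMod 2)) :=
  {M | ∃ h ∈ H, (h : Mn n (ZMod 2)) = (g : Mn n (ZMod 2)) * M *
    ((g⁻¹ : (Mn n (ZMod 2))ˣ) : Mn n (ZMod 2))}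

variable {H : Subgroup (SLn n (ZMod 2))} {g : (Mn n (ZMod 2))ˣ}

omit [NeZero n] in
theorem one_mem : (1 : Mn n (ZMod 2)) ∈ S H g := ⟨1, H.one_mem, by
  rw [mul_one, Units.mul_inv]
  rfl⟩

omit [NeZero n] in
theorem mul_mem {A B : Mn n (ZMod 2)} (hA : A ∈ S H g) (hB : B ∈ S H g) : A * B ∈ S H g := by
  obtain ⟨a, ha, ea⟩ := hA
  obtain ⟨b, hb, eb⟩ := hB
  refine ⟨a * b, H.mul_mem ha hb, ?_⟩
  rw [Matrix.SpecialLinearGroup.coe_mul, ea, eb]
  have h1 : ((g⁻¹ : (Mn n (ZMod 2))ˣ) : Mn n (ZMod 2)) * (g : Mn n (ZMod 2)) = 1 := g.inv_mul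
  calc (g : Mn n (ZMod 2)) * A * ((g⁻¹ : (Mn n (ZMod 2))ˣ) : Mn n (ZMod 2)) *
      ((g : Mn n (ZMod 2)) * B * ((g⁻¹ : (Mn n (ZMod 2))ˣ) : Mn n (ZMod 2)))
      = (g : Mn n (ZMod 2)) * A * (((g⁻¹ : (Mn n (ZMod 2))ˣ) : Mn n (ZMod 2)) *
        (g : Mn n (ZMod 2))) * B * ((g⁻¹ : (Mn n (ZMod 2))ˣ) : Mn n (ZMod 2)) := by
        simp only [mul_assoc]
    _ = _ := by rw [h1, mul_one, mul_assoc (g : Mn n (ZMod 2)) A B]

/-- the rank of an index -/
def r (k₀ a : Fin n) : ℕ := (a - (k₀ + 1)).val

theorem r_inj (k₀ : Fin n) : Function.Injective (r k₀) := by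
  intro a b h
  have := Fin.ext h
  exact sub_left_injective this

theorem r_pred (k₀ i : Fin n) (h : r k₀ i ≠ 0) : r k₀ (i - 1) = r k₀ i - 1 ∧ i - 1 ≠ k₀ := by
  unfold r at *
  have h0 : i - (k₀ + 1) ≠ 0 := fun e => h (by rw [e]; rfl)
  refine ⟨?_, ?_⟩
  · have e : i - 1 - (k₀ + 1) = (i - (k₀ + 1)) - 1 := by abel
    rw [e]
    exact Fin.val_sub_one_of_ne_zero h0
  · intro e
    apply h0
    rw [← e]
    abel

omit [NeZero n] in
/-- the square of a product of two elementary matrices -/
theorem sq_mul (i k j : Fin n) (h1 : i ≠ k) (h2 : k ≠ j) (h3 : i ≠ j) :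
    ((1 + Matrix.single i k (1 : ZMod 2)) * (1 + Matrix.single k j (1 : ZMod 2))) *
    ((1 + Matrix.single i k (1 : ZMod 2)) * (1 + Matrix.single k j (1 : ZMod 2))) =
    1 + Matrix.single i j (1 : ZMod 2) := by
  have e1 : Matrix.single i k (1 : ZMod 2) * Matrix.single k j (1 : ZMod 2) =
      Matrix.single i j (1 : ZMod 2) := by
    rw [Matrix.single_mul_single_same, mul_one]
  have e2 : Matrix.single i k (1 : ZMod 2) * Matrix.single i k (1 : ZMod 2) = 0 :=
    Matrix.single_mul_single_of_ne _ _ _ _ (Ne.symm h1) _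
  have e3 : Matrix.single k j (1 : ZMod 2) * Matrix.single k j (1 : ZMod 2) = 0 :=
    Matrix.single_mul_single_of_ne _ _ _ _ (Ne.symm h2) _
  have e4 : Matrix.single k j (1 : ZMod 2) * Matrix.single i k (1 : ZMod 2) = 0 :=
    Matrix.single_mul_single_of_ne _ _ _ _ (Ne.symm h3) _
  have e5 : Matrix.single i k (1 : ZMod 2) * Matrix.single i j (1 : ZMod 2) = 0 :=
    Matrix.single_mul_single_of_ne _ _ _ _ (Ne.symm h1) _
  have e6 : Matrix.single i j (1 : ZMod 2) * Matrix.single i k (1 : ZMod 2) = 0 :=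
    Matrix.single_mul_single_of_ne _ _ _ _ (Ne.symm h3) _
  have e7 : Matrix.single i j (1 : ZMod 2) * Matrix.single k j (1 : ZMod 2) = 0 :=
    Matrix.single_mul_single_of_ne _ _ _ _ (Ne.symm h2) _
  have e8 : Matrix.single k j (1 : ZMod 2) * Matrix.single i j (1 : ZMod 2) = 0 :=
    Matrix.single_mul_single_of_ne _ _ _ _ (Ne.symm h3) _
  have e9 : Matrix.single i j (1 : ZMod 2) * Matrix.single i j (1 : ZMod 2) = 0 :=
    Matrix.single_mul_single_of_ne _ _ _ _ (Ne.symm h3) _
  have two : ∀ M : Mn n (ZMod 2), M + M = 0 := by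
    intro M
    ext a b
    exact CharTwo.add_self_eq_zero (M a b)
  generalize Matrix.single i k (1 : ZMod 2) = a at *
  generalize Matrix.single k j (1 : ZMod 2) = b at *
  generalize Matrix.single i j (1 : ZMod 2) = c at *
  have e0 : (1 + a) * (1 + b) = 1 + a + b + c := by
    rw [mul_add, mul_one, add_mul, one_mul, e1]
    abel
  rw [e0]
  have e10 : (1 + a + b + c) * (1 + a + b + c) = 1 + (a + a) + (b + b) + (c + c) +
      (a * a + a * b + a * c + b * a + b * b + b * c + c * a + c * b + c * c) := by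
    noncomm_ring
  rw [e10, two, two, two, e1, e2, e3, e4, e5, e6, e7, e8, e9]
  abel

/-- the elementary matrices -/
theorem elem_mem {k₀ : Fin n} (hH : ∀ k, k ≠ k₀ → cy k (1 : ZMod 2) ∈ S H g) :
    ∀ (d : ℕ) (i j : Fin n), r k₀ i = r k₀ j + (d + 1) →
      1 + Matrix.single i j (1 : ZMod 2) ∈ S H g := by
  intro d
  induction d with
  | zero =>
    intro i j h
    obtain ⟨h1, h2⟩ := r_pred k₀ i (by omega)
    have h3 : i - 1 = j := r_inj k₀ (by omega)
    have h4 := hH (i - 1) h2
    unfold cy at h4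
    rw [sub_add_cancel, h3] at h4
    exact h4
  | succ d ih =>
    intro i j h
    obtain ⟨h1, h2⟩ := r_pred k₀ i (by omega)
    have h4 := hH (i - 1) h2
    unfold cy at h4
    rw [sub_add_cancel] at h4
    have h5 := ih (i - 1) j (by omega)
    have n1 : i ≠ i - 1 := fun e => by rw [← e] at h1; omega
    have n2 : i - 1 ≠ j := fun e => by rw [e] at h1; omega
    have n3 : i ≠ j := fun e => by rw [e] at h; omega
    rw [← sq_mul i (i - 1) j n1 n2 n3]
    exact mul_mem (mul_mem h4 h5) (mul_mem h4 h5)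

/-- one column -/
theorem col_mem {k₀ : Fin n} (hH : ∀ k, k ≠ k₀ → cy k (1 : ZMod 2) ∈ S H g) (a : Fin n)
    (v : Fin n → ZMod 2) (s : Finset (Fin n)) (hs : ∀ i ∈ s, r k₀ a < r k₀ i) :
    1 + ∑ i ∈ s, Matrix.single i a (v i) ∈ S H g := by
  classical
  induction s using Finset.induction_on with
  | empty =>
    rw [Finset.sum_empty, add_zero]
    exact one_mem
  | insert i s hi ih =>
    have ih' := ih fun j hj => hs j (Finset.mem_insert_of_mem hj)
    have hai : r k₀ a < r k₀ i := hs i (Finset.mem_insert_self _ _)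
    have hne : a ≠ i := fun e => by rw [e] at hai; omega
    have h1 : 1 + Matrix.single i a (v i) ∈ S H g := by
      have h01 : v i = 0 ∨ v i = 1 := by
        generalize v i = c
        revert c
        decide
      rcases h01 with h | h
      · rw [h, Matrix.single_zero, add_zero]
        exact one_mem
      · rw [h]
        exact elem_mem hH (r k₀ i - r k₀ a - 1) i a (by omega)
    have h2 : (∑ j ∈ s, Matrix.single j a (v j)) * Matrix.single i a (v i) = 0 := by
      rw [Finset.sum_mul]
      exact Finset.sum_eq_zero fun j _ => Matrix.single_mul_single_of_ne _ _ _ _ hne _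
    have h3 := mul_mem ih' h1
    rw [Finset.sum_insert hi]
    have e : 1 + (Matrix.single i a (v i) + ∑ j ∈ s, Matrix.single j a (v j)) =
        (1 + ∑ j ∈ s, Matrix.single j a (v j)) * (1 + Matrix.single i a (v i)) := by
      rw [mul_add, mul_one, add_mul, one_mul, h2]
      abel
    rw [e]
    exact h3

/-- triangular matrices -/
theorem tri_mem {k₀ : Fin n} (hH : ∀ k, k ≠ k₀ → cy k (1 : ZMod 2) ∈ S H g) :
    ∀ (m : ℕ) (X : Mn n (ZMod 2)), (∀ i j, X i j ≠ 0 → r k₀ j < r k₀ i) →
      (∀ i j, X i j ≠ 0 → r k₀ j < m) → 1 + X ∈ S H g := by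
  intro m
  induction m with
  | zero =>
    intro X h1 h2
    have : X = 0 := by
      ext i j
      by_contra h
      exact absurd (h2 i j h) (Nat.not_lt_zero _)
    rw [this, add_zero]
    exact one_mem
  | succ m ih =>
    intro X h1 h2
    by_cases ha : ∃ a, r k₀ a = m
    · obtain ⟨a, ha⟩ := ha
      obtain ⟨Y, hY⟩ : ∃ Y : Mn n (ZMod 2), Y = Matrix.of fun i j => if j = a then 0 else X i j :=
        ⟨_, rfl⟩
      obtain ⟨C, hC⟩ : ∃ C : Mn n (ZMod 2), C = Matrix.of fun i j => if j = a then X i a else 0 :=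
        ⟨_, rfl⟩
      have hYe : ∀ i j, Y i j = if j = a then 0 else X i j := fun i j => by rw [hY]; rfl
      have hCe : ∀ i j, C i j = if j = a then X i a else 0 := fun i j => by rw [hC]; rfl
      have hY1 : ∀ i j, Y i j ≠ 0 → j ≠ a ∧ X i j ≠ 0 := by
        intro i j h
        rw [hYe] at h
        split_ifs at h with hj
        · exact absurd rfl h
        · exact ⟨hj, h⟩
      have hYS : 1 + Y ∈ S H g := by
        apply ih
        · intro i j h
          exact h1 i j (hY1 i j h).2
        · intro i j h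
          have h3 := h2 i j (hY1 i j h).2
          have h4 : r k₀ j ≠ m := fun e => (hY1 i j h).1 (r_inj k₀ (e.trans ha.symm))
          omega
      have hCS : 1 + C ∈ S H g := by
        have h3 := col_mem hH a (fun i => X i a) (Finset.univ.filter fun i => r k₀ a < r k₀ i)
          (fun i hi => (Finset.mem_filter.1 hi).2)
        have e : C = ∑ i ∈ Finset.univ.filter (fun i => r k₀ a < r k₀ i),
            Matrix.single i a (X i a) := by
          ext i j
          rw [Matrix.sum_apply, hCe]
          by_cases hj : j = a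
          · subst hj
            rw [if_pos rfl]
            by_cases hi : r k₀ j < r k₀ i
            · rw [Finset.sum_eq_single i]
              · rw [Matrix.single_apply_same]
              · intro b _ hb
                exact Matrix.single_apply_of_row_ne hb _ _ _
              · intro h
                exact (h (Finset.mem_filter.2 ⟨Finset.mem_univ i, hi⟩)).elim
            · have h0 : X i j = 0 := by
                by_contra h
                exact hi (h1 i j h)
              rw [h0]
              symm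
              apply Finset.sum_eq_zero
              intro b hb
              have hbi : b ≠ i := by
                rintro rfl
                exact hi (Finset.mem_filter.1 hb).2
              exact Matrix.single_apply_of_row_ne hbi _ _ _
          · rw [if_neg hj]
            symm
            apply Finset.sum_eq_zero
            intro b _
            exact Matrix.single_apply_of_col_ne _ _ (Ne.symm hj) _
        rw [e]
        exact h3
      have hYC : Y * C = 0 := by
        ext i j
        rw [Matrix.mul_apply]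
        apply Finset.sum_eq_zero
        intro k _
        by_contra h
        have hy : Y i k ≠ 0 := fun e => h (by rw [e, zero_mul])
        have hc : C k j ≠ 0 := fun e => h (by rw [e, mul_zero])
        rw [hCe] at hc
        split_ifs at hc with hj
        · have h3 := h1 k a hc
          have h4 := h2 i k (hY1 i k hy).2
          omega
        · exact hc rfl
      have hX : X = Y + C := by
        ext i j
        rw [Matrix.add_apply, hYe, hCe]
        split_ifs with hj
        · rw [hj, zero_add]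
        · rw [add_zero]
      have e : 1 + X = (1 + Y) * (1 + C) := by
        rw [mul_add, mul_one, add_mul, one_mul, hYC, hX]
        abel
      rw [e]
      exact mul_mem hYS hCS
    · exact ih X h1 fun i j h => lt_of_le_of_ne (Nat.lt_succ_iff.1 (h2 i j h)) fun e => ha ⟨j, e⟩

theorem card_pairs (k₀ : Fin n) :
    Fintype.card {p : Fin n × Fin n // r k₀ p.2 < r k₀ p.1} = n * (n - 1) / 2 := by
  rw [Fintype.card_subtype, Finset.card_filter, Fintype.sum_prod_type]
  have h : ∀ i : Fin n, ∑ j : Fin n, (if r k₀ j < r k₀ i then 1 else 0) = r k₀ i := by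
    intro i
    have h1 : ∑ j : Fin n, (if r k₀ j < r k₀ i then 1 else 0) =
        ∑ j : Fin n, (if j < i - (k₀ + 1) then 1 else 0) :=
      Equiv.sum_comp (Equiv.subRight (k₀ + 1)) (fun j : Fin n => if j < i - (k₀ + 1) then 1 else 0)
    rw [h1, ← Finset.card_filter]
    have h2 : (Finset.univ.filter fun j : Fin n => j < i - (k₀ + 1)) =
        Finset.Iio (i - (k₀ + 1)) := by
      ext j
      simp
    rw [h2, Fin.card_Iio]
    rfl
  rw [Finset.sum_congr rfl fun i _ => h i]
  have h3 : ∑ i : Fin n, r k₀ i = ∑ i : Fin n, (i : ℕ) :=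
    Equiv.sum_comp (Equiv.subRight (k₀ + 1)) (fun i : Fin n => (i : ℕ))
  rw [h3, Fin.sum_univ_eq_sum_range (fun i => i) n, Finset.sum_range_id]

end UB

open UB in
theorem t_UB : S_UB := by
  classical
  intro n _ hn H k₀ g hH
  have hH' : ∀ k, k ≠ k₀ → cy k (1 : ZMod 2) ∈ S H g := hH
  have hfin : Finite (SLn n (ZMod 2)) := inferInstance
  obtain ⟨X, hX⟩ : ∃ X : ({p : Fin n × Fin n // r k₀ p.2 < r k₀ p.1} → ZMod 2) → Mn n (ZMod 2),
      ∀ f, ∀ i j, X f i j = if h : r k₀ j < r k₀ i then f ⟨(i, j), h⟩ else 0 :=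
    ⟨fun f => Matrix.of fun i j => if h : r k₀ j < r k₀ i then f ⟨(i, j), h⟩ else 0,
      fun f i j => rfl⟩
  have hmem : ∀ f, 1 + X f ∈ S H g := by
    intro f
    apply tri_mem hH' n
    · intro i j h
      rw [hX] at h
      split_ifs at h with h1
      · exact h1
      · exact absurd rfl h
    · intro i j _
      exact (j - (k₀ + 1)).isLt
  choose F hF1 hF2 using hmem
  have hinj : Function.Injective (fun f => (⟨F f, hF1 f⟩ : H)) := by
    intro f f' e
    have e1 : F f = F f' := congrArg Subtype.val e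
    have e2 : (F f : Mn n (ZMod 2)) = (F f' : Mn n (ZMod 2)) := by rw [e1]
    rw [hF2, hF2] at e2
    have e3 : 1 + X f = 1 + X f' := by
      have := congrArg (fun M => ((g⁻¹ : (Mn n (ZMod 2))ˣ) : Mn n (ZMod 2)) * M *
        (g : Mn n (ZMod 2))) e2
      have h1 : ((g⁻¹ : (Mn n (ZMod 2))ˣ) : Mn n (ZMod 2)) * (g : Mn n (ZMod 2)) = 1 := g.inv_mul
      have h2 : ∀ M : Mn n (ZMod 2), ((g⁻¹ : (Mn n (ZMod 2))ˣ) : Mn n (ZMod 2)) *
          ((g : Mn n (ZMod 2)) * M * ((g⁻¹ : (Mn n (ZMod 2))ˣ) : Mn n (ZMod 2))) *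
          (g : Mn n (ZMod 2)) = M := by
        intro M
        rw [← mul_assoc, ← mul_assoc, h1, one_mul, mul_assoc, h1, mul_one]
      rwa [h2, h2] at this
    have e4 : X f = X f' := add_left_cancel e3
    funext p
    have e5 := congrFun (congrFun e4 p.1.1) p.1.2
    rw [hX, hX, dif_pos p.2, dif_pos p.2] at e5
    exact e5
  have hle := Nat.card_le_card_of_injective _ hinj
  rw [Nat.card_eq_fintype_card (α := {p : Fin n × Fin n // r k₀ p.2 < r k₀ p.1} → ZMod 2),
    Fintype.card_fun, card_pairs, ZMod.card] at hle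
  exact hle

end Pool.Agent.T2h96.ST
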