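import Pool.Agent.T2h96.ST.Stm2
import Pool.Agent.T2h96.ST.T_UB

/-!
EA: an idempotent over `F_2` whose conjugates under the unipotent group commute is `0` or `1`.
-/

set_option autoImplicit false

namespace Pool.Agent.T2h96.ST

open Matrix Pool.Agent.T2h61.PR Pool.Agent.T2h96.SN

namespace EA

variable {n : ℕ}

theorem comm_eq (e E : Mn n (ZMod 2)) (he : e * e = e)
    (h : e * ((1 + E) * e * (1 + E)) = ((1 + E) * e * (1 + E)) * e) :
    e * E + e * (E * e * E) = E * e + (E * e * E) * e := by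
  have h1 : e * ((1 + E) * e * (1 + E)) = e * e + e * E * e + (e * e) * E + e * (E * e * E) := by
    noncomm_ring
  have h2 : ((1 + E) * e * (1 + E)) * e = e * e + e * E * e + E * (e * e) + (E * e * E) * e := by
    noncomm_ring
  rw [h1, h2, he] at h
  have h3 : e + e * E * e + (e * E + e * (E * e * E)) = e + e * E * e + (E * e + (E * e * E) * e) := by
    calc e + e * E * e + (e * E + e * (E * e * E)) = e + e * E * e + e * E + e * (E * e * E) := by abel
      _ = e + e * E * e + E * e + (E * e * E) * e := h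
      _ = _ := by abel
  exact add_left_cancel h3

theorem z2 (x : ZMod 2) : x = 0 ∨ x = 1 := by
  revert x
  decide

/-- the first alternative -/
theorem alt {e : Mn n (ZMod 2)} {k₀ a : Fin n} (he : e * e = e)
    (h : e * ((1 + Matrix.single k₀ a 1) * e * (1 + Matrix.single k₀ a 1)) =
      ((1 + Matrix.single k₀ a 1) * e * (1 + Matrix.single k₀ a 1)) * e) :
    e a k₀ = 1 ∨ e * Matrix.single k₀ a 1 = Matrix.single k₀ a 1 * e := by
  have h1 := comm_eq e _ he h
  have h2 : Matrix.single k₀ a (1 : ZMod 2) * e * Matrix.single k₀ a 1 =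
      Matrix.single k₀ a (e a k₀) := by
    rw [Matrix.single_mul_mul_single, one_mul, mul_one]
  rw [h2] at h1
  rcases z2 (e a k₀) with h3 | h3
  · right
    rw [h3, Matrix.single_zero, mul_zero, zero_mul, add_zero, add_zero] at h1
    exact h1
  · exact Or.inl h3

theorem alt' {e : Mn n (ZMod 2)} {k₀ a : Fin n} (he : e * e = e)
    (h : e * ((1 + Matrix.single k₀ a 1) * e * (1 + Matrix.single k₀ a 1)) =
      ((1 + Matrix.single k₀ a 1) * e * (1 + Matrix.single k₀ a 1)) * e) :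
    e a k₀ = 1 ∨ ∀ i, i ≠ k₀ → e i k₀ = 0 := by
  rcases alt he h with h1 | h1
  · exact Or.inl h1
  · right
    intro i hi
    have h2 := congrFun (congrFun h1 i) a
    rw [Matrix.mul_single_apply_same, Matrix.single_mul_apply_of_ne _ _ _ _ _ hi, mul_one] at h2
    exact h2

/-- the case where the fixed vector is an eigenvector -/
theorem fin {e : Mn n (ZMod 2)} {k₀ : Fin n} (he : e * e = e)
    (h : ∀ a, a ≠ k₀ → e * ((1 + Matrix.single k₀ a 1) * e * (1 + Matrix.single k₀ a 1)) =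
      ((1 + Matrix.single k₀ a 1) * e * (1 + Matrix.single k₀ a 1)) * e)
    (h0 : ∀ i, i ≠ k₀ → e i k₀ = 0) : e = 0 ∨ e = 1 := by
  have h1 : ∀ a, a ≠ k₀ → e * Matrix.single k₀ a 1 = Matrix.single k₀ a 1 * e := by
    intro a ha
    rcases alt he (h a ha) with h2 | h2
    · rw [h0 a ha] at h2
      exact absurd h2 zero_ne_one
    · exact h2
  have h2 : ∀ a, a ≠ k₀ → ∀ j, e a j = if j = a then e k₀ k₀ else 0 := by
    intro a ha j
    have h3 := congrFun (congrFun (h1 a ha) k₀) j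
    rw [Matrix.single_mul_apply_same, one_mul] at h3
    rw [← h3]
    split_ifs with hj
    · rw [hj, Matrix.mul_single_apply_same, mul_one]
    · rw [Matrix.mul_single_apply_of_ne _ _ _ _ _ hj]
  have h3 : ∀ j, j ≠ k₀ → e k₀ j = 0 := by
    intro j hj
    have h4 := congrFun (congrFun he k₀) j
    rw [Matrix.mul_apply, Finset.sum_eq_add_of_mem k₀ j (Finset.mem_univ _) (Finset.mem_univ _)
      (Ne.symm hj)] at h4
    · rw [h2 j hj j, if_pos rfl, mul_comm (e k₀ j), CharTwo.add_self_eq_zero] at h4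
      exact h4.symm
    · intro c _ hc
      rw [h2 c hc.1 j, if_neg (Ne.symm hc.2), mul_zero]
  have h4 : ∀ i j, e i j = if j = i then e k₀ k₀ else 0 := by
    intro i j
    by_cases hi : i = k₀
    · subst hi
      by_cases hj : j = i
      · rw [if_pos hj, hj]
      · rw [if_neg hj, h3 j hj]
    · exact h2 i hi j
  rcases z2 (e k₀ k₀) with h5 | h5
  · left
    ext i j
    rw [h4, h5]
    simp
  · right
    ext i j
    rw [h4, h5, Matrix.one_apply]
    simp only [eq_comm]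

theorem r_self [NeZero n] (k₀ : Fin n) : UB.r k₀ k₀ = n - 1 := by
  have h1 : k₀ - (k₀ + 1) = -1 := by abel
  unfold UB.r
  rw [h1]
  obtain ⟨m, rfl⟩ : ∃ m, n = m + 1 := ⟨n - 1, by have := NeZero.pos n; omega⟩
  rw [Nat.add_sub_cancel]
  exact Fin.coe_neg_one

end EA

theorem t_EA : S_EA := by
  intro n _ hn k₀ U hU e he hc
  have hn2 : 2 ≤ n := by omega
  -- the elementary matrices in `U`
  have hcy : ∀ k, k ≠ k₀ → cy k (1 : ZMod 2) ∈ UB.S U (1 : (Mn n (ZMod 2))ˣ) := by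
    intro k hk
    obtain ⟨h, hh, e1⟩ := hU k hk
    exact ⟨h, hh, by rw [e1]; simp⟩
  have hel : ∀ i j, UB.r k₀ j < UB.r k₀ i → ∃ h ∈ U, (h : Mn n (ZMod 2)) = 1 + Matrix.single i j 1 := by
    intro i j hij
    obtain ⟨h, hh, e1⟩ := UB.elem_mem hcy (UB.r k₀ i - UB.r k₀ j - 1) i j (by omega)
    exact ⟨h, hh, by rw [e1]; simp⟩
  have hne : ∀ i j, UB.r k₀ j < UB.r k₀ i → i ≠ j := by
    rintro i j hij rfl
    exact lt_irrefl _ hij
  have hinv : ∀ (i j : Fin n), i ≠ j → ∀ h : SLn n (ZMod 2),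
      (h : Mn n (ZMod 2)) = 1 + Matrix.single i j 1 → h⁻¹ = h := by
    intro i j hij h hh
    rw [inv_eq_iff_mul_eq_one]
    apply Subtype.ext
    change (h : Mn n (ZMod 2)) * (h : Mn n (ZMod 2)) = 1
    rw [hh]
    have e1 : Matrix.single i j (1 : ZMod 2) * Matrix.single i j 1 = 0 :=
      Matrix.single_mul_single_of_ne _ _ _ _ (Ne.symm hij) _
    have e2 : (1 + Matrix.single i j (1 : ZMod 2)) * (1 + Matrix.single i j 1) =
        1 + (Matrix.single i j 1 + Matrix.single i j 1) + Matrix.single i j 1 * Matrix.single i j 1 := by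
      noncomm_ring
    rw [e2, e1, add_zero]
    ext a b
    rw [Matrix.add_apply, Matrix.add_apply, CharTwo.add_self_eq_zero, add_zero]
  have hrk : ∀ a, a ≠ k₀ → UB.r k₀ a < UB.r k₀ k₀ := by
    intro a ha
    have h1 : UB.r k₀ a ≠ UB.r k₀ k₀ := fun e => ha (UB.r_inj k₀ e)
    have h2 := EA.r_self k₀
    have h3 : UB.r k₀ a < n := (a - (k₀ + 1)).2
    omega
  have key : ∀ e : Mn n (ZMod 2), e * e = e →
      (∀ h ∈ U, e * ((h : Mn n (ZMod 2)) * e * ((h⁻¹ : SLn n (ZMod 2)) : Mn n (ZMod 2))) =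
        ((h : Mn n (ZMod 2)) * e * ((h⁻¹ : SLn n (ZMod 2)) : Mn n (ZMod 2))) * e) →
      ∀ a, a ≠ k₀ → e * ((1 + Matrix.single k₀ a 1) * e * (1 + Matrix.single k₀ a 1)) =
        ((1 + Matrix.single k₀ a 1) * e * (1 + Matrix.single k₀ a 1)) * e := by
    intro e _ hc a ha
    obtain ⟨h, hh, e1⟩ := hel k₀ a (hrk a ha)
    have h2 := hc h hh
    rw [hinv k₀ a (Ne.symm ha) h e1, e1] at h2
    exact h2
  have hk := key e he hc
  by_cases h0 : ∀ i, i ≠ k₀ → e i k₀ = 0
  · exact EA.fin he hk h0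
  exfalso
  have h1 : ∀ a, a ≠ k₀ → e a k₀ = 1 := fun a ha => (EA.alt' he (hk a ha)).resolve_right h0
  obtain ⟨b, hb⟩ : ∃ b : Fin n, b = k₀ + 1 := ⟨_, rfl⟩
  have rb : UB.r k₀ b = 0 := by
    unfold UB.r
    rw [hb, sub_self]
    rfl
  have rk := EA.r_self k₀
  have hbk : b ≠ k₀ := by
    intro e1
    rw [e1] at rb
    omega
  obtain ⟨a, ha⟩ : ∃ a : Fin n, a ∉ ({k₀, b} : Finset (Fin n)) := by
    by_contra hcon
    push Not at hcon
    have h2 : (Finset.univ : Finset (Fin n)) ⊆ {k₀, b} := fun x _ => hcon x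
    have h3 := Finset.card_le_card h2
    rw [Finset.card_univ, Fintype.card_fin] at h3
    have h4 : ({k₀, b} : Finset (Fin n)).card ≤ 2 := Finset.card_le_two
    omega
  rw [Finset.mem_insert, Finset.mem_singleton, not_or] at ha
  have hra : UB.r k₀ b < UB.r k₀ a := by
    rw [rb]
    refine Nat.pos_of_ne_zero fun e1 => ha.2 (UB.r_inj k₀ (by rw [e1, rb]))
  obtain ⟨h, hh, eh⟩ := hel a b hra
  have hhi := hinv a b ha.2 h eh
  obtain ⟨f, hf⟩ : ∃ f : Mn n (ZMod 2), f = (h : Mn n (ZMod 2)) * e *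
    ((h⁻¹ : SLn n (ZMod 2)) : Mn n (ZMod 2)) := ⟨_, rfl⟩
  have e1 : ((h⁻¹ : SLn n (ZMod 2)) : Mn n (ZMod 2)) * (h : Mn n (ZMod 2)) = 1 := by
    rw [← Matrix.SpecialLinearGroup.coe_mul, inv_mul_cancel, Matrix.SpecialLinearGroup.coe_one]
  have e2 : (h : Mn n (ZMod 2)) * ((h⁻¹ : SLn n (ZMod 2)) : Mn n (ZMod 2)) = 1 := by
    rw [← Matrix.SpecialLinearGroup.coe_mul, mul_inv_cancel, Matrix.SpecialLinearGroup.coe_one]
  have hff : f * f = f := by
    rw [hf]
    calc (h : Mn n (ZMod 2)) * e * ((h⁻¹ : SLn n (ZMod 2)) : Mn n (ZMod 2)) *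
        ((h : Mn n (ZMod 2)) * e * ((h⁻¹ : SLn n (ZMod 2)) : Mn n (ZMod 2)))
        = (h : Mn n (ZMod 2)) * e * (((h⁻¹ : SLn n (ZMod 2)) : Mn n (ZMod 2)) *
          (h : Mn n (ZMod 2))) * e * ((h⁻¹ : SLn n (ZMod 2)) : Mn n (ZMod 2)) := by
          simp only [mul_assoc]
      _ = (h : Mn n (ZMod 2)) * (e * e) * ((h⁻¹ : SLn n (ZMod 2)) : Mn n (ZMod 2)) := by
          rw [e1, mul_one]
          simp only [mul_assoc]
      _ = _ := by rw [he]
  have hfc : ∀ k ∈ U, f * ((k : Mn n (ZMod 2)) * f * ((k⁻¹ : SLn n (ZMod 2)) : Mn n (ZMod 2))) =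
      ((k : Mn n (ZMod 2)) * f * ((k⁻¹ : SLn n (ZMod 2)) : Mn n (ZMod 2))) * f := by
    intro k hk'
    have h2 := hc (h⁻¹ * k * h) (U.mul_mem (U.mul_mem (U.inv_mem hh) hk') hh)
    have h3 : (h⁻¹ * k * h)⁻¹ = h⁻¹ * k⁻¹ * h := by group
    rw [h3] at h2
    simp only [Matrix.SpecialLinearGroup.coe_mul] at h2
    rw [hf]
    generalize ((h⁻¹ : SLn n (ZMod 2)) : Mn n (ZMod 2)) = Hi at *
    generalize ((k⁻¹ : SLn n (ZMod 2)) : Mn n (ZMod 2)) = Ki at *
    generalize (h : Mn n (ZMod 2)) = Hm at *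
    generalize (k : Mn n (ZMod 2)) = Km at *
    calc Hm * e * Hi * (Km * (Hm * e * Hi) * Ki)
        = Hm * e * Hi * (Km * (Hm * e * Hi) * Ki) * (Hm * Hi) := by rw [e2, mul_one]
      _ = Hm * (e * (Hi * Km * Hm * e * (Hi * Ki * Hm))) * Hi := by simp only [mul_assoc]
      _ = Hm * (Hi * Km * Hm * e * (Hi * Ki * Hm) * e) * Hi := by rw [h2]
      _ = (Hm * Hi) * Km * (Hm * e * Hi) * Ki * (Hm * e * Hi) := by simp only [mul_assoc]
      _ = _ := by
        rw [e2, one_mul]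
  have hkf := key f hff hfc
  have hfa := EA.alt' hff (hkf a ha.1)
  have hfe : ∀ i, f i k₀ = e i k₀ + if i = a then e b k₀ else 0 := by
    intro i
    have h3 : f = e + Matrix.single a b 1 * e + e * Matrix.single a b 1 +
        Matrix.single a b 1 * e * Matrix.single a b 1 := by
      rw [hf, hhi, eh]
      noncomm_ring
    have h4 : (e * Matrix.single a b (1 : ZMod 2)) i k₀ = 0 :=
      Matrix.mul_single_apply_of_ne _ _ _ _ _ (Ne.symm hbk) _
    have h5 : (Matrix.single a b (1 : ZMod 2) * e * Matrix.single a b (1 : ZMod 2)) i k₀ = 0 :=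
      Matrix.mul_single_apply_of_ne _ _ _ _ _ (Ne.symm hbk) _
    rw [h3, Matrix.add_apply, Matrix.add_apply, Matrix.add_apply, h4, h5, add_zero, add_zero]
    congr 1
    split_ifs with hi
    · rw [hi, Matrix.single_mul_apply_same, one_mul]
    · rw [Matrix.single_mul_apply_of_ne _ _ _ _ _ hi]
  rcases hfa with h2 | h2
  · rw [hfe, if_pos rfl, h1 a ha.1, h1 b hbk, CharTwo.add_self_eq_zero] at h2
    exact zero_ne_one h2
  · have h3 := h2 b hbk
    rw [hfe, if_neg (Ne.symm ha.2), add_zero, h1 b hbk] at h3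
    exact one_ne_zero h3

end Pool.Agent.T2h96.ST
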