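import Pool.Agent.T2h96.ST.Stm2

/-!
EE: elements with trivial reduction are `1` or `-1`.
-/

set_option autoImplicit false

namespace Pool.Agent.T2h96.ST

open Matrix Pool.Agent.T2h61.PR Pool.Agent.T2h96.SN

namespace EE

theorem dvd2 (x : ℤ_[2]) (h : PadicInt.toZMod (p := 2) x = 0) : ∃ y : ℤ_[2], x = 2 * y := by
  have h1 : x ∈ RingHom.ker (PadicInt.toZMod (p := 2)) := h
  rw [PadicInt.ker_toZMod, PadicInt.maximalIdeal_eq_span_p, Ideal.mem_span_singleton] at h1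
  exact h1

theorem dvdM {n : ℕ} (A : Mn n ℤ_[2]) (h : A.map (PadicInt.toZMod (p := 2)) = 0) :
    ∃ W : Mn n ℤ_[2], A = (2 : ℤ_[2]) • W := by
  choose f hf using fun i j => dvd2 (A i j) (congrFun (congrFun h i) j)
  refine ⟨Matrix.of f, ?_⟩
  ext i j
  rw [hf i j]
  rfl

theorem four {n : ℕ} {A : Mn n ℤ_[2]} (h : (4 : ℤ_[2]) • A = 0) : A = 0 :=
  (smul_eq_zero.1 h).resolve_left (by norm_num)

theorem two {n : ℕ} {A : Mn n ℤ_[2]} (h : (2 : ℤ_[2]) • A = 0) : A = 0 :=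
  (smul_eq_zero.1 h).resolve_left (by norm_num)

/-- an idempotent divisible by two is zero -/
theorem idem (hT : S_TF4) {n : ℕ} {e : Mn n ℤ_[2]} (he : e * e = e)
    (h : e.map (PadicInt.toZMod (p := 2)) = 0) : e = 0 := by
  obtain ⟨f, hf⟩ := dvdM e h
  have h1 := hT n (1 - (2 : ℤ_[2]) • e) (-f) (by
    rw [hf, smul_smul, smul_neg, sub_eq_add_neg]
    norm_num) ⟨2, two_pos, by
      have : (1 - (2 : ℤ_[2]) • e) ^ 2 = 1 - (4 : ℤ_[2]) • e + (4 : ℤ_[2]) • (e * e) := by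
        rw [pow_two, sub_mul, mul_sub, mul_sub, one_mul, mul_one, one_mul, smul_mul_smul_comm]
        have e4 : (4 : ℤ_[2]) • e = (2 : ℤ_[2]) • e + (2 : ℤ_[2]) • e := by
          rw [← add_smul]
          norm_num
        rw [e4]
        norm_num
        abel
      rw [this, he, sub_add_cancel]⟩
  have h2 : (2 : ℤ_[2]) • e = 0 := by
    have h3 := congrArg (fun M => 1 - M) h1
    simpa using h3
  exact two h2

theorem finM {n : ℕ} {h : SLn n ℤ_[2]} (hh : IsOfFinOrder h) :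
    ∃ m : ℕ, 0 < m ∧ (h : Mn n ℤ_[2]) ^ m = 1 := by
  obtain ⟨m, hm, hp⟩ := isOfFinOrder_iff_pow_eq_one.1 hh
  refine ⟨m, hm, ?_⟩
  rw [← Matrix.SpecialLinearGroup.coe_pow, hp, Matrix.SpecialLinearGroup.coe_one]

end EE

theorem t_EE : S_TF4 → S_EA → S_EE := by
  intro hT hE n _ hn G k₀ g hfin hcy z hz hz1
  -- the idempotent
  have hz2 : (z : Mn n ℤ_[2]).map (PadicInt.toZMod (p := 2)) = 1 := by
    have := congrArg (fun y : SLn n (ZMod 2) => (y : Mn n (ZMod 2))) hz1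
    exact this
  obtain ⟨W, hW⟩ := EE.dvdM ((z : Mn n ℤ_[2]) - 1) (by
    ext i j
    have h1 := congrFun (congrFun hz2 i) j
    rw [Matrix.map_apply] at h1
    rw [Matrix.map_apply, Matrix.sub_apply, map_sub, h1, Matrix.one_apply, Matrix.one_apply]
    split_ifs <;> simp)
  have hzW : (z : Mn n ℤ_[2]) = 1 + (2 : ℤ_[2]) • W := by
    rw [← hW]
    abel
  have hsq : (z : Mn n ℤ_[2]) * (z : Mn n ℤ_[2]) = 1 + (4 : ℤ_[2]) • (W + W * W) := by
    rw [hzW, add_mul, mul_add, mul_add, one_mul, one_mul, mul_one, smul_mul_smul_comm, smul_add]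
    have e4 : (4 : ℤ_[2]) • W = (2 : ℤ_[2]) • W + (2 : ℤ_[2]) • W := by
      rw [← add_smul]
      norm_num
    rw [e4]
    norm_num
    abel
  have hzz : (z : Mn n ℤ_[2]) * (z : Mn n ℤ_[2]) = 1 := by
    refine hT n _ _ hsq ?_
    obtain ⟨m, hm, h1⟩ := EE.finM (hfin (z * z) (G.mul_mem hz hz))
    exact ⟨m, hm, h1⟩
  have hWW : W + W * W = 0 := by
    apply EE.four
    rw [hsq] at hzz
    simpa using hzz
  obtain ⟨e, he⟩ : ∃ e : Mn n ℤ_[2], e = -W := ⟨_, rfl⟩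
  have hee : e * e = e := by
    rw [he, neg_mul_neg]
    exact (neg_eq_of_add_eq_zero_right hWW).symm
  have hze : (z : Mn n ℤ_[2]) = 1 - (2 : ℤ_[2]) • e := by
    rw [hzW, he, smul_neg, sub_neg_eq_add]
  have hzi : z * z = 1 := Subtype.ext hzz
  -- the conjugates commute
  have hcomm : ∀ h ∈ G, e * ((h : Mn n ℤ_[2]) * e * ((h⁻¹ : SLn n ℤ_[2]) : Mn n ℤ_[2])) =
      ((h : Mn n ℤ_[2]) * e * ((h⁻¹ : SLn n ℤ_[2]) : Mn n ℤ_[2])) * e := by
    intro h hh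
    obtain ⟨y, hy⟩ : ∃ y : SLn n ℤ_[2], y = h * z * h⁻¹ := ⟨_, rfl⟩
    obtain ⟨f, hf⟩ : ∃ f : Mn n ℤ_[2], f = (h : Mn n ℤ_[2]) * e * ((h⁻¹ : SLn n ℤ_[2]) : Mn n ℤ_[2]) :=
      ⟨_, rfl⟩
    have hyG : y ∈ G := by
      rw [hy]
      exact G.mul_mem (G.mul_mem hh hz) (G.inv_mem hh)
    have hyy : y * y = 1 := by
      have : y * y = h * (z * z) * h⁻¹ := by
        rw [hy]
        group
      rw [this, hzi]
      group
    have hyf : (y : Mn n ℤ_[2]) = 1 - (2 : ℤ_[2]) • f := by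
      have e2 : (h : Mn n ℤ_[2]) * ((h⁻¹ : SLn n ℤ_[2]) : Mn n ℤ_[2]) = 1 := by
        rw [← Matrix.SpecialLinearGroup.coe_mul, mul_inv_cancel, Matrix.SpecialLinearGroup.coe_one]
      rw [hy, Matrix.SpecialLinearGroup.coe_mul, Matrix.SpecialLinearGroup.coe_mul, hze, mul_sub,
        sub_mul, mul_one, e2, mul_smul_comm, smul_mul_assoc, hf]
    rw [← hf]
    have h1 : (z : Mn n ℤ_[2]) * (y : Mn n ℤ_[2]) =
        (y : Mn n ℤ_[2]) * (z : Mn n ℤ_[2]) + (4 : ℤ_[2]) • (e * f - f * e) := by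
      rw [hze, hyf, sub_mul, mul_sub, mul_sub, sub_mul, mul_sub, mul_sub, smul_mul_smul_comm,
        smul_mul_smul_comm, smul_sub]
      simp only [one_mul, mul_one]
      norm_num
      abel
    have h2 : ((z * y * (z * y) : SLn n ℤ_[2]) : Mn n ℤ_[2]) =
        1 + (4 : ℤ_[2]) • ((e * f - f * e) * ((z : Mn n ℤ_[2]) * (y : Mn n ℤ_[2]))) := by
      have e1 : (y : Mn n ℤ_[2]) * (z : Mn n ℤ_[2]) * ((z : Mn n ℤ_[2]) * (y : Mn n ℤ_[2])) = 1 := by
        have e2 : y * z * (z * y) = 1 := by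
          calc y * z * (z * y) = y * (z * z) * y := by simp only [mul_assoc]
            _ = 1 := by rw [hzi, mul_one, hyy]
        have := congrArg (fun y : SLn n ℤ_[2] => (y : Mn n ℤ_[2])) e2
        simpa using this
      rw [Matrix.SpecialLinearGroup.coe_mul, Matrix.SpecialLinearGroup.coe_mul]
      nth_rw 1 [h1]
      rw [add_mul, e1, smul_mul_assoc]
    have h3 : ((z * y * (z * y) : SLn n ℤ_[2]) : Mn n ℤ_[2]) = 1 :=
      hT n _ _ h2 (EE.finM (hfin _ (G.mul_mem (G.mul_mem hz hyG) (G.mul_mem hz hyG))))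
    have h4 : z * y * (z * y) = 1 := Subtype.ext h3
    have h5 : z * y = y * z := by
      have h6 : z * y = (z * y)⁻¹ := eq_inv_of_mul_eq_one_left h4
      rw [h6, _root_.mul_inv_rev, inv_eq_of_mul_eq_one_left hzi, inv_eq_of_mul_eq_one_left hyy]
    have h6 : (z : Mn n ℤ_[2]) * (y : Mn n ℤ_[2]) = (y : Mn n ℤ_[2]) * (z : Mn n ℤ_[2]) :=
      congrArg (fun y : SLn n ℤ_[2] => (y : Mn n ℤ_[2])) h5
    rw [h6] at h1
    have h7 : e * f - f * e = 0 := by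
      apply EE.four
      have := h1.symm
      simpa using this
    exact sub_eq_zero.1 h7
  -- reduction modulo two
  obtain ⟨R, hR⟩ : ∃ R : SLn n ℤ_[2] →* SLn n (ZMod 2),
    R = Matrix.SpecialLinearGroup.map (n := Fin n) (PadicInt.toZMod (p := 2)) := ⟨_, rfl⟩
  have hRv : ∀ h : SLn n ℤ_[2], (R h : Mn n (ZMod 2)) =
      (h : Mn n ℤ_[2]).map (PadicInt.toZMod (p := 2)) := by
    intro h
    rw [hR]
    rfl
  have hgd : (g : Mn n (ZMod 2)).det = 1 := by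
    have h1 : IsUnit (g : Mn n (ZMod 2)).det := (Matrix.isUnit_iff_isUnit_det _).1 g.isUnit
    have h2 : ∀ x : ZMod 2, IsUnit x → x = 1 := by decide
    exact h2 _ h1
  obtain ⟨g', hg'⟩ : ∃ g' : SLn n (ZMod 2), (g' : Mn n (ZMod 2)) = (g : Mn n (ZMod 2)) :=
    ⟨⟨_, hgd⟩, rfl⟩
  have hgi : ((g'⁻¹ : SLn n (ZMod 2)) : Mn n (ZMod 2)) = ((g⁻¹ : (Mn n (ZMod 2))ˣ) : Mn n (ZMod 2)) := by
    have h1 : ((g'⁻¹ : SLn n (ZMod 2)) : Mn n (ZMod 2)) * (g : Mn n (ZMod 2)) = 1 := by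
      rw [← hg', ← Matrix.SpecialLinearGroup.coe_mul, inv_mul_cancel, Matrix.SpecialLinearGroup.coe_one]
    exact (Units.inv_eq_of_mul_eq_one_left h1).symm
  obtain ⟨E, hEe⟩ : ∃ E : Mn n (ZMod 2), E = e.map (PadicInt.toZMod (p := 2)) := ⟨_, rfl⟩
  have hEE : E * E = E := by
    rw [hEe, ← Matrix.map_mul, hee]
  have hRc : ∀ h ∈ G, E * ((R h : Mn n (ZMod 2)) * E * ((R h⁻¹ : SLn n (ZMod 2)) : Mn n (ZMod 2))) =
      ((R h : Mn n (ZMod 2)) * E * ((R h⁻¹ : SLn n (ZMod 2)) : Mn n (ZMod 2))) * E := by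
    intro h hh
    have := congrArg (fun M : Mn n ℤ_[2] => M.map (PadicInt.toZMod (p := 2))) (hcomm h hh)
    simp only [Matrix.map_mul] at this
    rw [hRv, hRv, hEe]
    exact this
  have hgg : ((g⁻¹ : (Mn n (ZMod 2))ˣ) : Mn n (ZMod 2)) * (g : Mn n (ZMod 2)) = 1 := g.inv_mul
  have hgg' : (g : Mn n (ZMod 2)) * ((g⁻¹ : (Mn n (ZMod 2))ˣ) : Mn n (ZMod 2)) = 1 := g.mul_inv
  have hfin : ((g⁻¹ : (Mn n (ZMod 2))ˣ) : Mn n (ZMod 2)) * E * (g : Mn n (ZMod 2)) = 0 ∨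
      ((g⁻¹ : (Mn n (ZMod 2))ˣ) : Mn n (ZMod 2)) * E * (g : Mn n (ZMod 2)) = 1 := by
    refine hE n hn k₀ ((G.map R).comap (MulAut.conj g').toMonoidHom) ?_ _ ?_ ?_
    · intro k hk
      obtain ⟨h, hh, h1⟩ := hcy k hk
      rw [← hR] at h1
      refine ⟨g'⁻¹ * R h * g', ?_, ?_⟩
      · rw [Subgroup.mem_comap]
        refine ⟨h, hh, ?_⟩
        change R h = g' * (g'⁻¹ * R h * g') * g'⁻¹
        group
      · rw [Matrix.SpecialLinearGroup.coe_mul, Matrix.SpecialLinearGroup.coe_mul, h1, hg', hgi]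
        calc ((g⁻¹ : (Mn n (ZMod 2))ˣ) : Mn n (ZMod 2)) * ((g : Mn n (ZMod 2)) * cy k 1 *
            ((g⁻¹ : (Mn n (ZMod 2))ˣ) : Mn n (ZMod 2))) * (g : Mn n (ZMod 2))
            = (((g⁻¹ : (Mn n (ZMod 2))ˣ) : Mn n (ZMod 2)) * (g : Mn n (ZMod 2))) * cy k 1 *
              (((g⁻¹ : (Mn n (ZMod 2))ˣ) : Mn n (ZMod 2)) * (g : Mn n (ZMod 2))) := by
              simp only [mul_assoc]
          _ = cy k 1 := by rw [hgg, one_mul, mul_one]
    · calc ((g⁻¹ : (Mn n (ZMod 2))ˣ) : Mn n (ZMod 2)) * E * (g : Mn n (ZMod 2)) *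
          (((g⁻¹ : (Mn n (ZMod 2))ˣ) : Mn n (ZMod 2)) * E * (g : Mn n (ZMod 2)))
          = ((g⁻¹ : (Mn n (ZMod 2))ˣ) : Mn n (ZMod 2)) * E * ((g : Mn n (ZMod 2)) *
            ((g⁻¹ : (Mn n (ZMod 2))ˣ) : Mn n (ZMod 2))) * E * (g : Mn n (ZMod 2)) := by
            simp only [mul_assoc]
        _ = ((g⁻¹ : (Mn n (ZMod 2))ˣ) : Mn n (ZMod 2)) * (E * E) * (g : Mn n (ZMod 2)) := by
            rw [hgg', mul_one]
            simp only [mul_assoc]
        _ = _ := by rw [hEE]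
    · intro y hy
      rw [Subgroup.mem_comap] at hy
      obtain ⟨h, hh, h1⟩ := hy
      have h2 : y = g'⁻¹ * R h * g' := by
        rw [h1]
        change y = g'⁻¹ * (g' * y * g'⁻¹) * g'
        group
      have h3 : y⁻¹ = g'⁻¹ * R h⁻¹ * g' := by
        rw [h2, map_inv]
        group
      have h4 := hRc h hh
      rw [h3, h2]
      simp only [Matrix.SpecialLinearGroup.coe_mul, hg', hgi]
      generalize ((g⁻¹ : (Mn n (ZMod 2))ˣ) : Mn n (ZMod 2)) = b at *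
      generalize (g : Mn n (ZMod 2)) = a at *
      generalize (R h : Mn n (ZMod 2)) = c at *
      generalize ((R h⁻¹ : SLn n (ZMod 2)) : Mn n (ZMod 2)) = d at *
      have h5 : ∀ X : Mn n (ZMod 2), a * (b * X) = X := fun X => by
        rw [← mul_assoc, hgg', one_mul]
      have h6 : b * E * a * (b * c * a * (b * E * a) * (b * d * a)) = b * (E * (c * E * d)) * a := by
        simp only [mul_assoc, h5]
      have h7 : b * c * a * (b * E * a) * (b * d * a) * (b * E * a) = b * (c * E * d * E) * a := by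
        simp only [mul_assoc, h5]
      rw [h6, h7, h4]
  have hEgg : E = (g : Mn n (ZMod 2)) * (((g⁻¹ : (Mn n (ZMod 2))ˣ) : Mn n (ZMod 2)) * E *
      (g : Mn n (ZMod 2))) * ((g⁻¹ : (Mn n (ZMod 2))ˣ) : Mn n (ZMod 2)) := by
    calc E = 1 * E * 1 := by rw [one_mul, mul_one]
      _ = (g : Mn n (ZMod 2)) * ((g⁻¹ : (Mn n (ZMod 2))ˣ) : Mn n (ZMod 2)) * E *
          ((g : Mn n (ZMod 2)) * ((g⁻¹ : (Mn n (ZMod 2))ˣ) : Mn n (ZMod 2))) := by rw [hgg']
      _ = _ := by simp only [mul_assoc]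
  rcases hfin with h0 | h0
  · left
    have hE0 : E = 0 := by
      rw [hEgg, h0, mul_zero, zero_mul]
    have he0 := EE.idem hT hee (hEe ▸ hE0)
    rw [hze, he0, smul_zero, sub_zero]
  · right
    have hE1 : E = 1 := by
      rw [hEgg, h0, mul_one, hgg']
    have he1 : (1 - e) * (1 - e) = 1 - e := by
      rw [sub_mul, mul_sub, mul_sub, one_mul, one_mul, mul_one, hee, sub_self, sub_zero]
    have he0 := EE.idem hT he1 (by
      ext i j
      have h1 := congrFun (congrFun hE1 i) j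
      rw [hEe, Matrix.map_apply] at h1
      rw [Matrix.map_apply, Matrix.sub_apply, map_sub, h1, Matrix.one_apply, Matrix.one_apply]
      split_ifs <;> simp)
    have he2 : e = 1 := (sub_eq_zero.1 he0).symm
    rw [hze, he2, two_smul]
    abel

end Pool.Agent.T2h96.ST
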