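import Pool.Agent.T2h96.ST.Stm2

/-!
# (EX) elements with trivial reduction in the groups `P i`
-/

set_option autoImplicit false

namespace Pool.Agent.T2h96.ST

open Matrix Pool.Agent.T2h61.PR Pool.Agent.T2h96.SN Pool.Agent.T2h96.SM

theorem t_EX (hEE : S_EE) : S_EX := by
  intro n _ hn ι Λ _ x κ hfin ρ hN
  obtain ⟨π, g, c, ζ, hk, hx⟩ := hN
  have h01 : ∀ a : ZMod 2, a = 0 ∨ a = 1 := by decide
  have hζ : ∀ t, ζ t = 1 := by
    intro t
    rcases h01 (ζ t) with h | h
    · exfalso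
      have h1 := hx t
      rw [h, zero_smul] at h1
      have h2 := (rp ρ (x t)).2
      have h3 : (rp ρ (x t) : Mn n (ZMod 2)).det = 0 := by
        rw [h1]
        have : Nonempty (Fin n) := ⟨0⟩
        exact Matrix.det_zero
      have h4 : (rp ρ (x t) : Mn n (ZMod 2)).det = 1 := h2
      rw [h3] at h4
      exact zero_ne_one h4
    · exact h
  have hx' : ∀ t, (rp ρ (x t) : Mn n (ZMod 2)) =
      (g : Mn n (ZMod 2)) * cy (π.symm (κ t)) (c t) * ((g⁻¹ : (Mn n (ZMod 2))ˣ) : Mn n (ZMod 2)) := by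
    intro t
    rw [hx t, hζ t, one_smul]
  choose u hu hcu using hk
  have hcu1 : ∀ k, c (u k) = 1 := fun k => (h01 _).resolve_left (hcu k)
  have hxu : ∀ k, (rp ρ (x (u k)) : Mn n (ZMod 2)) =
      (g : Mn n (ZMod 2)) * cy k 1 * ((g⁻¹ : (Mn n (ZMod 2))ˣ) : Mn n (ZMod 2)) := by
    intro k
    rw [hx' (u k), hu k, Equiv.symm_apply_apply, hcu1 k]
  refine ⟨g, u, ?_, hxu, ?_, ?_⟩
  · have : (fun k => κ (u k)) = π := funext hu
    rw [this]
    exact π.bijective
  · intro t
    rcases h01 (c t) with h | h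
    · left
      refine Subtype.ext ?_
      rw [hx' t, h]
      have : (cy (π.symm (κ t)) (0 : ZMod 2) : Mn n (ZMod 2)) = 1 := by
        unfold cy
        rw [Matrix.single_zero, add_zero]
      rw [this, mul_one, Units.mul_inv]
      rfl
    · right
      refine ⟨π.symm (κ t), ?_, Subtype.ext ?_⟩
      · rw [hu, Equiv.apply_symm_apply]
      · rw [hx' t, hxu, h]
  · intro i l hl hrl
    refine hEE n hn ((Subgroup.closure (x '' {t | κ t ≠ i})).map ρ) (π.symm i) g ?_ ?_ (ρ l)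
      (Subgroup.mem_map_of_mem ρ hl) hrl
    · rintro h ⟨γ, hγ, rfl⟩
      exact MonoidHom.isOfFinOrder ρ (hfin i γ hγ)
    · intro k hki
      refine ⟨ρ (x (u k)), Subgroup.mem_map_of_mem ρ (Subgroup.subset_closure ⟨u k, ?_, rfl⟩), hxu k⟩
      show κ (u k) ≠ i
      rw [hu k]
      intro h
      exact hki (by rw [← h, Equiv.symm_apply_apply])

end Pool.Agent.T2h96.ST
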