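import Pool.Agent.T2h96.ST.Stm2

/-!
# (G3) contradiction for `n = 3`, `p = 2`
-/

set_option autoImplicit false

namespace Pool.Agent.T2h96.ST

open Matrix Pool.Agent.T2h61.PR Pool.Agent.T2h96.SN Pool.Agent.T2h96.SM

namespace G3

theorem d1 : ∀ k : Fin 3, (cy k 1 : Mn 3 (ZMod 2)) * cy k 1 = 1 := by decide +kernel

theorem d2 : ∀ j k : Fin 3, ((cy j 1 : Mn 3 (ZMod 2)) * cy k 1) * (cy j 1 * cy k 1) *
    ((cy j 1 * cy k 1) * (cy j 1 * cy k 1)) = 1 := by decide +kernel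

theorem d3 : ∀ k : Fin 3, (cy k 1 : Mn 3 (ZMod 2)) ≠ 1 := by decide +kernel

theorem d4 : ∀ j k : Fin 3, j ≠ k →
    (cy j 1 : Mn 3 (ZMod 2)) * cy k 1 ≠ cy k 1 * cy j 1 := by decide +kernel

theorem d5 : ∀ a b : Fin 3, ∃ i, a ≠ i ∧ b ≠ i := by decide

theorem d6 : ∀ c : ZMod 3, c * (5 - c) ≠ 8 := by decide

theorem d7 : ∀ c : ZMod 5, c * (3 - c) ≠ 8 := by decide

variable {Λ : Type} [Group Λ]

theorem cmul (ρ : Λ →* SLn 3 ℤ_[2]) (g : (Mn 3 (ZMod 2))ˣ) (a b : Λ) (A B : Mn 3 (ZMod 2))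
    (ha : (rp ρ a : Mn 3 (ZMod 2)) = (g : Mn 3 (ZMod 2)) * A * ((g⁻¹ : (Mn 3 (ZMod 2))ˣ) : Mn 3 (ZMod 2)))
    (hb : (rp ρ b : Mn 3 (ZMod 2)) = (g : Mn 3 (ZMod 2)) * B * ((g⁻¹ : (Mn 3 (ZMod 2))ˣ) : Mn 3 (ZMod 2))) :
    (rp ρ (a * b) : Mn 3 (ZMod 2)) =
      (g : Mn 3 (ZMod 2)) * (A * B) * ((g⁻¹ : (Mn 3 (ZMod 2))ˣ) : Mn 3 (ZMod 2)) := by
  rw [map_mul, Matrix.SpecialLinearGroup.coe_mul, ha, hb]
  have h : ((g⁻¹ : (Mn 3 (ZMod 2))ˣ) : Mn 3 (ZMod 2)) * (g : Mn 3 (ZMod 2)) = 1 := Units.inv_mul g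
  calc (g : Mn 3 (ZMod 2)) * A * ((g⁻¹ : (Mn 3 (ZMod 2))ˣ) : Mn 3 (ZMod 2)) *
        ((g : Mn 3 (ZMod 2)) * B * ((g⁻¹ : (Mn 3 (ZMod 2))ˣ) : Mn 3 (ZMod 2)))
      = (g : Mn 3 (ZMod 2)) * A * (((g⁻¹ : (Mn 3 (ZMod 2))ˣ) : Mn 3 (ZMod 2)) * (g : Mn 3 (ZMod 2))) *
          B * ((g⁻¹ : (Mn 3 (ZMod 2))ˣ) : Mn 3 (ZMod 2)) := by simp only [mul_assoc]
    _ = _ := by rw [h, mul_one]; simp only [mul_assoc]

theorem cinj (g : (Mn 3 (ZMod 2))ˣ) (A B : Mn 3 (ZMod 2))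
    (h : (g : Mn 3 (ZMod 2)) * A * ((g⁻¹ : (Mn 3 (ZMod 2))ˣ) : Mn 3 (ZMod 2)) =
      (g : Mn 3 (ZMod 2)) * B * ((g⁻¹ : (Mn 3 (ZMod 2))ˣ) : Mn 3 (ZMod 2))) : A = B := by
  have h1 : ((g⁻¹ : (Mn 3 (ZMod 2))ˣ) : Mn 3 (ZMod 2)) * (g : Mn 3 (ZMod 2)) = 1 := Units.inv_mul g
  have h2 := congrArg (fun M => ((g⁻¹ : (Mn 3 (ZMod 2))ˣ) : Mn 3 (ZMod 2)) * M * (g : Mn 3 (ZMod 2))) h
  have h3 : ∀ A : Mn 3 (ZMod 2), ((g⁻¹ : (Mn 3 (ZMod 2))ˣ) : Mn 3 (ZMod 2)) *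
      ((g : Mn 3 (ZMod 2)) * A * ((g⁻¹ : (Mn 3 (ZMod 2))ˣ) : Mn 3 (ZMod 2))) * (g : Mn 3 (ZMod 2)) = A := by
    intro A
    calc _ = (((g⁻¹ : (Mn 3 (ZMod 2))ˣ) : Mn 3 (ZMod 2)) * (g : Mn 3 (ZMod 2))) * A *
          (((g⁻¹ : (Mn 3 (ZMod 2))ˣ) : Mn 3 (ZMod 2)) * (g : Mn 3 (ZMod 2))) := by
            simp only [mul_assoc]
      _ = A := by rw [h1, one_mul, mul_one]
  simpa only [h3] using h2

theorem cone (ρ : Λ →* SLn 3 ℤ_[2]) (g : (Mn 3 (ZMod 2))ˣ) (a : Λ) (A : Mn 3 (ZMod 2))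
    (ha : (rp ρ a : Mn 3 (ZMod 2)) = (g : Mn 3 (ZMod 2)) * A * ((g⁻¹ : (Mn 3 (ZMod 2))ˣ) : Mn 3 (ZMod 2))) :
    rp ρ a = 1 ↔ A = 1 := by
  have h0 : (g : Mn 3 (ZMod 2)) * 1 * ((g⁻¹ : (Mn 3 (ZMod 2))ˣ) : Mn 3 (ZMod 2)) = 1 := by
    rw [mul_one, Units.mul_inv]
  constructor
  · intro h
    apply cinj g
    rw [← ha, h, h0]
    rfl
  · intro h
    apply Subtype.ext
    rw [ha, h, h0]
    rfl

/-- an integer which is a unit in all `ℤ_[q]` -/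
theorem unit_all (m : ℤ) (h : ∀ (q : ℕ) [Fact q.Prime], IsUnit (m : ℤ_[q])) : m = 1 ∨ m = -1 := by
  by_contra hm
  push Not at hm
  have h1 : m.natAbs ≠ 1 := by
    intro h2
    rcases Int.natAbs_eq m with h3 | h3
    · rw [h2] at h3; exact hm.1 (by simpa using h3)
    · rw [h2] at h3; exact hm.2 (by simpa using h3)
  obtain ⟨q, hq, hd⟩ := Nat.exists_prime_and_dvd h1
  have : Fact q.Prime := ⟨hq⟩
  have h2 := h q
  rw [PadicInt.isUnit_iff] at h2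
  have h3 : ‖(m : ℤ_[q])‖ < 1 := (PadicInt.norm_int_lt_one_iff_dvd (p := q) m).2
    (Int.natCast_dvd.2 hd)
  linarith

end G3

open G3 in
theorem t_G3 (hPAD : S_PAD) (hDZ : S_DZ) (hTRF : S_TRF) (hEX : S_EX) (hQ3 : S_Q3) (hD3 : S_D3) :
    S_G3 := by
  intro ι Λ _ x κ hFG hFQ hgen hfin ρ hρ hN
  obtain ⟨g, u, hbij, hxu, h3, h4⟩ := hEX 3 le_rfl ι Λ x κ hfin ρ hN
  obtain ⟨w, hw⟩ : ∃ w : Fin 3 → Λ, w = fun k => x (u k) := ⟨_, rfl⟩
  have hw' : ∀ k, w k = x (u k) := fun k => by rw [hw]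
  have hrw : ∀ k, (rp ρ (w k) : Mn 3 (ZMod 2)) =
      (g : Mn 3 (ZMod 2)) * cy k 1 * ((g⁻¹ : (Mn 3 (ZMod 2))ˣ) : Mn 3 (ZMod 2)) := fun k => by
    rw [hw' k]; exact hxu k
  -- membership
  have hmem : ∀ i t, κ t ≠ i → x t ∈ Subgroup.closure (x '' {t | κ t ≠ i}) := fun i t h =>
    Subgroup.subset_closure ⟨t, h, rfl⟩
  have hwm : ∀ i k, κ (u k) ≠ i → w k ∈ Subgroup.closure (x '' {t | κ t ≠ i}) := fun i k h => by
    rw [hw' k]; exact hmem i _ h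
  -- (a)
  have hρ1 : ∀ i, ∀ z ∈ Subgroup.closure (x '' {t | κ t ≠ i}), rp ρ z = 1 → ρ z = 1 := by
    intro i z hz hrz
    rcases h4 i z hz hrz with h | h
    · exact Subtype.ext (by rw [h]; rfl)
    · exfalso
      have h5 := (ρ z).2
      have h6 : (ρ z : Mn 3 ℤ_[2]).det = -1 := by
        rw [h, Matrix.det_neg, Matrix.det_one]
        simp
        norm_num
      have h7 : (ρ z : Mn 3 ℤ_[2]).det = 1 := h5
      rw [h6] at h7
      have h8 : (2 : ℤ_[2]) = 0 := by linear_combination -h7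
      exact two_ne_zero h8
  have hσ1 : ∀ (q : ℕ) [Fact q.Prime] (σ : Λ →* SLn 3 ℤ_[q]), Dn σ → ∀ i,
      ∀ z ∈ Subgroup.closure (x '' {t | κ t ≠ i}), rp ρ z = 1 → σ z = 1 := by
    intro q _ σ hσ i z hz hrz
    exact hTRF 3 le_rfl Λ hFG hFQ q 2 σ ρ hσ hρ z (hfin i z hz) (hρ1 i z hz hrz)
  have hσ2 : ∀ (q : ℕ) [Fact q.Prime] (σ : Λ →* SLn 3 ℤ_[q]), Dn σ → ∀ i,
      ∀ z ∈ Subgroup.closure (x '' {t | κ t ≠ i}), σ z = 1 → rp ρ z = 1 := by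
    intro q _ σ hσ i z hz hrz
    have := hTRF 3 le_rfl Λ hFG hFQ 2 q ρ σ hρ hσ z (hfin i z hz) hrz
    show (Matrix.SpecialLinearGroup.map (n := Fin 3) (PadicInt.toZMod (p := 2))) (ρ z) = 1
    rw [this, map_one]
  -- (b), (c)
  have hrel : ∀ (q : ℕ) [Fact q.Prime] (σ : Λ →* SLn 3 ℤ_[q]), Dn σ →
      Rel3 (fun k => σ (w k)) := by
    intro q _ σ hσ
    refine ⟨fun k => ?_, fun k h => ?_, fun j k hjk => ?_, fun j k hjk h => ?_⟩
    · obtain ⟨i, hi, _⟩ := d5 (κ (u k)) (κ (u k))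
      have hm := hwm i k hi
      have := hσ1 q σ hσ i (w k * w k) (mul_mem hm hm)
        ((cone ρ g _ _ (cmul ρ g _ _ _ _ (hrw k) (hrw k))).2 (d1 k))
      rwa [map_mul] at this
    · obtain ⟨i, hi, _⟩ := d5 (κ (u k)) (κ (u k))
      have hm := hwm i k hi
      have h5 := hσ2 q σ hσ i (w k) hm h
      exact d3 k ((cone ρ g _ _ (hrw k)).1 h5)
    · obtain ⟨i, hi, hi'⟩ := d5 (κ (u j)) (κ (u k))
      have hm := mul_mem (hwm i j hi) (hwm i k hi')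
      have e1 := cmul ρ g _ _ _ _ (hrw j) (hrw k)
      have e2 := cmul ρ g _ _ _ _ e1 e1
      have e4 := cmul ρ g _ _ _ _ e2 e2
      have := hσ1 q σ hσ i _ (mul_mem (mul_mem hm hm) (mul_mem hm hm))
        ((cone ρ g _ _ e4).2 (d2 j k))
      show (σ (w j) * σ (w k)) ^ 4 = 1
      rw [← this, ← map_mul, ← map_pow]
      congr 1
      simp only [pow_succ, pow_zero, one_mul, mul_assoc]
    · obtain ⟨i, hi, hi'⟩ := d5 (κ (u j)) (κ (u k))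
      have hj := hwm i j hi
      have hk := hwm i k hi'
      have hc : σ (w j * w k * (w j)⁻¹ * (w k)⁻¹) = 1 := by
        rw [map_mul, map_mul, map_mul, map_inv, map_inv]
        have h' : σ (w j) * σ (w k) = σ (w k) * σ (w j) := h
        rw [h']; group
      have h5 := hσ2 q σ hσ i _
        (mul_mem (mul_mem (mul_mem hj hk) (inv_mem hj)) (inv_mem hk)) hc
      have h6 : rp ρ (w j * w k) = rp ρ (w k * w j) := by
        have e : w j * w k = (w j * w k * (w j)⁻¹ * (w k)⁻¹) * (w k * w j) := by group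
        rw [e, map_mul, h5, one_mul]
      have h7 := congrArg (fun M : SLn 3 (ZMod 2) => (M : Mn 3 (ZMod 2))) h6
      rw [cmul ρ g _ _ _ _ (hrw j) (hrw k), cmul ρ g _ _ _ _ (hrw k) (hrw j)] at h7
      exact d4 j k hjk (cinj g _ _ h7)
  -- (d)
  have hsurj : ∀ (q : ℕ) [Fact q.Prime] (σ : Λ →* SLn 3 ℤ_[q]), Dn σ →
      ∀ y : SLn 3 (ZMod q), ∃ s ∈ Subgroup.closure (Set.range fun k => σ (w k)),
        Matrix.SpecialLinearGroup.map (n := Fin 3) (PadicInt.toZMod (p := q)) s = y := by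
    intro q _ σ hσ y
    obtain ⟨l, hl⟩ := hDZ 3 q Λ σ hσ y
    refine ⟨σ l, ?_, hl⟩
    have h5 : ∀ t, σ (x t) ∈ Subgroup.closure (Set.range fun k => σ (w k)) := by
      intro t
      rcases h3 t with h | ⟨k, hk, h⟩
      · obtain ⟨i, hi, _⟩ := d5 (κ t) (κ t)
        rw [hσ1 q σ hσ i _ (hmem i t hi) h]
        exact one_mem _
      · obtain ⟨i, hi, _⟩ := d5 (κ t) (κ t)
        have h6 := hσ1 q σ hσ i (x t * (w k)⁻¹)
          (mul_mem (hmem i t hi) (inv_mem (hwm i k (by rw [hk]; exact hi))))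
          (by rw [map_mul, map_inv, hw' k, h, mul_inv_cancel])
        rw [map_mul, map_inv, mul_inv_eq_one] at h6
        rw [h6]
        exact Subgroup.subset_closure ⟨k, rfl⟩
    have h6 : l ∈ Subgroup.closure (Set.range x) := by rw [hgen]; trivial
    have h7 : Subgroup.closure (Set.range x) ≤
        (Subgroup.closure (Set.range fun k => σ (w k))).comap σ := by
      rw [Subgroup.closure_le]
      rintro _ ⟨t, rfl⟩
      exact h5 t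
    exact h7 h6
  -- the integer
  obtain ⟨s, hs⟩ := hD3 3 le_rfl Λ hFG hFQ (w 0 * w 1 * w 2)
  have key : ∀ (q : ℕ) [Fact q.Prime], ∃ c : ℤ_[q], c * (6 + (s : ℤ_[q]) - c) = 8 ∧
      IsUnit (((s + 2 : ℤ)) : ℤ_[q]) := by
    intro q _
    obtain ⟨σ, hσ⟩ := hPAD 3 (by norm_num) Λ hFG hFQ q
    have h5 := hQ3 q (fun k => σ (w k)) (hrel q σ hσ) (hsurj q σ hσ)
    have h6 := hs q σ hσ
    have hr := (hrel q σ hσ).1
    have h7 : σ (w 0 * w 1 * w 2)⁻¹ = σ (w 2) * σ (w 1) * σ (w 0) := by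
      rw [map_inv, map_mul, map_mul, _root_.mul_inv_rev, _root_.mul_inv_rev]
      have e : ∀ k, (σ (w k))⁻¹ = σ (w k) := fun k => inv_eq_of_mul_eq_one_right (hr k)
      rw [e, e, e, mul_assoc]
    rw [h7, map_mul, map_mul] at h6
    obtain ⟨h8, h9⟩ := h5
    refine ⟨3 + ((σ (w 0) * σ (w 1) * σ (w 2) : SLn 3 ℤ_[q]) : Mn 3 ℤ_[q]).trace, ?_, ?_⟩
    · rw [← h6]
      linear_combination h8
    · have e : (((s + 2 : ℤ)) : ℤ_[q]) = (s : ℤ_[q]) + 2 := by push_cast; ring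
      rw [e, ← h6]
      exact h9
  have hs1 : s + 2 = 1 ∨ s + 2 = -1 := unit_all _ fun q _ => (key q).choose_spec.2
  rcases hs1 with h | h
  · have hs' : s = -1 := by omega
    obtain ⟨c, hc, _⟩ := @key 3 ⟨Nat.prime_three⟩
    have h5 := congrArg (PadicInt.toZMod (p := 3)) hc
    rw [hs'] at h5
    simp only [map_mul, map_sub, map_add, map_intCast] at h5
    have e6 : (PadicInt.toZMod (p := 3)) (6 : ℤ_[3]) = 6 := by
      have := map_natCast (PadicInt.toZMod (p := 3)) 6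
      simpa using this
    have e8 : (PadicInt.toZMod (p := 3)) (8 : ℤ_[3]) = 8 := by
      have := map_natCast (PadicInt.toZMod (p := 3)) 8
      simpa using this
    rw [e6, e8] at h5
    refine d6 (PadicInt.toZMod (p := 3) c) ?_
    rw [← h5]
    push_cast
    ring
  · have hs' : s = -3 := by omega
    obtain ⟨c, hc, _⟩ := @key 5 ⟨Nat.prime_five⟩
    have : Fact (Nat.Prime 5) := ⟨Nat.prime_five⟩
    have h5 := congrArg (PadicInt.toZMod (p := 5)) hc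
    rw [hs'] at h5
    simp only [map_mul, map_sub, map_add, map_intCast] at h5
    have e6 : (PadicInt.toZMod (p := 5)) (6 : ℤ_[5]) = 6 := by
      have := map_natCast (PadicInt.toZMod (p := 5)) 6
      simpa using this
    have e8 : (PadicInt.toZMod (p := 5)) (8 : ℤ_[5]) = 8 := by
      have := map_natCast (PadicInt.toZMod (p := 5)) 8
      simpa using this
    rw [e6, e8] at h5
    refine d7 (PadicInt.toZMod (p := 5) c) ?_
    rw [← h5]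
    push_cast
    ring

end Pool.Agent.T2h96.ST
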