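import Pool.Agent.T2h96.ST.Stm2

/-!
# (G4) contradiction for `n = 4`
-/

set_option autoImplicit false

namespace Pool.Agent.T2h96.ST

open Matrix Pool.Agent.T2h61.PR Pool.Agent.T2h96.SN Pool.Agent.T2h96.SM

namespace G4

/-- conjugation by `g` -/
def cj (g : (Mn 4 (ZMod 2))ˣ) (M : Mn 4 (ZMod 2)) : Mn 4 (ZMod 2) :=
  (g : Mn 4 (ZMod 2)) * M * ((g⁻¹ : (Mn 4 (ZMod 2))ˣ) : Mn 4 (ZMod 2))

theorem cj_mul (g : (Mn 4 (ZMod 2))ˣ) (M N : Mn 4 (ZMod 2)) : cj g M * cj g N = cj g (M * N) := by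
  unfold cj
  calc (g : Mn 4 (ZMod 2)) * M * ((g⁻¹ : (Mn 4 (ZMod 2))ˣ) : Mn 4 (ZMod 2)) *
      ((g : Mn 4 (ZMod 2)) * N * ((g⁻¹ : (Mn 4 (ZMod 2))ˣ) : Mn 4 (ZMod 2)))
      = (g : Mn 4 (ZMod 2)) * M * (((g⁻¹ : (Mn 4 (ZMod 2))ˣ) : Mn 4 (ZMod 2)) *
      (g : Mn 4 (ZMod 2))) * N * ((g⁻¹ : (Mn 4 (ZMod 2))ˣ) : Mn 4 (ZMod 2)) := by
        simp only [mul_assoc]
    _ = _ := by
        rw [Units.inv_mul, mul_one]
        simp only [mul_assoc]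

theorem cj_one (g : (Mn 4 (ZMod 2))ˣ) : cj g 1 = 1 := by
  unfold cj
  rw [mul_one, Units.mul_inv]

theorem cj_inj (g : (Mn 4 (ZMod 2))ˣ) {M : Mn 4 (ZMod 2)} (h : cj g M = 1) : M = 1 := by
  unfold cj at h
  have h1 : ((g⁻¹ : (Mn 4 (ZMod 2))ˣ) : Mn 4 (ZMod 2)) * ((g : Mn 4 (ZMod 2)) * M *
      ((g⁻¹ : (Mn 4 (ZMod 2))ˣ) : Mn 4 (ZMod 2))) * (g : Mn 4 (ZMod 2)) = 1 := by
    rw [h, mul_one, Units.inv_mul]
  have h2 : ((g⁻¹ : (Mn 4 (ZMod 2))ˣ) : Mn 4 (ZMod 2)) * ((g : Mn 4 (ZMod 2)) * M *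
      ((g⁻¹ : (Mn 4 (ZMod 2))ˣ) : Mn 4 (ZMod 2))) * (g : Mn 4 (ZMod 2)) =
      (((g⁻¹ : (Mn 4 (ZMod 2))ˣ) : Mn 4 (ZMod 2)) * (g : Mn 4 (ZMod 2))) * M *
      (((g⁻¹ : (Mn 4 (ZMod 2))ˣ) : Mn 4 (ZMod 2)) * (g : Mn 4 (ZMod 2))) := by
    simp only [mul_assoc]
  rw [h2, Units.inv_mul, one_mul, mul_one] at h1
  exact h1

theorem cj_vec (g : (Mn 4 (ZMod 2))ˣ) (w φ : Fin 4 → ZMod 2) :
    cj g (1 + Matrix.vecMulVec w φ) = 1 + Matrix.vecMulVec ((g : Mn 4 (ZMod 2)) *ᵥ w)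
      (φ ᵥ* ((g⁻¹ : (Mn 4 (ZMod 2))ˣ) : Mn 4 (ZMod 2))) := by
  unfold cj
  rw [mul_add, add_mul, mul_one, Units.mul_inv, Matrix.mul_vecMulVec, Matrix.vecMulVec_mul]

/-- congruent matrices -/
theorem exists_Y {n : ℕ} (A B : Mn n ℤ_[2])
    (h : A.map (PadicInt.toZMod (p := 2)) = B.map (PadicInt.toZMod (p := 2))) :
    ∃ Y : Mn n ℤ_[2], A = B + (2 : ℤ_[2]) • Y := by
  have h1 : ∀ i j, ∃ w : ℤ_[2], A i j = B i j + 2 * w := by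
    intro i j
    have h2 : PadicInt.toZMod (p := 2) (A i j) = PadicInt.toZMod (p := 2) (B i j) :=
      congrFun (congrFun h i) j
    have h4 : A i j - B i j ∈ RingHom.ker (PadicInt.toZMod (p := 2)) := by
      rw [RingHom.mem_ker, map_sub, h2, sub_self]
    rw [PadicInt.ker_toZMod, PadicInt.maximalIdeal_eq_span_p, Ideal.mem_span_singleton] at h4
    obtain ⟨w, hw⟩ := h4
    refine ⟨w, ?_⟩
    have h5 : ((2 : ℕ) : ℤ_[2]) * w = 2 * w := by norm_num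
    rw [← h5, ← hw]; ring
  choose W hW using h1
  refine ⟨Matrix.of W, ?_⟩
  ext i j
  rw [hW i j]
  simp [Matrix.add_apply]

theorem exists_lift {n : ℕ} (v : Fin n → ZMod 2) :
    ∃ w : Fin n → ℤ_[2], ∀ i, PadicInt.toZMod (p := 2) (w i) = v i := by
  refine ⟨fun i => ((v i).val : ℤ_[2]), fun i => ?_⟩
  rw [map_natCast, ZMod.natCast_zmod_val]

theorem map_neg_one : (-1 : Mn 4 ℤ_[2]).map (PadicInt.toZMod (p := 2)) = 1 := by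
  ext i j
  have h2 : (-1 : ZMod 2) = 1 := by decide
  by_cases hij : i = j
  · subst hij
    simp [h2]
  · simp [Matrix.neg_apply, Matrix.one_apply_ne hij]

theorem bl_sq : ∀ a b c d : ZMod 2, (bl ![a, b, c, d] : Mn 4 (ZMod 2)) * bl ![a, b, c, d] = 1 := by
  decide

theorem eta (a : Fin 4 → ZMod 2) : a = ![a 0, a 1, a 2, a 3] := by
  ext i; fin_cases i <;> rfl

theorem bl_sq' (a : Fin 4 → ZMod 2) : (bl a : Mn 4 (ZMod 2)) * bl a = 1 := by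
  rw [eta a]; exact bl_sq _ _ _ _

/-- over `F_2` -/
theorem bl_mul (a b : Fin 4 → ZMod 2) : (bl a : Mn 4 (ZMod 2)) * bl b = bl (a + b) := by
  unfold bl
  ext i j
  fin_cases i <;> fin_cases j <;> simp [Matrix.mul_apply, Fin.sum_univ_four]

theorem bl_ne (a b : Fin 4 → ZMod 2) (h : a ≠ b) : (bl a : Mn 4 (ZMod 2)) * bl b ≠ 1 := by
  intro h1
  apply h
  have h2 : (bl a : Mn 4 (ZMod 2)) = bl b := by
    calc (bl a : Mn 4 (ZMod 2)) = bl a * (bl b * bl b) := by rw [bl_sq', mul_one]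
      _ = bl b := by rw [← mul_assoc, h1, one_mul]
  ext i
  fin_cases i
  · exact congrFun (congrFun h2 2) 0
  · exact congrFun (congrFun h2 2) 1
  · exact congrFun (congrFun h2 3) 0
  · exact congrFun (congrFun h2 3) 1

theorem E0 : ∀ a c : ZMod 2, (cy 0 1 * bl ![a, 0, c, 0] : Mn 4 (ZMod 2)) ≠ 1 ∧
    (cy 0 1 * bl ![a, 0, c, 0] : Mn 4 (ZMod 2)) * (cy 0 1 * bl ![a, 0, c, 0]) = 1 := by
  decide

theorem E1 : ∀ a b c d : ZMod 2,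
    (cy 0 1 * bl ![a, b, c, d] : Mn 4 (ZMod 2)) * (cy 0 1 * bl ![a, b, c, d]) =
      1 + Matrix.vecMulVec ![0, 0, b, d] ![1, 0, 0, 0] := by
  decide

theorem E2 : ∀ b d : ZMod 2,
    (1 + Matrix.vecMulVec ![0, 0, b, d] ![1, 0, 0, 0] : Mn 4 (ZMod 2)) *
      (1 + Matrix.vecMulVec ![0, 0, b, d] ![1, 0, 0, 0]) = 1 := by
  decide

theorem E3 : ∀ b d : ZMod 2, ¬ (b = 0 ∧ d = 0) →
    (1 + Matrix.vecMulVec ![0, 0, b, d] ![1, 0, 0, 0] : Mn 4 (ZMod 2)) ≠ 1 := by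
  decide

theorem count : (∑ a : Fin 4 → ZMod 2, if a 1 = 0 ∧ a 3 = 0 then (0 : ℕ) else 4) = 48 := by
  decide

/-- the matrix of the reduction -/
theorem rp_coe {n p : ℕ} [Fact p.Prime] {Λ : Type} [Group Λ] (ρ : Λ →* SLn n ℤ_[p]) (l : Λ) :
    (rp ρ l : Mn n (ZMod p)) = (ρ l : Mn n ℤ_[p]).map (PadicInt.toZMod (p := p)) := rfl

/-- elements of order two modulo the kernel -/
theorem trace_zero (hTZ : S_TZ) {Λ : Type} [Group Λ] (ρ : Λ →* SLn 4 ℤ_[2]) (P : Subgroup Λ)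
    (hk : ∀ l ∈ P, rp ρ l = 1 → (ρ l : Mn 4 ℤ_[2]) = 1 ∨ (ρ l : Mn 4 ℤ_[2]) = -1)
    (h : Λ) (hP : h ∈ P) (h1 : (rp ρ h : Mn 4 (ZMod 2)) ≠ 1)
    (h2 : (rp ρ h : Mn 4 (ZMod 2)) * (rp ρ h : Mn 4 (ZMod 2)) = 1) :
    (ρ h : Mn 4 ℤ_[2]).trace = 0 := by
  have h3 : rp ρ (h * h) = 1 := by
    apply Subtype.ext
    rw [map_mul]
    exact h2
  have h4 := hk (h * h) (P.mul_mem hP hP) h3
  rw [map_mul, Matrix.SpecialLinearGroup.coe_mul] at h4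
  refine hTZ (ρ h : Mn 4 ℤ_[2]) (ρ h).2 h4 ?_ ?_
  · intro h5
    apply h1
    rw [rp_coe, h5]
    exact Matrix.map_one _ (map_zero _) (map_one _)
  · intro h5
    apply h1
    rw [rp_coe, h5]
    exact map_neg_one

/-- elements whose square is a transvection -/
theorem trace_four (hTT : S_TT) {Λ : Type} [Group Λ] (ρ : Λ →* SLn 4 ℤ_[2]) (P : Subgroup Λ)
    (hk : ∀ l ∈ P, rp ρ l = 1 → (ρ l : Mn 4 ℤ_[2]) = 1 ∨ (ρ l : Mn 4 ℤ_[2]) = -1)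
    (h : Λ) (hP : h ∈ P) (w φ : Fin 4 → ZMod 2)
    (h1 : (rp ρ h : Mn 4 (ZMod 2)) * (rp ρ h : Mn 4 (ZMod 2)) = 1 + Matrix.vecMulVec w φ)
    (h2 : (1 + Matrix.vecMulVec w φ : Mn 4 (ZMod 2)) ≠ 1)
    (h3 : (1 + Matrix.vecMulVec w φ : Mn 4 (ZMod 2)) * (1 + Matrix.vecMulVec w φ) = 1) :
    (ρ h : Mn 4 ℤ_[2]).trace * (ρ h⁻¹ : Mn 4 ℤ_[2]).trace = 4 := by
  obtain ⟨w', hw⟩ := exists_lift w
  obtain ⟨φ', hφ⟩ := exists_lift φ
  have hm : ((ρ h : Mn 4 ℤ_[2]) * (ρ h : Mn 4 ℤ_[2])).map (PadicInt.toZMod (p := 2)) =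
      1 + Matrix.vecMulVec w φ := by
    rw [Matrix.map_mul, ← h1, rp_coe]
  obtain ⟨Y, hY⟩ := exists_Y ((ρ h : Mn 4 ℤ_[2]) * (ρ h : Mn 4 ℤ_[2]))
    (1 + Matrix.vecMulVec w' φ') (by
      rw [hm]
      ext i j
      rw [Matrix.map_apply, Matrix.add_apply, Matrix.add_apply, map_add, Matrix.vecMulVec_apply,
        Matrix.vecMulVec_apply, map_mul, hw, hφ]
      congr 1
      rw [Matrix.one_apply, Matrix.one_apply]
      split_ifs <;> simp)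
  have h4 : rp ρ (h * h * (h * h)) = 1 := by
    apply Subtype.ext
    rw [map_mul, map_mul]
    change (rp ρ h : Mn 4 (ZMod 2)) * (rp ρ h : Mn 4 (ZMod 2)) *
      ((rp ρ h : Mn 4 (ZMod 2)) * (rp ρ h : Mn 4 (ZMod 2))) = 1
    rw [h1, h3]
  have h5 := hk (h * h * (h * h)) (P.mul_mem (P.mul_mem hP hP) (P.mul_mem hP hP)) h4
  rw [map_mul, map_mul, Matrix.SpecialLinearGroup.coe_mul, Matrix.SpecialLinearGroup.coe_mul] at h5
  refine hTT (ρ h : Mn 4 ℤ_[2]) (ρ h⁻¹ : Mn 4 ℤ_[2]) Y w' φ' (ρ h).2 ?_ hY h5 ?_ ?_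
  · rw [← Matrix.SpecialLinearGroup.coe_mul, ← map_mul, mul_inv_cancel, map_one]
    rfl
  · intro h6
    rw [h6] at hm
    apply h2
    rw [← hm]
    exact Matrix.map_one _ (map_zero _) (map_one _)
  · intro h6
    rw [h6] at hm
    apply h2
    rw [← hm]
    exact map_neg_one

end G4

theorem t_G4 : S_EX → S_TZ → S_TT → S_B4 → S_GA → S_G4 := by
  intro hEX hTZ hTT hB4 hGA ι Λ _ x κ hfin ρ hNF
  obtain ⟨g, u, hbij, hu, -, hker⟩ := hEX 4 (by norm_num) ι Λ x κ hfin ρ hNF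
  set i : Fin 4 := κ (u 3) with hi
  set P : Subgroup Λ := Subgroup.closure (x '' {t | κ t ≠ i}) with hP
  have hk := hker i
  rw [← hP] at hk
  have huP : ∀ k : Fin 4, k ≠ 3 → x (u k) ∈ P := by
    intro k hk3
    refine Subgroup.subset_closure ⟨u k, ?_, rfl⟩
    intro h
    exact hk3 (hbij.1 h)
  have hl : ∀ a : Fin 4 → ZMod 2, ∃ l ∈ P, (rp ρ l : Mn 4 (ZMod 2)) = G4.cj g (bl a) := by
    intro a
    obtain ⟨h, hh, e⟩ := hGA (P.map (rp ρ)) g (fun k hk3 =>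
      ⟨rp ρ (x (u k)), ⟨x (u k), huP k hk3, rfl⟩, hu k⟩) a
    obtain ⟨l, hl, rfl⟩ := hh
    exact ⟨l, hl, e⟩
  choose l hlP hl using hl
  set e : Λ := x (u 0) with he
  have heP : e ∈ P := huP 0 (by decide)
  have hee : (rp ρ e : Mn 4 (ZMod 2)) = G4.cj g (cy 0 1) := hu 0
  have hli : ∀ a, (rp ρ (l a)⁻¹ : Mn 4 (ZMod 2)) = G4.cj g (bl a) := by
    intro a
    have h1 : rp ρ (l a) * rp ρ (l a) = 1 := by
      apply Subtype.ext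
      change (rp ρ (l a) : Mn 4 (ZMod 2)) * (rp ρ (l a) : Mn 4 (ZMod 2)) = 1
      rw [hl, G4.cj_mul, G4.bl_sq', G4.cj_one]
    rw [map_inv, inv_eq_of_mul_eq_one_right h1, hl]
  have hhe : ∀ a, (rp ρ (e * (l a)⁻¹) : Mn 4 (ZMod 2)) = G4.cj g (cy 0 1 * bl a) := by
    intro a
    rw [map_mul]
    change (rp ρ e : Mn 4 (ZMod 2)) * (rp ρ (l a)⁻¹ : Mn 4 (ZMod 2)) = _
    rw [hee, hli, G4.cj_mul]
  have hheP : ∀ a, e * (l a)⁻¹ ∈ P := fun a => P.mul_mem heP (P.inv_mem (hlP a))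
  -- the map to `ℚ_[2]`
  let c : ℤ_[2] →+* ℚ_[2] := PadicInt.Coe.ringHom
  have htr : ∀ A : Mn 4 ℤ_[2], (A.map c).trace = c A.trace := by
    intro A
    exact (AddMonoidHom.map_trace c A).symm
  have hmm : ∀ s t : Λ, ((ρ s : Mn 4 ℤ_[2]).map c) * ((ρ t : Mn 4 ℤ_[2]).map c) =
      (ρ (s * t) : Mn 4 ℤ_[2]).map c := by
    intro s t
    rw [← Matrix.map_mul, ← Matrix.SpecialLinearGroup.coe_mul, ← map_mul]
  have hm1 : ((ρ 1 : Mn 4 ℤ_[2]).map c) = 1 := by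
    rw [map_one]
    exact Matrix.map_one _ (map_zero _) (map_one _)
  have hcard : Fintype.card (Fin 4 → ZMod 2) = 16 := by
    simp [ZMod.card]
  have hsum := hB4 ℚ_[2] (Fin 4 → ZMod 2) (fun a => (ρ (l a) : Mn 4 ℤ_[2]).map c)
    (fun a => (ρ (l a)⁻¹ : Mn 4 ℤ_[2]).map c) ((ρ e : Mn 4 ℤ_[2]).map c)
    ((ρ e⁻¹ : Mn 4 ℤ_[2]).map c) hcard
    (fun a => by rw [hmm, mul_inv_cancel, hm1]) (by rw [hmm, mul_inv_cancel, hm1])
    (fun a b hab => by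
      rw [hmm, htr]
      have h0 : (rp ρ (l a * (l b)⁻¹) : Mn 4 (ZMod 2)) = G4.cj g (bl a * bl b) := by
        rw [map_mul]
        change (rp ρ (l a) : Mn 4 (ZMod 2)) * (rp ρ (l b)⁻¹ : Mn 4 (ZMod 2)) = _
        rw [hl, hli, G4.cj_mul]
      rw [G4.trace_zero hTZ ρ P hk (l a * (l b)⁻¹) (P.mul_mem (hlP a) (P.inv_mem (hlP b)))
        (by
          rw [h0]
          exact fun h => G4.bl_ne a b hab (G4.cj_inj g h))
        (by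
          rw [h0, G4.cj_mul, G4.bl_mul, G4.bl_sq', G4.cj_one]), map_zero])
  have hterm : ∀ a : Fin 4 → ZMod 2, (((ρ e : Mn 4 ℤ_[2]).map c) *
      ((ρ (l a)⁻¹ : Mn 4 ℤ_[2]).map c)).trace *
      (((ρ (l a) : Mn 4 ℤ_[2]).map c) * ((ρ e⁻¹ : Mn 4 ℤ_[2]).map c)).trace =
      ((if a 1 = 0 ∧ a 3 = 0 then (0 : ℕ) else 4 : ℕ) : ℚ_[2]) := by
    intro a
    rw [hmm, hmm, htr, htr]
    have hinv : l a * e⁻¹ = (e * (l a)⁻¹)⁻¹ := by group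
    rw [hinv]
    by_cases ha : a 1 = 0 ∧ a 3 = 0
    · rw [if_pos ha]
      have ha' : a = ![a 0, 0, a 2, 0] := by
        conv_lhs => rw [G4.eta a, ha.1, ha.2]
      have h0 := hhe a
      rw [G4.trace_zero hTZ ρ P hk (e * (l a)⁻¹) (hheP a)
        (by
          rw [h0]
          intro h
          have h1 := G4.cj_inj g h
          rw [ha'] at h1
          exact (G4.E0 (a 0) (a 2)).1 h1)
        (by
          rw [h0, G4.cj_mul, ha', (G4.E0 (a 0) (a 2)).2, G4.cj_one]), map_zero, zero_mul]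
      norm_num
    · rw [if_neg ha, ← map_mul]
      have h0 := hhe a
      have h1 : (rp ρ (e * (l a)⁻¹) : Mn 4 (ZMod 2)) * (rp ρ (e * (l a)⁻¹) : Mn 4 (ZMod 2)) =
          1 + Matrix.vecMulVec ((g : Mn 4 (ZMod 2)) *ᵥ ![0, 0, a 1, a 3])
            (![1, 0, 0, 0] ᵥ* ((g⁻¹ : (Mn 4 (ZMod 2))ˣ) : Mn 4 (ZMod 2))) := by
        rw [h0, G4.cj_mul, ← G4.cj_vec, ← G4.E1 (a 0) (a 1) (a 2) (a 3), ← G4.eta a]
      rw [G4.trace_four hTT ρ P hk (e * (l a)⁻¹) (hheP a) _ _ h1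
        (by
          rw [← G4.cj_vec]
          exact fun h => G4.E3 (a 1) (a 3) ha (G4.cj_inj g h))
        (by
          rw [← G4.cj_vec, G4.cj_mul, G4.E2, G4.cj_one])]
      have h4 : c 4 = 4 := map_ofNat c 4
      rw [h4]
      norm_num
  rw [Finset.sum_congr rfl (fun a _ => hterm a), ← Nat.cast_sum, G4.count] at hsum
  norm_num at hsum

end Pool.Agent.T2h96.ST
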