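import Pool.Agent.T2h96.ST.Stm2

set_option autoImplicit false

namespace Pool.Agent.T2h96.ST

open Matrix Pool.Agent.T2h61.PR Pool.Agent.T2h96.SN Pool.Agent.T2h96.SM

namespace GA

/-- the conjugate of `M` is in `H` -/
def InH (H : Subgroup (SLn 4 (ZMod 2))) (g : (Mn 4 (ZMod 2))ˣ) (M : Mn 4 (ZMod 2)) : Prop :=
  ∃ h ∈ H, (h : Mn 4 (ZMod 2)) =
    (g : Mn 4 (ZMod 2)) * M * ((g⁻¹ : (Mn 4 (ZMod 2))ˣ) : Mn 4 (ZMod 2))

theorem InH.one (H : Subgroup (SLn 4 (ZMod 2))) (g : (Mn 4 (ZMod 2))ˣ) : InH H g 1 := by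
  refine ⟨1, H.one_mem, ?_⟩
  rw [mul_one, Units.mul_inv]
  rfl

theorem InH.mul {H : Subgroup (SLn 4 (ZMod 2))} {g : (Mn 4 (ZMod 2))ˣ} {M N : Mn 4 (ZMod 2)}
    (hM : InH H g M) (hN : InH H g N) : InH H g (M * N) := by
  obtain ⟨h, hh, eh⟩ := hM
  obtain ⟨k, hk, ek⟩ := hN
  refine ⟨h * k, H.mul_mem hh hk, ?_⟩
  rw [Matrix.SpecialLinearGroup.coe_mul, eh, ek]
  calc (g : Mn 4 (ZMod 2)) * M * ((g⁻¹ : (Mn 4 (ZMod 2))ˣ) : Mn 4 (ZMod 2)) *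
      ((g : Mn 4 (ZMod 2)) * N * ((g⁻¹ : (Mn 4 (ZMod 2))ˣ) : Mn 4 (ZMod 2)))
      = (g : Mn 4 (ZMod 2)) * M * (((g⁻¹ : (Mn 4 (ZMod 2))ˣ) : Mn 4 (ZMod 2)) *
      (g : Mn 4 (ZMod 2))) * N * ((g⁻¹ : (Mn 4 (ZMod 2))ˣ) : Mn 4 (ZMod 2)) := by
        simp only [mul_assoc]
    _ = _ := by
        rw [Units.inv_mul, mul_one]
        simp only [mul_assoc]

theorem e1 : (cy 1 1 : Mn 4 (ZMod 2)) = bl ![0, 1, 0, 0] := by decide

theorem e0 : (cy 1 1 : Mn 4 (ZMod 2)) * cy 0 1 * cy 1 1 * cy 0 1 = bl ![1, 0, 0, 0] := by decide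

theorem e3 : (cy 2 1 : Mn 4 (ZMod 2)) * cy 1 1 * cy 2 1 * cy 1 1 = bl ![0, 0, 0, 1] := by decide

theorem e2 : (cy 2 1 : Mn 4 (ZMod 2)) * bl ![1, 0, 0, 0] * cy 2 1 * bl ![1, 0, 0, 0] =
    bl ![0, 0, 1, 0] := by decide

theorem bl0 : (bl ![0, 0, 0, 0] : Mn 4 (ZMod 2)) = 1 := by decide

theorem blm : ∀ a b c d : ZMod 2, (bl ![a, b, c, d] : Mn 4 (ZMod 2)) =
    bl ![a, 0, 0, 0] * bl ![0, b, 0, 0] * bl ![0, 0, c, 0] * bl ![0, 0, 0, d] := by decide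

theorem z2 : ∀ a : ZMod 2, a = 0 ∨ a = 1 := by decide

theorem pick {H : Subgroup (SLn 4 (ZMod 2))} {g : (Mn 4 (ZMod 2))ˣ} (f : ZMod 2 → Mn 4 (ZMod 2))
    (h0 : InH H g (f 0)) (h1 : InH H g (f 1)) (y : ZMod 2) : InH H g (f y) := by
  rcases z2 y with h | h
  · rw [h]; exact h0
  · rw [h]; exact h1

end GA

open GA in
theorem t_GA : S_GA := by
  intro H g hH a
  change InH H g (bl a)
  have h0 : InH H g (cy 0 1) := hH 0 (by decide)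
  have h1 : InH H g (cy 1 1) := hH 1 (by decide)
  have h2 : InH H g (cy 2 1) := hH 2 (by decide)
  have b0 : InH H g (bl ![1, 0, 0, 0]) := by
    rw [← e0]; exact ((h1.mul h0).mul h1).mul h0
  have b1 : InH H g (bl ![0, 1, 0, 0]) := by
    rw [← e1]; exact h1
  have b3 : InH H g (bl ![0, 0, 0, 1]) := by
    rw [← e3]; exact ((h2.mul h1).mul h2).mul h1
  have b2 : InH H g (bl ![0, 0, 1, 0]) := by
    rw [← e2]; exact ((h2.mul b0).mul h2).mul b0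
  have b : InH H g (bl ![0, 0, 0, 0]) := by
    rw [bl0]; exact InH.one H g
  have ha : a = ![a 0, a 1, a 2, a 3] := by
    ext i; fin_cases i <;> rfl
  rw [ha, blm]
  exact ((InH.mul (pick (fun y => bl ![y, 0, 0, 0]) b b0 (a 0))
    (pick (fun y => bl ![0, y, 0, 0]) b b1 (a 1))).mul
    (pick (fun y => bl ![0, 0, y, 0]) b b2 (a 2))).mul
    (pick (fun y => bl ![0, 0, 0, y]) b b3 (a 3))

end Pool.Agent.T2h96.ST
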