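import Pool.Agent.T2h96.ST.Stm

/-!
# (GO) contradiction for odd `p`
-/

set_option autoImplicit false

namespace Pool.Agent.T2h96.ST

open Matrix Pool.Agent.T2h61.PR Pool.Agent.T2h96.SN Pool.Agent.T2h96.SM

namespace GO

variable {n p : ℕ} [Fact p.Prime]

theorem dvd_of_toZMod (a : ℤ_[p]) (h : PadicInt.toZMod (p := p) a = 0) : ∃ b, a = (p : ℤ_[p]) * b := by
  have h1 : a ∈ RingHom.ker (PadicInt.toZMod (p := p)) := h
  rw [PadicInt.ker_toZMod, PadicInt.maximalIdeal_eq_span_p, Ideal.mem_span_singleton] at h1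
  exact h1

theorem lift0 (M : Mn n ℤ_[p]) (h : M.map (PadicInt.toZMod (p := p)) = 0) :
    ∃ Y : Mn n ℤ_[p], M = (p : ℤ_[p]) • Y := by
  have h1 : ∀ i j, ∃ b, M i j = (p : ℤ_[p]) * b := fun i j =>
    dvd_of_toZMod _ (by have := congrFun (congrFun h i) j; simpa using this)
  choose Y hY using h1
  exact ⟨Matrix.of Y, by ext i j; simp [hY]⟩

theorem liftv (v : Fin n → ℤ_[p]) (h : ∀ i, PadicInt.toZMod (p := p) (v i) = 0) :
    ∃ w : Fin n → ℤ_[p], v = (p : ℤ_[p]) • w := by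
  have h1 : ∀ i, ∃ b, v i = (p : ℤ_[p]) * b := fun i => dvd_of_toZMod _ (h i)
  choose Y hY using h1
  exact ⟨Y, by ext i; simp [hY]⟩

theorem rp_coe {Λ : Type} [Group Λ] (ρ : Λ →* SLn n ℤ_[p]) (l : Λ) :
    ((rp ρ l : SLn n (ZMod p)) : Mn n (ZMod p)) =
      (ρ l : Mn n ℤ_[p]).map (PadicInt.toZMod (p := p)) := rfl

theorem pow_fin {Λ : Type} [Group Λ] (ρ : Λ →* SLn n ℤ_[p]) (l : Λ) (hl : IsOfFinOrder l) :
    ∃ m : ℕ, 0 < m ∧ (ρ l : Mn n ℤ_[p]) ^ m = 1 := by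
  obtain ⟨m, hm, h⟩ := isOfFinOrder_iff_pow_eq_one.1 hl
  refine ⟨m, hm, ?_⟩
  have : (ρ l) ^ m = 1 := by rw [← map_pow, h, map_one]
  have h2 := congrArg (fun a : SLn n ℤ_[p] => (a : Mn n ℤ_[p])) this
  simpa using h2

theorem tf1 (hTF : S_TF) (hp : 2 < p) {Λ : Type} [Group Λ] (ρ : Λ →* SLn n ℤ_[p]) (l : Λ)
    (hl : IsOfFinOrder l) (h : rp ρ l = 1) : ρ l = 1 := by
  have h1 : ((ρ l : Mn n ℤ_[p]) - 1).map (PadicInt.toZMod (p := p)) = 0 := by
    have h2 := rp_coe ρ l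
    rw [h] at h2
    rw [Matrix.map_sub _ (by intro a b; simp), ← h2]
    simp
  obtain ⟨W, hW⟩ := lift0 _ h1
  have h3 := hTF n p hp (ρ l : Mn n ℤ_[p]) W (by rw [← hW]; abel) (pow_fin ρ l hl)
  exact Subtype.ext (by simpa using h3)

theorem comm1 (hTF : S_TF) (hp : 2 < p) {Λ : Type} [Group Λ] (ρ : Λ →* SLn n ℤ_[p]) (a b : Λ)
    (P : Subgroup Λ) (hP : ∀ γ ∈ P, IsOfFinOrder γ) (ha : a ∈ P) (hb : b ∈ P)
    (h : rp ρ a * rp ρ b = rp ρ b * rp ρ a) : ρ a * ρ b = ρ b * ρ a := by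
  have h1 : rp ρ (a * b * a⁻¹ * b⁻¹) = 1 := by
    rw [map_mul, map_mul, map_mul, h, map_inv, map_inv]; group
  have h2 := tf1 hTF hp ρ (a * b * a⁻¹ * b⁻¹)
    (hP _ (P.mul_mem (P.mul_mem (P.mul_mem ha hb) (P.inv_mem ha)) (P.inv_mem hb))) h1
  rw [map_mul, map_mul, map_mul, map_inv, map_inv] at h2
  have h3 : ρ a * ρ b * (ρ a)⁻¹ * (ρ b)⁻¹ * (ρ b * ρ a) = ρ b * ρ a := by rw [h2, one_mul]
  rw [← h3]; group

/-- matrix identities with `E_{k2,k1}`, `E_{k1,k0}` -/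
theorem mat1 {F : Type} [Field F] (k0 k1 k2 : Fin n) (h01 : k0 ≠ k1) (h02 : k0 ≠ k2)
    (a b : F) :
    (1 + Matrix.single k2 k1 a : Mn n F) * (1 + Matrix.single k1 k0 b) =
      (1 + Matrix.single k2 k0 (a * b)) * ((1 + Matrix.single k1 k0 b) * (1 + Matrix.single k2 k1 a)) := by
  have e1 : (Matrix.single k2 k1 a : Mn n F) * Matrix.single k1 k0 b = Matrix.single k2 k0 (a * b) := by
    rw [Matrix.single_mul_single_same]
  have e2 : (Matrix.single k1 k0 b : Mn n F) * Matrix.single k2 k1 a = 0 :=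
    Matrix.single_mul_single_of_ne _ _ _ _ h02 _
  have e3 : (Matrix.single k2 k0 (a * b) : Mn n F) * Matrix.single k1 k0 b = 0 :=
    Matrix.single_mul_single_of_ne _ _ _ _ h01 _
  have e4 : (Matrix.single k2 k0 (a * b) : Mn n F) * Matrix.single k2 k1 a = 0 :=
    Matrix.single_mul_single_of_ne _ _ _ _ h02 _
  simp only [mul_add, add_mul, one_mul, mul_one, e1, e2, e3, e4, add_zero]
  abel

theorem mat2 {F : Type} [Field F] (i j k l : Fin n) (h1 : j ≠ k) (h2 : l ≠ i)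
    (a b : F) :
    (1 + Matrix.single i j a : Mn n F) * (1 + Matrix.single k l b) =
      (1 + Matrix.single k l b) * (1 + Matrix.single i j a) := by
  have e1 : (Matrix.single i j a : Mn n F) * Matrix.single k l b = 0 :=
    Matrix.single_mul_single_of_ne _ _ _ _ h1 _
  have e2 : (Matrix.single k l b : Mn n F) * Matrix.single i j a = 0 :=
    Matrix.single_mul_single_of_ne _ _ _ _ h2 _
  simp only [mul_add, add_mul, one_mul, mul_one, e1, e2, add_zero]
  abel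

theorem cj {F : Type} [Field F] (G Gi A B : Mn n F) (h : Gi * G = 1) :
    (G * A * Gi) * (G * B * Gi) = G * (A * B) * Gi := by
  rw [show G * A * Gi * (G * B * Gi) = G * A * (Gi * G) * B * Gi by simp only [mul_assoc], h, mul_one]
  simp only [mul_assoc]

theorem mat3 {F : Type} [Field F] (G Gi S T U : Mn n F) (a b : F) (h : Gi * G = 1)
    (hST : S * T = U * (T * S)) :
    (a • (G * S * Gi)) * (b • (G * T * Gi)) =
      (G * U * Gi) * ((b • (G * T * Gi)) * (a • (G * S * Gi))) := by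
  simp only [smul_mul_assoc, mul_smul_comm]
  rw [cj G Gi _ _ h, cj G Gi _ _ h, cj G Gi _ _ h, hST, smul_comm]

theorem mat4 {F : Type} [Field F] (G Gi S U : Mn n F) (a : F) (h : Gi * G = 1)
    (hST : U * S = S * U) :
    (G * U * Gi) * (a • (G * S * Gi)) = (a • (G * S * Gi)) * (G * U * Gi) := by
  simp only [smul_mul_assoc, mul_smul_comm]
  rw [cj G Gi _ _ h, cj G Gi _ _ h, hST]

theorem single_mulVec' {F : Type} [Field F] (i j : Fin n) (a : F) (u : Fin n → F) (h : u j = 0) :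
    (Matrix.single i j a : Mn n F) *ᵥ u = 0 := by
  ext k
  simp only [Matrix.mulVec, dotProduct, Matrix.single_apply, Pi.zero_apply]
  refine Finset.sum_eq_zero fun l _ => ?_
  by_cases hl : j = l
  · subst hl; rw [h, mul_zero]
  · simp [hl]

theorem idx (hn : 3 ≤ n) [NeZero n] : (0 : Fin n) ≠ 0 + 1 ∧ (0 : Fin n) ≠ 0 + 1 + 1 ∧
    (0 + 1 : Fin n) ≠ 0 + 1 + 1 := by
  obtain ⟨m, rfl⟩ : ∃ m, n = m + 3 := ⟨n - 3, by omega⟩
  have h1 : ((1 : Fin (m + 3)) : ℕ) = 1 := by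
    rw [Fin.val_one']; exact Nat.mod_eq_of_lt (by omega)
  have h2 : ((1 + 1 : Fin (m + 3)) : ℕ) = 2 := by
    rw [Fin.val_add, h1]; exact Nat.mod_eq_of_lt (by omega)
  simp only [zero_add]
  refine ⟨fun h => ?_, fun h => ?_, fun h => ?_⟩
  · have := congrArg Fin.val h; rw [h1] at this; simp at this
  · have := congrArg Fin.val h; rw [h2] at this; simp at this
  · have := congrArg Fin.val h; rw [h2, h1] at this; simp at this

/-- the conclusion for `p = 3` -/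
theorem case3 (hT3 : S_T3) (F3 : Fact (Nat.Prime 3)) (G Gi : Mn n (ZMod 3)) (hG : G * Gi = 1)
    (hG' : Gi * G = 1) (A B Z : SLn n ℤ_[3]) (hZ : Z ^ 3 = 1) (hZA : Z * A = A * Z)
    (hZB : Z * B = B * Z) (hAB : A * B = Z * (B * A)) (k0 k2 : Fin n) (a : ZMod 3)
    (h : (Z : Mn n ℤ_[3]).map (PadicInt.toZMod (p := 3)) = G * (1 + Matrix.single k2 k0 a) * Gi) :
    Z = 1 := by
  have hs := ZMod.ringHom_surjective (PadicInt.toZMod (p := 3))
  choose L hL using hs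
  have hZ1 : ((Z : Mn n ℤ_[3]) - 1).map (PadicInt.toZMod (p := 3)) = G * Matrix.single k2 k0 a * Gi := by
    rw [Matrix.map_sub _ (by intro a b; simp), h, mul_add, add_mul, mul_one, hG]
    simp
  have h0 := hT3 n (Matrix.SpecialLinearGroup.toGL A) (Matrix.SpecialLinearGroup.toGL B)
    (Matrix.SpecialLinearGroup.toGL Z) (by rw [← map_pow, hZ, map_one])
    (by rw [← map_mul, hZA, map_mul]) (by rw [← map_mul, hZB, map_mul])
    (by rw [← map_mul, hAB, map_mul, map_mul]) (fun i => L ((G *ᵥ (Pi.single k0 1)) i)) ?_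
  · have h1 := congrArg (fun u : (Mn n ℤ_[3])ˣ => (u : Mn n ℤ_[3])) h0
    exact Subtype.ext (by simpa using h1)
  · intro v
    refine ⟨L ((Gi *ᵥ (fun i => PadicInt.toZMod (v i))) k0), ?_⟩
    have key := liftv (p := 3) ((((Matrix.SpecialLinearGroup.toGL Z : (Mn n ℤ_[3])ˣ) :
      Mn n ℤ_[3]) - 1) *ᵥ (v - L ((Gi *ᵥ (fun i => PadicInt.toZMod (v i))) k0) • fun i => L ((G *ᵥ (Pi.single k0 1)) i))) ?_
    · obtain ⟨w, hw⟩ := key
      exact ⟨w, hw⟩
    · intro i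
      rw [RingHom.map_mulVec]
      have h2 : ((((Matrix.SpecialLinearGroup.toGL Z : (Mn n ℤ_[3])ˣ) : Mn n ℤ_[3]) - 1).map
          (PadicInt.toZMod (p := 3))) = G * Matrix.single k2 k0 a * Gi := hZ1
      rw [h2, ← Matrix.mulVec_mulVec, ← Matrix.mulVec_mulVec]
      have h3 : (Matrix.single k2 k0 a : Mn n (ZMod 3)) *ᵥ (Gi *ᵥ (⇑(PadicInt.toZMod (p := 3)) ∘
          (v - L ((Gi *ᵥ (fun i => PadicInt.toZMod (v i))) k0) •
            fun i => L ((G *ᵥ (Pi.single k0 1)) i)))) = 0 := by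
        apply single_mulVec'
        have h4 : (⇑(PadicInt.toZMod (p := 3)) ∘
          (v - L ((Gi *ᵥ (fun i => PadicInt.toZMod (v i))) k0) •
            fun i => L ((G *ᵥ (Pi.single k0 1)) i))) = (fun i => PadicInt.toZMod (v i)) -
              ((Gi *ᵥ (fun i => PadicInt.toZMod (v i))) k0) • (G *ᵥ (Pi.single k0 1)) := by
          ext j
          simp [hL]
        rw [h4, Matrix.mulVec_sub, Matrix.mulVec_smul, Matrix.mulVec_mulVec, hG', Matrix.one_mulVec]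
        simp
      rw [h3, Matrix.mulVec_zero]
      rfl

end GO

open GO in
theorem t_GO (hTF : S_TF) (hTF5 : S_TF5) (hT3 : S_T3) : S_GO := by
  intro n p _ F0 hn hp ι Λ _ x κ ρ hN hfin
  obtain ⟨π, g, c, ζ, hk, hx⟩ := hN
  obtain ⟨t, htk, htc⟩ := hk 0
  obtain ⟨s, hsk, hsc⟩ := hk (0 + 1)
  obtain ⟨h01, h02, h12⟩ := idx (n := n) hn
  have hft := hx t
  have hfs := hx s
  rw [htk, Equiv.symm_apply_apply] at hft
  rw [hsk, Equiv.symm_apply_apply] at hfs
  unfold cy at hft hfs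
  generalize hG : (g : Mn n (ZMod p)) = G at hft hfs
  generalize hGi : ((g⁻¹ : (Mn n (ZMod p))ˣ) : Mn n (ZMod p)) = Gi at hft hfs
  have hGG : G * Gi = 1 := by rw [← hG, ← hGi, Units.mul_inv]
  have hGG' : Gi * G = 1 := by rw [← hG, ← hGi, Units.inv_mul]
  have hxt : x t ∈ Subgroup.closure (x '' {t | κ t ≠ π (0 + 1 + 1)}) := by
    refine Subgroup.subset_closure ⟨t, ?_, rfl⟩
    show κ t ≠ _
    rw [htk]
    exact fun h => h02 (π.injective h)
  have hxs : x s ∈ Subgroup.closure (x '' {t | κ t ≠ π (0 + 1 + 1)}) := by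
    refine Subgroup.subset_closure ⟨s, ?_, rfl⟩
    show κ s ≠ _
    rw [hsk]
    exact fun h => h12 (π.injective h)
  have hP := hfin (π (0 + 1 + 1))
  generalize Subgroup.closure (x '' {t | κ t ≠ π (0 + 1 + 1)}) = P at hxt hxs hP
  obtain ⟨z, hz⟩ : ∃ z, z = x s * x t * (x s)⁻¹ * (x t)⁻¹ := ⟨_, rfl⟩
  have hzP : z ∈ P := by
    rw [hz]
    exact P.mul_mem (P.mul_mem (P.mul_mem hxs hxt) (P.inv_mem hxs)) (P.inv_mem hxt)
  have hzz : x s * x t = z * (x t * x s) := by rw [hz]; group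
  have hFz : ((rp ρ z : SLn n (ZMod p)) : Mn n (ZMod p)) =
      G * (1 + Matrix.single (0 + 1 + 1) 0 (c s * c t)) * Gi := by
    have h1 : ((rp ρ (x s) : SLn n (ZMod p)) : Mn n (ZMod p)) *
          ((rp ρ (x t) : SLn n (ZMod p)) : Mn n (ZMod p)) =
        ((rp ρ z : SLn n (ZMod p)) : Mn n (ZMod p)) * (((rp ρ (x t) : SLn n (ZMod p)) :
          Mn n (ZMod p)) * ((rp ρ (x s) : SLn n (ZMod p)) : Mn n (ZMod p))) := by
      have := congrArg (fun u => ((rp ρ u : SLn n (ZMod p)) : Mn n (ZMod p))) hzz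
      simpa using this
    have h2 : ((rp ρ (x s) : SLn n (ZMod p)) : Mn n (ZMod p)) *
          ((rp ρ (x t) : SLn n (ZMod p)) : Mn n (ZMod p)) =
        (G * (1 + Matrix.single (0 + 1 + 1) 0 (c s * c t)) * Gi) *
          (((rp ρ (x t) : SLn n (ZMod p)) : Mn n (ZMod p)) *
            ((rp ρ (x s) : SLn n (ZMod p)) : Mn n (ZMod p))) := by
      rw [hft, hfs]
      exact mat3 _ _ _ _ _ _ _ hGG' (mat1 _ _ _ h01 h02 _ _)
    rw [h2] at h1
    have h3 : ((rp ρ (x t) : SLn n (ZMod p)) : Mn n (ZMod p)) *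
        ((rp ρ (x s) : SLn n (ZMod p)) : Mn n (ZMod p)) *
        (((rp ρ (x t) * rp ρ (x s))⁻¹ : SLn n (ZMod p)) : Mn n (ZMod p)) = 1 := by
      rw [← Matrix.SpecialLinearGroup.coe_mul, ← Matrix.SpecialLinearGroup.coe_mul, mul_inv_cancel]
      rfl
    have h4 := congrArg (fun M => M * (((rp ρ (x t) * rp ρ (x s))⁻¹ : SLn n (ZMod p)) :
      Mn n (ZMod p))) h1
    simp only [mul_assoc] at h4 h3
    rw [h3] at h4
    simp only [mul_one] at h4
    rw [← h4]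
    simp only [mul_assoc]
  have hcomm : ∀ y, y ∈ P → ((rp ρ z : SLn n (ZMod p)) : Mn n (ZMod p)) *
      ((rp ρ y : SLn n (ZMod p)) : Mn n (ZMod p)) = ((rp ρ y : SLn n (ZMod p)) : Mn n (ZMod p)) *
      ((rp ρ z : SLn n (ZMod p)) : Mn n (ZMod p)) → ρ z * ρ y = ρ y * ρ z := by
    intro y hy h
    refine comm1 hTF hp ρ z y P hP hzP hy (Subtype.ext ?_)
    simpa using h
  have hzt : ρ z * ρ (x t) = ρ (x t) * ρ z := by
    refine hcomm _ hxt ?_
    rw [hFz, hft]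
    exact mat4 _ _ _ _ _ hGG' (mat2 _ _ _ _ h01 h02 _ _)
  have hzs : ρ z * ρ (x s) = ρ (x s) * ρ z := by
    refine hcomm _ hxs ?_
    rw [hFz, hfs]
    exact mat4 _ _ _ _ _ hGG' (mat2 _ _ _ _ h02 h12 _ _)
  have hsq : ∃ Y : Mn n ℤ_[p], ((ρ z : Mn n ℤ_[p]) - 1) * ((ρ z : Mn n ℤ_[p]) - 1) = (p : ℤ_[p]) • Y := by
    apply lift0
    have h1 : ((ρ z : Mn n ℤ_[p]) - 1).map (PadicInt.toZMod (p := p)) =
        G * Matrix.single (0 + 1 + 1) 0 (c s * c t) * Gi := by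
      rw [Matrix.map_sub _ (by intro a b; simp), ← rp_coe, hFz, mul_add, add_mul, mul_one, hGG]
      simp
    rw [Matrix.map_mul, h1, cj _ _ _ _ hGG', Matrix.single_mul_single_of_ne _ _ _ _ h02]
    simp
  obtain ⟨Y, hY⟩ := hsq
  have h5 := hTF5 n p (ρ z : Mn n ℤ_[p]) Y hY (pow_fin ρ z (hP z hzP))
  have hne : ρ z ≠ 1 := by
    intro h
    have h1 : ((rp ρ z : SLn n (ZMod p)) : Mn n (ZMod p)) = 1 := by
      rw [rp_coe, h]; simp
    rw [hFz] at h1
    have h2 : (1 + Matrix.single (0 + 1 + 1) 0 (c s * c t) : Mn n (ZMod p)) = 1 := by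
      have h3 := congrArg (fun M => Gi * M * G) h1
      simp only [mul_one, hGG'] at h3
      rw [show Gi * (G * (1 + Matrix.single (0 + 1 + 1) 0 (c s * c t)) * Gi) * G =
        (Gi * G) * (1 + Matrix.single (0 + 1 + 1) 0 (c s * c t)) * (Gi * G) by
          simp only [mul_assoc], hGG', one_mul, mul_one] at h3
      exact h3
    have h4 := congrFun (congrFun h2 (0 + 1 + 1)) 0
    simp only [Matrix.add_apply, Matrix.single_apply_same] at h4
    exact mul_ne_zero hsc htc (by simpa using h4)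
  rcases Nat.lt_or_ge p 5 with h | h
  · have hp3 : p = 3 := by
      have := F0.out
      interval_cases p
      · rfl
      · exact absurd this (by norm_num)
    subst hp3
    have hZ3 : (ρ z) ^ 3 = 1 := Subtype.ext (by simpa using h5.1 hp)
    refine hne (case3 hT3 F0 G Gi hGG hGG' (ρ (x s)) (ρ (x t)) (ρ z) hZ3 hzs hzt ?_ 0 (0 + 1 + 1)
      (c s * c t) hFz)
    rw [← map_mul, hzz, map_mul, map_mul]
  · exact hne (Subtype.ext (by simpa using h5.2 h))

end Pool.Agent.T2h96.ST
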