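import Pool.Agent.T2h96.ST.Stm2

/-!
# MA: an involution of determinant `1` in dimension `3`
-/

set_option autoImplicit false

namespace Pool.Agent.T2h96.ST

open Matrix Pool.Agent.T2h61.PR

namespace MA

/-- one of finitely many elements of a valuation ring divides all of them -/
lemma exists_dvd {R ι : Type} [CommRing R] [IsDomain R] [ValuationRing R] (f : ι → R)
    (s : Finset ι) (hs : s.Nonempty) : ∃ i ∈ s, ∀ j ∈ s, f i ∣ f j := by
  classical
  induction hs using Finset.Nonempty.cons_induction with
  | singleton a => exact ⟨a, by simp, fun j hj => by rw [Finset.mem_singleton.1 hj]⟩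
  | cons a s ha hs ih =>
    obtain ⟨i, hi, h⟩ := ih
    rcases ValuationRing.dvd_total (f a) (f i) with h1 | h1
    · refine ⟨a, by simp, fun j hj => ?_⟩
      rcases Finset.mem_cons.1 hj with rfl | hj
      · exact dvd_rfl
      · exact h1.trans (h j hj)
    · refine ⟨i, by simp [hi], fun j hj => ?_⟩
      rcases Finset.mem_cons.1 hj with rfl | hj
      · exact h1
      · exact h j hj

end MA

theorem t_MA : S_MA := by
  intro q _ r h1 h2
  have hinv : r⁻¹ = r := inv_eq_of_mul_eq_one_left h1
  have hadj : Matrix.adjugate (r : Mn 3 ℤ_[q]) = (r : Mn 3 ℤ_[q]) := by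
    rw [← Matrix.SpecialLinearGroup.coe_inv, hinv]
  have hsq : (r : Mn 3 ℤ_[q]) * (r : Mn 3 ℤ_[q]) = 1 := by
    rw [← Matrix.SpecialLinearGroup.coe_mul, h1, Matrix.SpecialLinearGroup.coe_one]
  have hne : (r : Mn 3 ℤ_[q]) ≠ 1 := by
    intro h
    apply h2
    apply Subtype.ext
    rw [h, Matrix.SpecialLinearGroup.coe_one]
  generalize (r : Mn 3 ℤ_[q]) = A at hadj hsq hne
  -- the equations
  rw [Matrix.adjugate_fin_three] at hadj
  have a00 := congrFun (congrFun hadj 0) 0
  have a01 := congrFun (congrFun hadj 0) 1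
  have a02 := congrFun (congrFun hadj 0) 2
  have a10 := congrFun (congrFun hadj 1) 0
  have a11 := congrFun (congrFun hadj 1) 1
  have a12 := congrFun (congrFun hadj 1) 2
  have a20 := congrFun (congrFun hadj 2) 0
  have a21 := congrFun (congrFun hadj 2) 1
  have a22 := congrFun (congrFun hadj 2) 2
  have s00 := congrFun (congrFun hsq 0) 0
  have s01 := congrFun (congrFun hsq 0) 1
  have s02 := congrFun (congrFun hsq 0) 2
  have s10 := congrFun (congrFun hsq 1) 0
  have s11 := congrFun (congrFun hsq 1) 1
  have s12 := congrFun (congrFun hsq 1) 2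
  have s20 := congrFun (congrFun hsq 2) 0
  have s21 := congrFun (congrFun hsq 2) 1
  have s22 := congrFun (congrFun hsq 2) 2
  simp only [Matrix.of_apply, Matrix.cons_val', Matrix.cons_val_zero, Matrix.cons_val_one,
    Matrix.cons_val, Matrix.mul_apply, Fin.sum_univ_three, Matrix.one_apply,
    Fin.isValue, if_true] at a00 a01 a02 a10 a11 a12 a20 a21 a22 s00 s01 s02 s10 s11 s12 s20 s21 s22
  have f01 : ((0 : Fin 3) = 1) = False := by decide
  have f02 : ((0 : Fin 3) = 2) = False := by decide
  have f10 : ((1 : Fin 3) = 0) = False := by decide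
  have f12 : ((1 : Fin 3) = 2) = False := by decide
  have f20 : ((2 : Fin 3) = 0) = False := by decide
  have f21 : ((2 : Fin 3) = 1) = False := by decide
  rw [if_neg (by decide)] at s01 s02 s10 s12 s20 s21
  clear f01 f02 f10 f12 f20 f21
  -- the trace
  have t00 : (1 + (A 0 0 + A 1 1 + A 2 2)) * (A 0 0 - 1) = 0 := by
    linear_combination s00 + a11 + a22
  have t11 : (1 + (A 0 0 + A 1 1 + A 2 2)) * (A 1 1 - 1) = 0 := by
    linear_combination s11 + a00 + a22
  have t22 : (1 + (A 0 0 + A 1 1 + A 2 2)) * (A 2 2 - 1) = 0 := by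
    linear_combination s22 + a00 + a11
  have t01 : (1 + (A 0 0 + A 1 1 + A 2 2)) * A 0 1 = 0 := by
    linear_combination s01 - a01
  have t02 : (1 + (A 0 0 + A 1 1 + A 2 2)) * A 0 2 = 0 := by
    linear_combination s02 - a02
  have t10 : (1 + (A 0 0 + A 1 1 + A 2 2)) * A 1 0 = 0 := by
    linear_combination s10 - a10
  have t12 : (1 + (A 0 0 + A 1 1 + A 2 2)) * A 1 2 = 0 := by
    linear_combination s12 - a12
  have t20 : (1 + (A 0 0 + A 1 1 + A 2 2)) * A 2 0 = 0 := by
    linear_combination s20 - a20
  have t21 : (1 + (A 0 0 + A 1 1 + A 2 2)) * A 2 1 = 0 := by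
    linear_combination s21 - a21
  have ht : 1 + (A 0 0 + A 1 1 + A 2 2) = 0 := by
    by_contra hc
    apply hne
    have g : ∀ x : ℤ_[q], (1 + (A 0 0 + A 1 1 + A 2 2)) * x = 0 → x = 0 := fun x hx =>
      (mul_eq_zero.1 hx).resolve_left hc
    have g00 := sub_eq_zero.1 (g _ t00)
    have g11 := sub_eq_zero.1 (g _ t11)
    have g22 := sub_eq_zero.1 (g _ t22)
    have g01 := g _ t01
    have g02 := g _ t02
    have g10 := g _ t10
    have g12 := g _ t12
    have g20 := g _ t20
    have g21 := g _ t21
    ext i j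
    fin_cases i <;> fin_cases j <;> simp [g00, g11, g22, g01, g02, g10, g12, g20, g21]
  clear t00 t11 t22 t01 t02 t10 t12 t20 t21 s00 s01 s02 s10 s11 s12 s20 s21 s22
  -- the minors
  set M : Mn 3 ℤ_[q] := 1 + A with hM
  have hA : A = -1 + M := by
    rw [hM]
    abel
  have m00 : M 0 0 = 1 + A 0 0 := by simp [hM]
  have m11 : M 1 1 = 1 + A 1 1 := by simp [hM]
  have m22 : M 2 2 = 1 + A 2 2 := by simp [hM]
  have m01 : M 0 1 = A 0 1 := by simp [hM]
  have m02 : M 0 2 = A 0 2 := by simp [hM]
  have m10 : M 1 0 = A 1 0 := by simp [hM]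
  have m12 : M 1 2 = A 1 2 := by simp [hM]
  have m20 : M 2 0 = A 2 0 := by simp [hM]
  have m21 : M 2 1 = A 2 1 := by simp [hM]
  have d00 : M 1 1 * M 2 2 - M 1 2 * M 2 1 = 0 := by
    rw [m11, m22, m12, m21]
    linear_combination ht + a00
  have d11 : M 0 0 * M 2 2 - M 0 2 * M 2 0 = 0 := by
    rw [m00, m22, m02, m20]
    linear_combination ht + a11
  have d22 : M 0 0 * M 1 1 - M 0 1 * M 1 0 = 0 := by
    rw [m00, m11, m01, m10]
    linear_combination ht + a22
  have d01 : M 0 1 * M 2 2 - M 0 2 * M 2 1 = 0 := by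
    rw [m01, m22, m02, m21]
    linear_combination -a01
  have d02 : M 0 1 * M 1 2 - M 0 2 * M 1 1 = 0 := by
    rw [m01, m12, m02, m11]
    linear_combination a02
  have d10 : M 1 0 * M 2 2 - M 1 2 * M 2 0 = 0 := by
    rw [m10, m22, m12, m20]
    linear_combination -a10
  have d12 : M 0 0 * M 1 2 - M 0 2 * M 1 0 = 0 := by
    rw [m00, m12, m02, m10]
    linear_combination -a12
  have d20 : M 1 0 * M 2 1 - M 1 1 * M 2 0 = 0 := by
    rw [m10, m21, m11, m20]
    linear_combination a20
  have d21 : M 0 0 * M 2 1 - M 0 1 * M 2 0 = 0 := by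
    rw [m00, m21, m01, m20]
    linear_combination -a21
  have htr : M 0 0 + M 1 1 + M 2 2 = 2 := by
    rw [m00, m11, m22]
    linear_combination ht
  clear_value M
  clear a00 a01 a02 a10 a11 a12 a20 a21 a22 m00 m11 m22 m01 m02 m10 m12 m20 m21 ht hadj hsq
  have hmin : ∀ i i' j j', M i j * M i' j' = M i j' * M i' j := by
    intro i i' j j'
    fin_cases i <;> fin_cases i' <;> fin_cases j <;> fin_cases j' <;>
      simp only [Fin.zero_eta, Fin.mk_one, Fin.reduceFinMk, Fin.isValue] <;>
      first
      | ring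
      | linear_combination d00
      | linear_combination -d00
      | linear_combination d11
      | linear_combination -d11
      | linear_combination d22
      | linear_combination -d22
      | linear_combination d01
      | linear_combination -d01
      | linear_combination d02
      | linear_combination -d02
      | linear_combination d10
      | linear_combination -d10
      | linear_combination d12
      | linear_combination -d12
      | linear_combination d20
      | linear_combination -d20
      | linear_combination d21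
      | linear_combination -d21
  obtain ⟨⟨a, b⟩, -, hab⟩ := MA.exists_dvd (fun p : Fin 3 × Fin 3 => M p.1 p.2) Finset.univ
    ⟨(0, 0), Finset.mem_univ _⟩
  have hdvd : ∀ i j, M a b ∣ M i j := fun i j => hab (i, j) (Finset.mem_univ _)
  have hab0 : M a b ≠ 0 := by
    intro h0
    have hz : ∀ i j, M i j = 0 := fun i j => by
      have := hdvd i j
      rw [h0, zero_dvd_iff] at this
      exact this
    rw [hz, hz, hz] at htr
    have h2 : (2 : ℤ_[q]) ≠ 0 := two_ne_zero
    apply h2
    rw [← htr]
    ring
  choose c hc using fun i => hdvd i b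
  have hent : ∀ i j, M i j = c i * M a j := by
    intro i j
    apply mul_left_cancel₀ hab0
    have h1 := hmin a i b j
    rw [h1, hc i]
    ring
  refine ⟨c, fun j => M a j, ?_, ?_⟩
  · rw [hA]
    congr 1
    ext i j
    rw [Matrix.vecMulVec_apply]
    exact hent i j
  · rw [dotProduct, Fin.sum_univ_three, ← htr, hent 0 0, hent 1 1, hent 2 2]
    ring

end Pool.Agent.T2h96.ST
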