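import Pool.Agent.T2h96.ST.Stm2
import Pool.Agent.T2h96.SM.T_MAX

/-!
# (MAXA) the theorem without the condition on elements of infinite order
-/

set_option autoImplicit false

namespace Pool.Agent.T2h96.ST

open Matrix Pool.Agent.T2h61.PR Pool.Agent.T2h96.SN Pool.Agent.T2h96.SM

theorem t_MAXA (hTOR : S_TORA) (hX1 : S_X1) (hC : S_CHZ) (hPf : S_PERF) (hJL : S_JL) (hX3 : S_X3)
    (hX4 : S_X4) (hX5 : S_X5) (hXB : S_XB) (hINX : S_INX) :
    ∀ n : ℕ, 3 ≤ n → ∀ (Λ : Type) [Group Λ], Group.FG Λ → RF Λ →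
    SameFQ Λ (SLn n ℤ) → ∀ N : Fin n → Subgroup Λ, (⨆ i, N i) = ⊤ →
    (∀ (Q : Type) [Group Q] [Finite Q] (f : Λ →* Q) (i : Fin n),
      Group.IsNilpotent ((⨆ j ∈ ({i}ᶜ : Set (Fin n)), N j).map f)) →
    Nonempty (Λ ≃* SLn n ℤ) := by
  classical
  intro n hn Λ _ hFG hRF hFQ N hN hnil
  haveI : NeZero n := ⟨by omega⟩
  let I : Type := Fin n × Λ
  let S : Set I := {t | t.2 ∈ N t.1}
  let x0 : S → Λ := fun t => t.1.2
  have hx0 : Subgroup.closure (Set.range x0) = ⊤ := by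
    rw [eq_top_iff, ← hN, iSup_le_iff]
    intro i g hg
    exact Subgroup.subset_closure ⟨⟨(i, g), hg⟩, rfl⟩
  obtain ⟨T, hT1⟩ := exists_finite_gen hFG x0 hx0
  have hcl : ∀ i, (⨆ j ∈ ({i}ᶜ : Set (Fin n)), N j) =
      Subgroup.closure (x0 '' {t | t.1.1 ≠ i}) := by
    intro i
    apply le_antisymm
    · rw [iSup_le_iff]
      intro j
      rw [iSup_le_iff]
      intro hj g hg
      exact Subgroup.subset_closure ⟨⟨(j, g), hg⟩, hj, rfl⟩
    · rw [Subgroup.closure_le]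
      rintro _ ⟨⟨⟨j, g⟩, hg⟩, hj, rfl⟩
      have h1 : N j ≤ ⨆ j ∈ ({i}ᶜ : Set (Fin n)), N j := le_iSup₂_of_le j hj le_rfl
      exact h1 hg
  let x : T → Λ := fun t => x0 t.1
  let κ : T → Fin n := fun t => t.1.1.1
  have hx : Subgroup.closure (Set.range x) = ⊤ := by
    rw [eq_top_iff, ← hT1]
    apply Subgroup.closure_mono
    rintro _ ⟨t, ht, rfl⟩
    exact ⟨⟨t, ht⟩, rfl⟩
  have hNc : ∀ (Q : Type) [Group Q] [Finite Q] (f : Λ →* Q), NilCol (fun t => f (x t)) κ := by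
    intro Q _ _ f i
    have h1 := hnil Q f i
    have h2 : Subgroup.closure ((fun t => f (x t)) '' {t | κ t ≠ i}) ≤
        (⨆ j ∈ ({i}ᶜ : Set (Fin n)), N j).map f := by
      rw [hcl i, MonoidHom.map_closure]
      apply Subgroup.closure_mono
      rintro _ ⟨t, ht, rfl⟩
      exact ⟨x0 t.1, ⟨t.1, ht, rfl⟩, rfl⟩
    haveI := h1
    apply Subgroup.isNilpotent_of_ker_le_center (Subgroup.inclusion h2)
    rw [(MonoidHom.ker_eq_bot_iff _).2 (Subgroup.inclusion_injective h2)]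
    exact bot_le
  exact MAX.fin hX1 hC hPf hJL hX3 hX4 hX5 hXB hINX n (by omega) T Λ x κ hFG hRF hFQ hx hNc
    (hTOR n hn T Λ x κ hFG hRF hFQ hx hNc)

end Pool.Agent.T2h96.ST
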