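import Pool.Agent.T2h96.ST.Stm2

/-!
# MB: two involutions whose product has order `4`
-/

set_option autoImplicit false

namespace Pool.Agent.T2h96.ST

open Matrix

namespace MB

variable {R : Type} [CommRing R]

lemma id1 {A : Type} [Ring A] (M N : A) :
    ((-1 + M) * (-1 + N)) * ((-1 + M) * (-1 + N)) - ((-1 + N) * (-1 + M)) * ((-1 + N) * (-1 + M)) =
      M * N * M * N - N * M * N * M + M * N + M * N - N * M - N * M - M * M * N - M * (N * N) +
        N * N * M + N * (M * M) := by
  noncomm_ring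

end MB

theorem t_MB : S_MB := by
  intro R _ _ n v w φ ψ h1 h2 h3 h4
  set M : Matrix (Fin n) (Fin n) R := Matrix.vecMulVec v φ with hM
  set N : Matrix (Fin n) (Fin n) R := Matrix.vecMulVec w ψ with hN
  have e1 : M * M = (2 : R) • M := by
    rw [hM, Matrix.vecMulVec_mul_vecMulVec, h1]
    ext i j
    simp only [Matrix.vecMulVec_apply, Matrix.smul_apply, Pi.smul_apply, smul_eq_mul]
    ring
  have e2 : N * N = (2 : R) • N := by
    rw [hN, Matrix.vecMulVec_mul_vecMulVec, h2]
    ext i j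
    simp only [Matrix.vecMulVec_apply, Matrix.smul_apply, Pi.smul_apply, smul_eq_mul]
    ring
  have e3 : M * N * M = ((φ ⬝ᵥ w) * (ψ ⬝ᵥ v)) • M := by
    rw [hM, hN, Matrix.vecMulVec_mul_vecMulVec, Matrix.vecMulVec_mul_vecMulVec]
    ext i j
    simp only [Matrix.vecMulVec_apply, Matrix.smul_apply, Pi.smul_apply, smul_eq_mul,
      smul_dotProduct]
    ring
  have e4 : N * M * N = ((φ ⬝ᵥ w) * (ψ ⬝ᵥ v)) • N := by
    rw [hM, hN, Matrix.vecMulVec_mul_vecMulVec, Matrix.vecMulVec_mul_vecMulVec]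
    ext i j
    simp only [Matrix.vecMulVec_apply, Matrix.smul_apply, Pi.smul_apply, smul_eq_mul,
      smul_dotProduct]
    ring
  have h5 := MB.id1 M N
  rw [h3, sub_self, e3, e4, e1, e2] at h5
  have h6 : ∀ i j, ((φ ⬝ᵥ w) * (ψ ⬝ᵥ v) - 2) * ((M * N) i j - (N * M) i j) = 0 := by
    intro i j
    have h7 := congrFun (congrFun h5 i) j
    simp only [Matrix.smul_mul, Matrix.mul_smul, Matrix.add_apply, Matrix.sub_apply,
      Matrix.smul_apply, Matrix.zero_apply, smul_eq_mul] at h7
    linear_combination -h7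
  by_contra hne
  apply h4
  have h7 : M * N = N * M := by
    ext i j
    rcases mul_eq_zero.1 (h6 i j) with h | h
    · exact absurd (sub_eq_zero.1 h) hne
    · exact sub_eq_zero.1 h
  have h8 : (-1 + M) * (-1 + N) = 1 - M - N + M * N := by noncomm_ring
  have h9 : (-1 + N) * (-1 + M) = 1 - M - N + N * M := by noncomm_ring
  rw [h8, h9, h7]

end Pool.Agent.T2h96.ST
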