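import Pool.Agent.T2h96.ST.Stm
import Pool.Agent.H463R3.PSLn

/-!
# Task NS2 (helper21), from the simplicity of `PSL (n, F)`
-/

set_option autoImplicit false

namespace Pool.Agent.T2h96.ST

open Matrix Pool.Agent.T2h61.PR Pool.Agent.T2h96.SN Pool.Agent.T2h96.SM

namespace NS2

theorem center_trivial (n : ℕ) (hn : 3 ≤ n) (c : SLn n (ZMod 2))
    (hc : c ∈ Subgroup.center (SLn n (ZMod 2))) : c = 1 := by
  rw [Matrix.SpecialLinearGroup.mem_center_iff] at hc
  obtain ⟨r, hr, hr2⟩ := hc
  have h1 : r = 1 := by
    have h0 : r ≠ 0 := by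
      intro h0
      rw [h0, Fintype.card_fin, zero_pow (by omega)] at hr
      exact zero_ne_one hr
    have hall : ∀ r : ZMod 2, r ≠ 0 → r = 1 := by decide
    exact hall r h0
  apply Subtype.ext
  rw [← hr2, h1]
  simp

end NS2

theorem t_NS2 : S_NS2 := by
  intro n hn
  refine ⟨fun H hH hne => ?_, fun c hc => ?_⟩
  · have : IsSimpleGroup (Matrix.ProjectiveSpecialLinearGroup (Fin n) (ZMod 2)) :=
      Pool.Agent.H463R3.PSLn.isSimpleGroup_PSL (by rw [Fintype.card_fin]; exact hn)
    let q : SLn n (ZMod 2) →* Matrix.ProjectiveSpecialLinearGroup (Fin n) (ZMod 2) :=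
      QuotientGroup.mk' _
    have hq : Function.Surjective q := QuotientGroup.mk'_surjective _
    have hinj : Function.Injective q := by
      rw [injective_iff_map_eq_one]
      intro a ha
      have : a ∈ Subgroup.center (SLn n (ZMod 2)) := (QuotientGroup.eq_one_iff a).1 ha
      exact NS2.center_trivial n hn a this
    have hN : (H.map q).Normal := hH.map q hq
    rcases hN.eq_bot_or_eq_top with h | h
    · exfalso
      apply hne
      rw [eq_bot_iff]
      intro x hx
      rw [Subgroup.mem_bot]
      apply hinj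
      rw [map_one]
      have : q x ∈ H.map q := Subgroup.mem_map_of_mem q hx
      rw [h, Subgroup.mem_bot] at this
      exact this
    · rw [eq_top_iff]
      intro x _
      have : q x ∈ H.map q := by rw [h]; trivial
      obtain ⟨y, hy, hxy⟩ := this
      rwa [← hinj hxy]
  · apply NS2.center_trivial n hn
    rw [Subgroup.mem_center_iff]
    intro g
    exact (hc g).symm

end Pool.Agent.T2h96.ST
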