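import Pool.Agent.T2h96.ST.Stm2

set_option autoImplicit false

namespace Pool.Agent.T2h96.ST

open Matrix Pool.Agent.T2h61.PR Pool.Agent.T2h96.SN Pool.Agent.T2h96.SM

namespace NW4

theorem det4 {R : Type} [CommRing R] (h : Matrix (Fin 4) (Fin 4) R) :
    h.det = h 0 0 * (h 1 1 * (h 2 2 * h 3 3 - h 2 3 * h 3 2)
        - h 1 2 * (h 2 1 * h 3 3 - h 2 3 * h 3 1) + h 1 3 * (h 2 1 * h 3 2 - h 2 2 * h 3 1))
      - h 0 1 * (h 1 0 * (h 2 2 * h 3 3 - h 2 3 * h 3 2)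
        - h 1 2 * (h 2 0 * h 3 3 - h 2 3 * h 3 0) + h 1 3 * (h 2 0 * h 3 2 - h 2 2 * h 3 0))
      + h 0 2 * (h 1 0 * (h 2 1 * h 3 3 - h 2 3 * h 3 1)
        - h 1 1 * (h 2 0 * h 3 3 - h 2 3 * h 3 0) + h 1 3 * (h 2 0 * h 3 1 - h 2 1 * h 3 0))
      - h 0 3 * (h 1 0 * (h 2 1 * h 3 2 - h 2 2 * h 3 1)
        - h 1 1 * (h 2 0 * h 3 2 - h 2 2 * h 3 0) + h 1 2 * (h 2 0 * h 3 1 - h 2 1 * h 3 0)) := by
  rw [Matrix.det_succ_row_zero]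
  simp only [Fin.sum_univ_four, Matrix.det_fin_three, Matrix.submatrix_apply]
  simp only [Fin.succAbove, Fin.succ, Fin.castSucc, Fin.castAdd, Fin.castLE]
  simp [Fin.lt_def]
  ring

end NW4

theorem t_NW4 : S_NW4 := by
  intro R _ h
  rw [NW4.det4]
  simp only [Matrix.trace, Matrix.diag_apply, Matrix.mul_apply, Fin.sum_univ_four]
  ring

end Pool.Agent.T2h96.ST
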