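import Pool.Agent.T2h96.ST.Stm

/-! # PP: `p`-parts -/

set_option autoImplicit false

namespace Pool.Agent.T2h96.ST

open Pool.Agent.T2h61.PR Pool.Agent.T2h96.SN Pool.Agent.T2h96.SM


theorem PP.split {G : Type} [Group G] (x : G) (hx : IsOfFinOrder x) {p : ℕ} (hp : p.Prime) :
    ∃ a b : G, a ∈ Subgroup.zpowers x ∧ b ∈ Subgroup.zpowers x ∧ x = a * b ∧
      (∃ k : ℕ, a ^ p ^ k = 1) ∧ (orderOf b).Coprime p := by
  have hN : orderOf x ≠ 0 := hx.orderOf_pos.ne'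
  obtain ⟨k, m, hm, hkm⟩ := Nat.exists_eq_pow_mul_and_not_dvd hN p hp.ne_one
  have hc : IsCoprime ((p ^ k : ℕ) : ℤ) (m : ℤ) := by
    rw [Nat.isCoprime_iff_coprime]
    exact Nat.Coprime.pow_left _ ((Nat.Prime.coprime_iff_not_dvd hp).2 hm)
  obtain ⟨u, v, huv⟩ := hc
  have hx1 : x ^ ((p ^ k : ℕ) * m : ℤ) = 1 := by
    have : x ^ (orderOf x) = 1 := pow_orderOf_eq_one x
    rw [hkm] at this
    exact_mod_cast this
  refine ⟨x ^ (v * m), x ^ (u * (p ^ k : ℕ)), ⟨_, rfl⟩, ⟨_, rfl⟩, ?_, ⟨k, ?_⟩, ?_⟩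
  · rw [← zpow_add, add_comm, huv, zpow_one]
  · rw [← zpow_natCast, ← zpow_mul]
    have : v * (m : ℤ) * ((p ^ k : ℕ) : ℤ) = ((p ^ k : ℕ) * m : ℤ) * v := by ring
    rw [this, zpow_mul, hx1, one_zpow]
  · have h1 : (x ^ (u * ((p ^ k : ℕ) : ℤ))) ^ m = 1 := by
      rw [← zpow_natCast, ← zpow_mul]
      have : u * ((p ^ k : ℕ) : ℤ) * (m : ℤ) = ((p ^ k : ℕ) * m : ℤ) * u := by ring
      rw [this, zpow_mul, hx1, one_zpow]
    exact Nat.Coprime.coprime_dvd_left (orderOf_dvd_of_pow_eq_one h1)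
      ((Nat.Prime.coprime_iff_not_dvd hp).2 hm).symm

theorem t_PP : S_NIL → S_PP := by
  intro hNIL n hn ι Λ _ x κ hRF hnil hfin p hp
  choose a b ha hb hab hak hbo using fun t => PP.split (x t) (hfin t) hp
  refine ⟨a, b, ha, hb, hab, hak, hbo, ?_⟩
  intro t s
  by_contra hcon
  have hg : a t * b s * (a t)⁻¹ * (b s)⁻¹ ≠ 1 := by
    intro h
    apply hcon
    rw [mul_inv_eq_one, mul_inv_eq_iff_eq_mul] at h
    exact h
  obtain ⟨H, hH, hgH⟩ := hRF _ hg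
  have : H.FiniteIndex := ⟨hH⟩
  have : Finite (Λ ⧸ H.normalCore) := Subgroup.finite_quotient_of_finiteIndex
  set f : Λ →* Λ ⧸ H.normalCore := QuotientGroup.mk' H.normalCore with hf
  obtain ⟨i, hi1, hi2⟩ : ∃ i : Fin n, κ t ≠ i ∧ κ s ≠ i := by
    by_contra hno
    push Not at hno
    have h1 : (Finset.univ : Finset (Fin n)) ⊆ {κ t, κ s} := by
      intro i _
      by_cases h : κ t = i
      · simp [h]
      · simp [hno i h]
    have h2 := Finset.card_le_card h1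
    rw [Finset.card_univ, Fintype.card_fin] at h2
    have h3 := Finset.card_le_two (a := κ t) (b := κ s)
    omega
  have hN := hnil (Λ ⧸ H.normalCore) f i
  have hmem : ∀ r, κ r ≠ i → ∀ y ∈ Subgroup.zpowers (x r),
      f y ∈ Subgroup.closure ((fun t => f (x t)) '' {t | κ t ≠ i}) := by
    rintro r hr _ ⟨z, rfl⟩
    have h0 : f (x r) ∈ Subgroup.closure ((fun t => f (x t)) '' {t | κ t ≠ i}) :=
      Subgroup.subset_closure ⟨r, hr, rfl⟩
    simp only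
    rw [map_zpow]
    exact zpow_mem h0 z
  have h1 := (hNIL _ _ inferInstance hN p hp).1 (f (a t)) (hmem t hi1 _ (ha t)) (f (b s))
    (hmem s hi2 _ (hb s)) (by
      obtain ⟨k, hk⟩ := hak t
      exact ⟨k, by rw [← map_pow, hk, map_one]⟩)
    (Nat.Coprime.coprime_dvd_left (orderOf_map_dvd f (b s)) (hbo s))
  apply hgH
  apply H.normalCore_le
  rw [← QuotientGroup.eq_one_iff]
  change f (a t * b s * (a t)⁻¹ * (b s)⁻¹) = 1
  rw [map_mul, map_mul, map_mul, map_inv, map_inv, h1]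
  group

end Pool.Agent.T2h96.ST
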