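import Pool.Agent.T2h96.ST.Stm2

/-!
# Q3: three involutions generating `SL (3, F_q)`
-/

set_option autoImplicit false

namespace Pool.Agent.T2h96.ST

open Matrix Pool.Agent.T2h61.PR

namespace Q3

/-- no row vector is fixed up to sign by all of `SL 3` of a field -/
lemma no_row {F : Type} [Field F] (ψ : Fin 3 → F) (hψ : ψ ≠ 0)
    (h : ∀ y : SLn 3 F, ψ ᵥ* (y : Mn 3 F) = ψ ∨ ψ ᵥ* (y : Mn 3 F) = -ψ) : False := by
  obtain ⟨i, hi⟩ := Function.ne_iff.1 hψ
  rw [Pi.zero_apply] at hi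
  obtain ⟨j, hj⟩ : ∃ j : Fin 3, j ≠ i := ⟨i + 1, by fin_cases i <;> decide⟩
  have hdet : (Matrix.transvection i j (1 : F)).det = 1 := Matrix.det_transvection_of_ne i j hj.symm 1
  have hcalc : ∀ k, (ψ ᵥ* (Matrix.transvection i j (1 : F))) k = ψ k + if k = j then ψ i else 0 := by
    intro k
    rw [Matrix.transvection, Matrix.vecMul_add, Matrix.vecMul_one, Pi.add_apply]
    congr 1
    rw [Matrix.vecMul, dotProduct, Finset.sum_eq_single i]
    · rw [Matrix.single_apply]
      by_cases hk : k = j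
      · rw [if_pos hk, if_pos ⟨rfl, hk.symm⟩, mul_one]
      · rw [if_neg hk, if_neg (fun h => hk h.2.symm), mul_zero]
    · intro b _ hb
      rw [Matrix.single_apply, if_neg (fun h => hb h.1.symm), mul_zero]
    · intro h
      exact absurd (Finset.mem_univ _) h
  rcases h ⟨Matrix.transvection i j (1 : F), hdet⟩ with h1 | h1
  · have h2 := congrFun h1 j
    change (ψ ᵥ* (Matrix.transvection i j (1 : F))) j = ψ j at h2
    rw [hcalc, if_pos rfl] at h2
    exact hi (by linear_combination h2)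
  · have h2 := congrFun h1 i
    have h3 := congrFun h1 j
    change (ψ ᵥ* (Matrix.transvection i j (1 : F))) i = (-ψ) i at h2
    change (ψ ᵥ* (Matrix.transvection i j (1 : F))) j = (-ψ) j at h3
    rw [hcalc, if_neg hj.symm, add_zero, Pi.neg_apply] at h2
    rw [hcalc, if_pos rfl, Pi.neg_apply] at h3
    have h4 : (2 : F) * ψ i = 0 := by linear_combination h2
    rcases mul_eq_zero.1 h4 with h5 | h5
    · exact hi (by linear_combination h3 - ψ j * h5)
    · exact hi h5

/-- no column vector is fixed up to sign by all of `SL 3` of a field -/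
lemma no_col {F : Type} [Field F] (w : Fin 3 → F) (hw : w ≠ 0)
    (h : ∀ y : SLn 3 F, (y : Mn 3 F) *ᵥ w = w ∨ (y : Mn 3 F) *ᵥ w = -w) : False := by
  refine no_row w hw fun y => ?_
  have h1 := h y.transpose
  rwa [Matrix.SpecialLinearGroup.coe_transpose, Matrix.mulVec_transpose] at h1

/-- the trace of a product of three involutions -/
lemma tr3 {R : Type} [CommRing R] (v φ : Fin 3 → Fin 3 → R) (a b c : Fin 3) :
    ((-1 + vecMulVec (v a) (φ a)) * (-1 + vecMulVec (v b) (φ b)) *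
      (-1 + vecMulVec (v c) (φ c))).trace = -3 + φ a ⬝ᵥ v a + φ b ⬝ᵥ v b + φ c ⬝ᵥ v c -
      (φ a ⬝ᵥ v b) * (φ b ⬝ᵥ v a) - (φ a ⬝ᵥ v c) * (φ c ⬝ᵥ v a) - (φ b ⬝ᵥ v c) * (φ c ⬝ᵥ v b) +
      (φ a ⬝ᵥ v b) * (φ b ⬝ᵥ v c) * (φ c ⬝ᵥ v a) := by
  have e : (-1 + vecMulVec (v a) (φ a)) * (-1 + vecMulVec (v b) (φ b)) *
      (-1 + vecMulVec (v c) (φ c)) = -1 + vecMulVec (v a) (φ a) + vecMulVec (v b) (φ b) +
      vecMulVec (v c) (φ c) - vecMulVec (v a) (φ a) * vecMulVec (v b) (φ b) -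
      vecMulVec (v a) (φ a) * vecMulVec (v c) (φ c) -
      vecMulVec (v b) (φ b) * vecMulVec (v c) (φ c) +
      vecMulVec (v a) (φ a) * vecMulVec (v b) (φ b) * vecMulVec (v c) (φ c) := by
    noncomm_ring
  rw [e]
  simp only [Matrix.vecMulVec_mul_vecMulVec, Matrix.trace_add, Matrix.trace_sub,
    Matrix.trace_neg, Matrix.trace_one, Matrix.trace_vecMulVec, Fintype.card_fin,
    smul_dotProduct, dotProduct_smul, smul_eq_mul]
  rw [dotProduct_comm (v a) (φ a), dotProduct_comm (v b) (φ b), dotProduct_comm (v c) (φ c),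
    dotProduct_comm (v a) (φ b), dotProduct_comm (v a) (φ c), dotProduct_comm (v b) (φ c)]
  push_cast
  ring

end Q3

theorem t_Q3 (hMA : S_MA) (hMB : S_MB) : S_Q3 := by
  intro q _ r hr hgen
  obtain ⟨h1, h2, h3, h4⟩ := hr
  choose v φ hv hφ using fun k => hMA q (r k) (h1 k) (h2 k)
  have hB : ∀ j k, j ≠ k → (φ j ⬝ᵥ v k) * (φ k ⬝ᵥ v j) = 2 := by
    intro j k hjk
    refine hMB ℤ_[q] 3 (v j) (v k) (φ j) (φ k) (hφ j) (hφ k) ?_ ?_
    · have e1 : (r k * r j) * (r j * r k) = 1 := by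
        rw [mul_assoc, ← mul_assoc (r j), h1 j, one_mul, h1 k]
      have e2 : r k * r j = (r j * r k)⁻¹ := eq_inv_of_mul_eq_one_left e1
      have e3 : (r j * r k * (r j * r k)) * (r j * r k * (r j * r k)) = 1 := by
        rw [← h3 j k hjk, pow_succ, pow_succ, pow_succ, pow_one]
        group
      have e4 : r j * r k * (r j * r k) = r k * r j * (r k * r j) := by
        rw [e2, ← _root_.mul_inv_rev]
        exact eq_inv_of_mul_eq_one_left e3
      rw [← hv j, ← hv k]
      have e5 := congrArg (fun x : SLn 3 ℤ_[q] => (x : Mn 3 ℤ_[q])) e4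
      simpa only [Matrix.SpecialLinearGroup.coe_mul] using e5
    · rw [← hv j, ← hv k, ← Matrix.SpecialLinearGroup.coe_mul, ← Matrix.SpecialLinearGroup.coe_mul]
      intro h
      exact h4 j k hjk (Subtype.ext h)
  have d0 := hφ 0
  have d1 := hφ 1
  have d2 := hφ 2
  have b01 := hB 0 1 (by decide)
  have b02 := hB 0 2 (by decide)
  have b12 := hB 1 2 (by decide)
  have tr1 : ((r 0 * r 1 * r 2 : SLn 3 ℤ_[q]) : Mn 3 ℤ_[q]).trace =
      (φ 0 ⬝ᵥ v 1) * (φ 1 ⬝ᵥ v 2) * (φ 2 ⬝ᵥ v 0) - 3 := by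
    rw [Matrix.SpecialLinearGroup.coe_mul, Matrix.SpecialLinearGroup.coe_mul, hv 0, hv 1, hv 2,
      Q3.tr3 v φ 0 1 2]
    linear_combination d0 + d1 + d2 - b01 - b02 - b12
  have tr2 : ((r 2 * r 1 * r 0 : SLn 3 ℤ_[q]) : Mn 3 ℤ_[q]).trace =
      (φ 0 ⬝ᵥ v 2) * (φ 1 ⬝ᵥ v 0) * (φ 2 ⬝ᵥ v 1) - 3 := by
    rw [Matrix.SpecialLinearGroup.coe_mul, Matrix.SpecialLinearGroup.coe_mul, hv 0, hv 1, hv 2,
      Q3.tr3 v φ 2 1 0]
    linear_combination d0 + d1 + d2 - b01 - b02 - b12
  rw [tr1, tr2]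
  refine ⟨by linear_combination (φ 0 ⬝ᵥ v 2) * (φ 2 ⬝ᵥ v 0) * (φ 1 ⬝ᵥ v 2) * (φ 2 ⬝ᵥ v 1) * b01 +
    2 * (φ 1 ⬝ᵥ v 2) * (φ 2 ⬝ᵥ v 1) * b02 + 4 * b12, ?_⟩
  -- the Gram matrix
  set Φ : Mn 3 ℤ_[q] := Matrix.of fun i j => φ i j with hΦ
  set V : Mn 3 ℤ_[q] := Matrix.of fun i j => v j i with hV
  have hg : ∀ i j, (Φ * V) i j = φ i ⬝ᵥ v j := fun i j => by
    rw [Matrix.mul_apply, dotProduct]
    rfl
  have hdet : (Φ * V).det = (φ 0 ⬝ᵥ v 1) * (φ 1 ⬝ᵥ v 2) * (φ 2 ⬝ᵥ v 0) - 3 +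
      ((φ 0 ⬝ᵥ v 2) * (φ 1 ⬝ᵥ v 0) * (φ 2 ⬝ᵥ v 1) - 3) + 2 := by
    rw [Matrix.det_fin_three]
    simp only [hg]
    rw [d0, d1, d2]
    linear_combination -2 * b01 - 2 * b02 - 2 * b12
  rw [← hdet]
  by_contra hu
  set π : ℤ_[q] →+* ZMod q := PadicInt.toZMod with hπ
  have hz : π (Φ * V).det = 0 := by
    rw [← RingHom.mem_ker, hπ, PadicInt.ker_toZMod]
    exact (IsLocalRing.mem_maximalIdeal _).2 hu
  rw [Matrix.det_mul, map_mul] at hz
  have hred : ∀ k, ((Matrix.SpecialLinearGroup.map (n := Fin 3) π (r k) : SLn 3 (ZMod q)) :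
      Mn 3 (ZMod q)) = -1 + vecMulVec (fun i => π (v k i)) (fun i => π (φ k i)) := by
    intro k
    rw [Matrix.SpecialLinearGroup.map_apply_coe, hv k, map_add, map_neg, map_one]
    congr 1
    ext i j
    rw [RingHom.mapMatrix_apply, Matrix.map_apply, vecMulVec_apply, vecMulVec_apply, map_mul]
  rcases mul_eq_zero.1 hz with h0 | h0
  · have h5 : (Φ.map π).det = 0 := by
      rw [← h0, RingHom.map_det, RingHom.mapMatrix_apply]
    obtain ⟨w, hw, hw0⟩ := Matrix.exists_mulVec_eq_zero_iff.2 h5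
    have h6 : ∀ k, (fun i => π (φ k i)) ⬝ᵥ w = 0 := fun k => congrFun hw0 k
    have h7 : ∀ s ∈ Subgroup.closure (Set.range r),
        ((Matrix.SpecialLinearGroup.map (n := Fin 3) π s : SLn 3 (ZMod q)) : Mn 3 (ZMod q)) *ᵥ w = w ∨
        ((Matrix.SpecialLinearGroup.map (n := Fin 3) π s : SLn 3 (ZMod q)) : Mn 3 (ZMod q)) *ᵥ w =
          -w := by
      intro s hs
      induction hs using Subgroup.closure_induction with
      | mem x hx =>
        obtain ⟨k, rfl⟩ := hx
        right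
        rw [hred k, Matrix.add_mulVec, Matrix.neg_mulVec, Matrix.one_mulVec,
          Matrix.vecMulVec_mulVec, h6 k]
        simp
      | one => left; rw [map_one, Matrix.SpecialLinearGroup.coe_one, Matrix.one_mulVec]
      | mul x y _ _ hx hy =>
        rw [map_mul, Matrix.SpecialLinearGroup.coe_mul, ← Matrix.mulVec_mulVec]
        rcases hy with hy | hy
        · rw [hy]
          exact hx
        · rw [hy, Matrix.mulVec_neg]
          rcases hx with hx | hx
          · right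
            rw [hx]
          · left
            rw [hx, neg_neg]
      | inv x _ hx =>
        have e : ((Matrix.SpecialLinearGroup.map (n := Fin 3) π x⁻¹ : SLn 3 (ZMod q)) :
            Mn 3 (ZMod q)) * ((Matrix.SpecialLinearGroup.map (n := Fin 3) π x : SLn 3 (ZMod q)) :
            Mn 3 (ZMod q)) = 1 := by
          rw [← Matrix.SpecialLinearGroup.coe_mul, ← map_mul, inv_mul_cancel, map_one,
            Matrix.SpecialLinearGroup.coe_one]
        rcases hx with hx | hx
        · left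
          conv_lhs => rw [← hx]
          rw [Matrix.mulVec_mulVec, e, Matrix.one_mulVec]
        · right
          have hx' : ((Matrix.SpecialLinearGroup.map (n := Fin 3) π x : SLn 3 (ZMod q)) :
            Mn 3 (ZMod q)) *ᵥ (-w) = w := by rw [Matrix.mulVec_neg, hx, neg_neg]
          conv_lhs => rw [← hx']
          rw [Matrix.mulVec_mulVec, e, Matrix.one_mulVec]
    refine Q3.no_col w hw fun y => ?_
    obtain ⟨s, hs, rfl⟩ := hgen y
    exact h7 s hs
  · have h5 : (V.map π).det = 0 := by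
      rw [← h0, RingHom.map_det, RingHom.mapMatrix_apply]
    obtain ⟨ψ, hψ, hψ0⟩ := Matrix.exists_vecMul_eq_zero_iff.2 h5
    have h6 : ∀ k, ψ ⬝ᵥ (fun i => π (v k i)) = 0 := fun k => congrFun hψ0 k
    have h7 : ∀ s ∈ Subgroup.closure (Set.range r),
        ψ ᵥ* ((Matrix.SpecialLinearGroup.map (n := Fin 3) π s : SLn 3 (ZMod q)) : Mn 3 (ZMod q)) =
          ψ ∨
        ψ ᵥ* ((Matrix.SpecialLinearGroup.map (n := Fin 3) π s : SLn 3 (ZMod q)) : Mn 3 (ZMod q)) =
          -ψ := by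
      intro s hs
      induction hs using Subgroup.closure_induction with
      | mem x hx =>
        obtain ⟨k, rfl⟩ := hx
        right
        rw [hred k, Matrix.vecMul_add, Matrix.vecMul_neg, Matrix.vecMul_one,
          Matrix.vecMul_vecMulVec, h6 k]
        simp
      | one => left; rw [map_one, Matrix.SpecialLinearGroup.coe_one, Matrix.vecMul_one]
      | mul x y _ _ hx hy =>
        rw [map_mul, Matrix.SpecialLinearGroup.coe_mul, ← Matrix.vecMul_vecMul]
        rcases hx with hx | hx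
        · rw [hx]
          exact hy
        · rw [hx, Matrix.neg_vecMul]
          rcases hy with hy | hy
          · right
            rw [hy]
          · left
            rw [hy, neg_neg]
      | inv x _ hx =>
        have e : ((Matrix.SpecialLinearGroup.map (n := Fin 3) π x : SLn 3 (ZMod q)) :
            Mn 3 (ZMod q)) * ((Matrix.SpecialLinearGroup.map (n := Fin 3) π x⁻¹ : SLn 3 (ZMod q)) :
            Mn 3 (ZMod q)) = 1 := by
          rw [← Matrix.SpecialLinearGroup.coe_mul, ← map_mul, mul_inv_cancel, map_one,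
            Matrix.SpecialLinearGroup.coe_one]
        rcases hx with hx | hx
        · left
          conv_lhs => rw [← hx]
          rw [Matrix.vecMul_vecMul, e, Matrix.vecMul_one]
        · right
          have hx' : (-ψ) ᵥ* ((Matrix.SpecialLinearGroup.map (n := Fin 3) π x : SLn 3 (ZMod q)) :
            Mn 3 (ZMod q)) = ψ := by rw [Matrix.neg_vecMul, hx, neg_neg]
          conv_lhs => rw [← hx']
          rw [Matrix.vecMul_vecMul, e, Matrix.vecMul_one]
    refine Q3.no_row ψ hψ fun y => ?_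
    obtain ⟨s, hs, rfl⟩ := hgen y
    exact h7 s hs

end Pool.Agent.T2h96.ST
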