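import Pool.Agent.T2h96.ST.Stm

/-! Project ST, task T3: no Heisenberg group over the 3-adic integers. -/

set_option autoImplicit false
set_option linter.all false

namespace Pool.Agent.T2h96.ST.T3

open Matrix Pool.Agent.T2h61.PR Pool.Agent.T2h96.SN Pool.Agent.T2h96.SM

theorem core {R M : Type} [CommRing R] [IsLocalRing R] [AddCommGroup M] [Module R M]
    [IsNoetherian R M] (h3 : (3 : R) ∈ IsLocalRing.maximalIdeal R)
    (tf : ∀ x : M, (3 : R) • x = 0 → x = 0) (a b z : Module.End R M)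
    (ha : ∀ x, a x = 0 → x = 0) (hb : ∀ x, b x = 0 → x = 0) (hz : z ^ 3 = 1)
    (hza : z * a = a * z) (hzb : z * b = b * z) (hab : a * b = z * (b * a)) (e : M)
    (h : ∀ v, ∃ (s : R) (w : M), (z - 1) (v - s • e) = (3 : R) • w) : z = 1 := by
  obtain ⟨X, hX⟩ : ∃ X : Module.End R M, X = z - 1 := ⟨_, rfl⟩
  have zX : ∀ v, z v = v + X v := by
    intro v
    rw [hX, LinearMap.sub_apply, Module.End.one_apply]
    abel
  have zzz : ∀ v, z (z (z v)) = v := by
    intro v
    have h1 := LinearMap.congr_fun hz v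
    rw [pow_succ, pow_succ, pow_one] at h1
    exact h1
  have Xz : ∀ v, X (z v) = z (X v) := by
    intro v
    rw [hX, LinearMap.sub_apply, LinearMap.sub_apply, Module.End.one_apply,
      Module.End.one_apply, map_sub]
  have Xa : ∀ v, X (a v) = a (X v) := by
    intro v
    have h1 := LinearMap.congr_fun hza v
    rw [Module.End.mul_apply, Module.End.mul_apply] at h1
    rw [hX, LinearMap.sub_apply, LinearMap.sub_apply, Module.End.one_apply,
      Module.End.one_apply, map_sub, h1]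
  have Xb : ∀ v, X (b v) = b (X v) := by
    intro v
    have h1 := LinearMap.congr_fun hzb v
    rw [Module.End.mul_apply, Module.End.mul_apply] at h1
    rw [hX, LinearMap.sub_apply, LinearMap.sub_apply, Module.End.one_apply,
      Module.End.one_apply, map_sub, h1]
  have hX3 : ∀ v, X (X (X v)) = -((3 : R) • z (X v)) := by
    intro v
    have h1 := zzz v
    simp only [zX, map_add] at h1
    have h2 : X (X (X v)) + (3 : R) • (X (X v)) + (3 : R) • X v = 0 := by
      have h4 : (3 : R) • (X (X v)) = X (X v) + X (X v) + X (X v) := by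
        rw [show (3 : R) = 1 + 1 + 1 by norm_num, add_smul, add_smul, one_smul]
      have h5 : (3 : R) • X v = X v + X v + X v := by
        rw [show (3 : R) = 1 + 1 + 1 by norm_num, add_smul, add_smul, one_smul]
      rw [h4, h5]
      have h6 : v + (X (X (X v)) + (X (X v) + X (X v) + X (X v)) + (X v + X v + X v)) = v + 0 := by
        rw [add_zero]
        refine Eq.trans ?_ h1
        abel
      exact add_left_cancel h6
    rw [zX, smul_add]
    have h7 : X (X (X v)) = -((3 : R) • (X (X v)) + (3 : R) • X v) := by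
      rw [eq_neg_iff_add_eq_zero, ← add_assoc]
      exact h2
    rw [h7, add_comm]
  -- step 1
  have s1 : ∀ v w, X v = (3 : R) • w → X (X w) = -((3 : R) • z w) := by
    intro v w hvw
    have h1 := hX3 v
    rw [hvw, map_smul, map_smul, map_smul] at h1
    have h2 : (3 : R) • (X (X w) + (3 : R) • z w) = 0 := by
      rw [smul_add, h1]
      abel
    exact eq_neg_of_add_eq_zero_left (tf _ h2)
  -- step 2
  have s2 : ∀ v, ∃ (s : R) (v' : M), X v = s • X e + X (X v') := by
    intro v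
    obtain ⟨s, w, hw⟩ := h v
    rw [← hX] at hw
    refine ⟨s, -(z (z w)), ?_⟩
    have h1 := s1 _ w hw
    have h2 : X (X (-(z (z w)))) = (3 : R) • w := by
      rw [map_neg, map_neg, Xz, Xz, Xz, Xz, h1, map_neg, map_neg, map_smul, map_smul, zzz,
        neg_neg]
    rw [h2, ← hw, map_sub, map_smul]
    abel
  -- step 3
  have s3 : ∀ v, ∃ (s s' : R) (v'' : M),
      X v = s • X e + s' • X (X e) + (3 : R) • X v'' := by
    intro v
    obtain ⟨s, v', h1⟩ := s2 v
    obtain ⟨s', v'', h2⟩ := s2 v'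
    refine ⟨s, s', -(z v''), ?_⟩
    rw [h1, h2, map_add, map_smul, hX3, map_neg, Xz, smul_neg, add_assoc]
  have s4 : LinearMap.range X ≤ Submodule.span R {X e, X (X e)} := by
    refine Submodule.le_of_le_smul_of_le_jacobson_bot (I := IsLocalRing.maximalIdeal R)
      (IsNoetherian.noetherian _) ?_ ?_
    · rw [IsLocalRing.jacobson_eq_maximalIdeal ⊥ bot_ne_top]
    · rintro _ ⟨v, rfl⟩
      obtain ⟨s, s', v'', h1⟩ := s3 v
      rw [h1]
      refine Submodule.add_mem_sup ?_ ?_
      · exact Submodule.mem_span_pair.2 ⟨s, s', rfl⟩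
      · exact Submodule.smul_mem_smul h3 ⟨v'', rfl⟩
  have s5 : ∀ v, ∃ α β : R, α • X e + β • X (X e) = X v := fun v =>
    Submodule.mem_span_pair.1 (s4 ⟨v, rfl⟩)
  obtain ⟨α, β, hα⟩ := s5 (a e)
  obtain ⟨γ, δ, hγ⟩ := s5 (b e)
  rw [Xa] at hα
  rw [Xb] at hγ
  have h6 : a (b (X e)) = b (a (X e)) := by
    rw [← hα, ← hγ]
    simp only [map_add, map_smul, ← Xa, ← Xb]
    rw [Xa, Xb, ← hα, ← hγ]
    simp only [map_add, map_smul, smul_add, smul_smul]
    rw [mul_comm γ α, mul_comm γ β, mul_comm δ α, mul_comm δ β]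
    abel
  have h7 := LinearMap.congr_fun hab (X e)
  rw [Module.End.mul_apply, Module.End.mul_apply, Module.End.mul_apply, h6, zX] at h7
  have h8 : X (b (a (X e))) = 0 := by
    have h9 : b (a (X e)) + X (b (a (X e))) = b (a (X e)) + 0 := by rw [add_zero]; exact h7.symm
    exact add_left_cancel h9
  rw [Xb, Xa] at h8
  have h9 : X (X e) = 0 := ha _ (hb _ h8)
  have h10 : ∀ v, X (X v) = 0 := by
    intro v
    obtain ⟨α, β, h⟩ := s5 v
    rw [← h, map_add, map_smul, map_smul, h9, map_zero, smul_zero, smul_zero, add_zero]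
  have h11 : ∀ v, X v = 0 := by
    intro v
    have h1 := hX3 v
    rw [h10 v, map_zero] at h1
    have h2 : (3 : R) • z (X v) = 0 := neg_eq_zero.1 h1.symm
    have h3' := tf _ h2
    rw [← zzz (X v), h3', map_zero, map_zero]
  apply LinearMap.ext
  intro v
  rw [zX, h11, add_zero, Module.End.one_apply]

theorem t_T3 : S_T3 := by
  intro n A B Z hZ hZA hZB hAB e h
  set φ : Mn n ℤ_[3] ≃ₐ[ℤ_[3]] Module.End ℤ_[3] (Fin n → ℤ_[3]) := Matrix.toLinAlgEquiv' with hφ
  have app : ∀ (C : Mn n ℤ_[3]) (v : Fin n → ℤ_[3]), φ C v = C *ᵥ v := fun C v =>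
    Matrix.toLin'_apply C v
  have inj : ∀ (C : (Mn n ℤ_[3])ˣ) (v : Fin n → ℤ_[3]), φ C v = 0 → v = 0 := by
    intro C v hv
    rw [app] at hv
    have h1 : ((C⁻¹ : (Mn n ℤ_[3])ˣ) : Mn n ℤ_[3]) *ᵥ ((C : Mn n ℤ_[3]) *ᵥ v) = v := by
      rw [Matrix.mulVec_mulVec, Units.inv_mul, Matrix.one_mulVec]
    rw [← h1, hv, Matrix.mulVec_zero]
  have e1 : (Z : Mn n ℤ_[3]) ^ 3 = 1 := by
    rw [← Units.val_pow_eq_pow_val, hZ, Units.val_one]
  have e2 : (Z : Mn n ℤ_[3]) * A = A * Z := by
    rw [← Units.val_mul, hZA, Units.val_mul]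
  have e3 : (Z : Mn n ℤ_[3]) * B = B * Z := by
    rw [← Units.val_mul, hZB, Units.val_mul]
  have e4 : (A : Mn n ℤ_[3]) * B = Z * (B * A) := by
    rw [← Units.val_mul, hAB, Units.val_mul, Units.val_mul]
  have h3 : (3 : ℤ_[3]) ∈ IsLocalRing.maximalIdeal ℤ_[3] := by
    have h1 := PadicInt.maximalIdeal_eq_span_p (p := 3)
    rw [h1, Ideal.mem_span_singleton]
    exact ⟨1, by norm_num⟩
  have key : φ (Z : Mn n ℤ_[3]) = 1 := by
    refine core h3 ?_ (φ A) (φ B) (φ Z) (inj A) (inj B) ?_ ?_ ?_ ?_ e ?_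
    · intro x hx
      rcases smul_eq_zero.1 hx with h | h
      · exact absurd h (by norm_num)
      · exact h
    · rw [← map_pow, e1, map_one]
    · rw [← map_mul, e2, map_mul]
    · rw [← map_mul, e3, map_mul]
    · rw [← map_mul, e4, map_mul, map_mul]
    · intro v
      obtain ⟨s, w, hw⟩ := h v
      refine ⟨s, w, ?_⟩
      have h5 : φ ((Z : Mn n ℤ_[3]) - 1) = φ (Z : Mn n ℤ_[3]) - 1 := by rw [map_sub, map_one]
      rw [← hw, ← app, h5]
  apply Units.ext
  rw [Units.val_one]
  apply φ.injective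
  rw [key, map_one]

end Pool.Agent.T2h96.ST.T3

namespace Pool.Agent.T2h96.ST

theorem t_T3 : S_T3 := T3.t_T3

end Pool.Agent.T2h96.ST
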