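import Pool.Agent.T2h96.ST.Stm

/-!
# Task TF (helper21): the congruence subgroup modulo an odd prime is torsion free
-/

set_option autoImplicit false

namespace Pool.Agent.T2h96.ST

open Matrix Pool.Agent.T2h61.PR Pool.Agent.T2h96.SN Pool.Agent.T2h96.SM

namespace TF

/-- A `p`-adic integer which is divisible by all powers of `p` is zero. -/
theorem zero_of_dvd {p : ℕ} [hp : Fact p.Prime] (x : ℤ_[p])
    (h : ∀ k : ℕ, ∃ y : ℤ_[p], x = (p : ℤ_[p]) ^ k * y) : x = 0 := by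
  by_contra hx
  have h0 : 0 < ‖x‖ := norm_pos_iff.2 hx
  have hp1 : (p : ℝ)⁻¹ < 1 := inv_lt_one_of_one_lt₀ (by exact_mod_cast hp.out.one_lt)
  obtain ⟨k, hk⟩ := exists_pow_lt_of_lt_one h0 hp1
  obtain ⟨y, hy⟩ := h k
  have h1 : ‖x‖ ≤ ((p : ℝ)⁻¹) ^ k := by
    rw [hy, norm_mul, norm_pow, PadicInt.norm_p]
    have := PadicInt.norm_le_one y
    have h2 : 0 ≤ ((p : ℝ)⁻¹) ^ k := by positivity
    nlinarith
  linarith

theorem mat_zero {n p : ℕ} [Fact p.Prime] (X : Mn n ℤ_[p])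
    (h : ∀ k : ℕ, ∃ Y : Mn n ℤ_[p], X = (p : ℤ_[p]) ^ k • Y) : X = 0 := by
  ext i j
  apply zero_of_dvd
  intro k
  obtain ⟨Y, hY⟩ := h k
  exact ⟨Y i j, by rw [hY]; rfl⟩

/-- binomial expansion -/
theorem expand {R0 A : Type*} [CommRing R0] [Ring A] [Algebra R0 A] (X : A) (q : ℕ) :
    ∃ R : A, (1 + X) ^ q = 1 + (q : R0) • X + R * X ^ 2 := by
  induction q with
  | zero => exact ⟨0, by simp⟩
  | succ q ih =>
    obtain ⟨R, hR⟩ := ih
    refine ⟨R + (q : R0) • 1 + R * X, ?_⟩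
    rw [pow_succ, hR]
    push_cast
    rw [add_smul, one_smul]
    simp only [add_mul, mul_add, mul_one, one_mul, smul_mul_assoc, pow_two, mul_assoc]
    abel

/-- binomial expansion with prime exponent -/
theorem expand_gen {A : Type*} [Ring A] (X : A) (p : ℕ) (hp : p.Prime) :
    ∃ R : A, (1 + X) ^ p = 1 + (p : A) * X + (p : A) * (R * X ^ 2) + X ^ p := by
  have h := (Commute.one_right X).add_pow_prime_eq hp
  rw [add_comm X 1] at h
  have h2 : 2 ≤ p := hp.two_le
  have hI : Finset.Ioo 0 p = insert 1 (Finset.Ioo 1 p) := by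
    ext a
    simp only [Finset.mem_Ioo, Finset.mem_insert]
    omega
  rw [hI, Finset.sum_insert (by simp)] at h
  refine ⟨∑ k ∈ Finset.Ioo 1 p, X ^ (k - 2) * ((p.choose k / p : ℕ) : A), ?_⟩
  have e1 : (p.choose 1 / p : ℕ) = 1 := by
    rw [Nat.choose_one_right, Nat.div_self hp.pos]
  have e2 : (∑ k ∈ Finset.Ioo 1 p, X ^ (k - 2) * ((p.choose k / p : ℕ) : A)) * X ^ 2 =
      X * ∑ k ∈ Finset.Ioo 1 p, X ^ (k - 1) * 1 ^ (p - k - 1) * ((p.choose k / p : ℕ) : A) := by
    rw [Finset.sum_mul, Finset.mul_sum]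
    refine Finset.sum_congr rfl fun k hk => ?_
    rw [Finset.mem_Ioo] at hk
    obtain ⟨j, rfl⟩ : ∃ j, k = j + 2 := ⟨k - 2, by omega⟩
    have e3 : j + 2 - 2 = j := by omega
    have e4 : j + 2 - 1 = j + 1 := by omega
    rw [e3, e4, one_pow, mul_one, mul_assoc, (Nat.cast_commute _ (X ^ 2)).eq, ← mul_assoc,
      ← mul_assoc, ← pow_add, ← pow_succ']
  rw [h, e2, e1]
  simp only [one_pow, mul_one, Nat.cast_one, mul_add, Nat.sub_self, pow_zero, mul_assoc]
  abel

theorem expand_prime {R0 A : Type*} [CommRing R0] [Ring A] [Algebra R0 A] (X : A) (p : ℕ)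
    (hp : p.Prime) :
    ∃ R : A, (1 + X) ^ p = 1 + ((p : R0) • X + ((p : R0) • (R * X ^ 2) + X ^ p)) := by
  obtain ⟨R, hR⟩ := expand_gen X p hp
  refine ⟨R, ?_⟩
  have e4 : ∀ Z : A, (p : R0) • Z = (p : A) * Z := by
    intro Z
    rw [← nsmul_eq_mul, Nat.cast_smul_eq_nsmul]
  rw [e4, e4, hR]
  abel

/-- the case of prime order -/
theorem prime_order {R0 A : Type*} [CommRing R0] [Ring A] [Algebra R0 A] (p : ℕ) (hp : p.Prime)
    (h2 : 2 < p) (hc : ∀ X Y : A, (p : R0) • X = (p : R0) • Y → X = Y) (q : ℕ) (hq : q.Prime)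
    (X W : A) (hX : X = (p : R0) • W) (h : (1 + X) ^ q = 1) (k : ℕ) :
    ∃ Y : A, X = (p : R0) ^ (k + 1) • Y := by
  induction k with
  | zero => exact ⟨W, by rw [zero_add, pow_one, hX]⟩
  | succ k ih =>
    obtain ⟨Y, hY⟩ := ih
    have h6 : ∀ R : A, R * X ^ 2 = (p : R0) ^ (k + 2) • ((p : R0) ^ k • (R * Y ^ 2)) := by
      intro R
      rw [hY, smul_pow, mul_smul_comm, smul_smul, ← pow_mul]
      congr 1
      ring
    by_cases hqp : q = p
    · rw [hqp] at h
      obtain ⟨R, hR⟩ := expand_prime (R0 := R0) X p hp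
      rw [h] at hR
      have h3 : (p : R0) • X = -((p : R0) • (R * X ^ 2) + X ^ p) := by
        have h4 : (1 : A) + 0 = 1 + ((p : R0) • X + ((p : R0) • (R * X ^ 2) + X ^ p)) := by
          rw [add_zero]
          exact hR
        exact eq_neg_of_add_eq_zero_left (add_left_cancel h4).symm
      obtain ⟨e, he⟩ : ∃ e, (k + 1) * p = e + 1 + (k + 2) := by
        refine ⟨(k + 1) * p - (k + 3), ?_⟩
        have : (k + 1) * 3 ≤ (k + 1) * p := Nat.mul_le_mul_left _ h2
        omega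
      have h5 : X ^ p = (p : R0) • ((p : R0) ^ (k + 2) • ((p : R0) ^ e • Y ^ p)) := by
        rw [hY, smul_pow, ← pow_mul, he, smul_smul, smul_smul]
        congr 1
        ring
      refine ⟨-((p : R0) ^ k • (R * Y ^ 2) + (p : R0) ^ e • Y ^ p), ?_⟩
      apply hc
      rw [h3, h5, h6, ← smul_add, ← smul_add, ← smul_neg, ← smul_neg]
    · obtain ⟨R, hR⟩ := expand (R0 := R0) X q
      rw [h] at hR
      have h3 : (q : R0) • X = -(R * X ^ 2) := by
        have h4 : (1 : A) + 0 = 1 + ((q : R0) • X + R * X ^ 2) := by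
          rw [add_zero, ← add_assoc]
          exact hR
        exact eq_neg_of_add_eq_zero_left (add_left_cancel h4).symm
      have hcop : IsCoprime (q : ℤ) ((p : ℤ) ^ (k + 2)) := by
        apply IsCoprime.pow_right
        rw [Nat.isCoprime_iff_coprime]
        exact (Nat.coprime_primes hq hp).2 hqp
      obtain ⟨a, b, hab⟩ := hcop
      have hab' : (a : R0) * (q : R0) + (b : R0) * (p : R0) ^ (k + 2) = 1 := by
        have := congrArg (Int.cast : ℤ → R0) hab
        push_cast at this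
        exact this
      refine ⟨-((a : R0) • ((p : R0) ^ k • (R * Y ^ 2))) + (b : R0) • X, ?_⟩
      calc X = ((a : R0) * (q : R0) + (b : R0) * (p : R0) ^ (k + 2)) • X := by
            rw [hab', one_smul]
        _ = (a : R0) • ((q : R0) • X) + ((p : R0) ^ (k + 2)) • ((b : R0) • X) := by
            rw [add_smul, mul_smul, smul_smul ((p : R0) ^ (k + 2)), mul_comm (b : R0)]
        _ = _ := by
            rw [h3, h6, smul_add, smul_neg, smul_neg, smul_comm (a : R0)]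

theorem smul_cancel {n p : ℕ} [hp : Fact p.Prime] (X Y : Mn n ℤ_[p])
    (h : (p : ℤ_[p]) • X = (p : ℤ_[p]) • Y) : X = Y := by
  have hp0 : (p : ℤ_[p]) ≠ 0 := Nat.cast_ne_zero.2 hp.out.ne_zero
  ext i j
  have h1 := congrFun (congrFun h i) j
  simp only [Matrix.smul_apply, smul_eq_mul] at h1
  exact mul_left_cancel₀ hp0 h1

end TF

theorem t_TF : S_TF := by
  intro n p hp h2 A W hA hm
  by_contra hne
  have ho : orderOf A ≠ 1 := fun h => hne (orderOf_eq_one_iff.1 h)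
  have hpos : 0 < orderOf A := by
    obtain ⟨m, hm, h⟩ := hm
    exact orderOf_pos_iff.2 (isOfFinOrder_iff_pow_eq_one.2 ⟨m, hm, h⟩)
  obtain ⟨q, hq, hqd⟩ := Nat.exists_prime_and_dvd ho
  obtain ⟨m, hm'⟩ := hqd
  have hmpos : 0 < m := by
    rcases Nat.eq_zero_or_pos m with h | h
    · rw [h, mul_zero] at hm'
      omega
    · exact h
  have hB : (A ^ m) ^ q = 1 := by
    rw [← pow_mul, mul_comm, ← hm', pow_orderOf_eq_one]
  obtain ⟨R, hR⟩ := TF.expand (R0 := ℤ_[p]) ((p : ℤ_[p]) • W) m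
  have hX : A ^ m - 1 = (p : ℤ_[p]) • ((m : ℤ_[p]) • W + R * ((p : ℤ_[p]) • W ^ 2)) := by
    rw [hA, hR, smul_pow, smul_add, smul_comm (m : ℤ_[p]), pow_two (p : ℤ_[p]), mul_smul,
      mul_smul_comm, add_assoc, add_sub_cancel_left]
  have h0 : A ^ m - 1 = 0 := by
    apply TF.mat_zero
    intro k
    rcases k with _ | k
    · exact ⟨A ^ m - 1, by rw [pow_zero, one_smul]⟩
    · exact TF.prime_order p hp.out h2 TF.smul_cancel q hq (A ^ m - 1) _ hX
        (by rw [add_sub_cancel]; exact hB) k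
  have h1 : A ^ m = 1 := sub_eq_zero.1 h0
  have h3 := orderOf_le_of_pow_eq_one hmpos h1
  have h4 := hq.two_le
  rw [hm'] at h3
  nlinarith

end Pool.Agent.T2h96.ST
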