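import Pool.Agent.T2h96.ST.Stm2
import Pool.Agent.T2h96.ST.T_TF

/-!
# Task TF4 (helper49): the congruence subgroup modulo `4` is torsion free
-/

set_option autoImplicit false

namespace Pool.Agent.T2h96.ST

open Matrix Pool.Agent.T2h61.PR Pool.Agent.T2h96.SN Pool.Agent.T2h96.SM

namespace TF4

/-- the case of prime order -/
theorem prime_order {R0 A : Type*} [CommRing R0] [Ring A] [Algebra R0 A]
    (hc : ∀ X Y : A, (2 : R0) • X = (2 : R0) • Y → X = Y) (q : ℕ) (hq : q.Prime)
    (X W : A) (hX : X = (4 : R0) • W) (h : (1 + X) ^ q = 1) (k : ℕ) :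
    ∃ Y : A, X = (2 : R0) ^ (k + 2) • Y := by
  induction k with
  | zero =>
    refine ⟨W, ?_⟩
    rw [hX]
    congr 1
    norm_num
  | succ k ih =>
    obtain ⟨Y, hY⟩ := ih
    have h6 : ∀ R : A, R * X ^ 2 = (2 : R0) ^ (k + 1 + 2) • ((2 : R0) ^ (k + 1) • (R * Y ^ 2)) := by
      intro R
      rw [hY, smul_pow, mul_smul_comm, smul_smul, ← pow_mul]
      congr 1
      ring
    by_cases hqp : q = 2
    · rw [hqp] at h
      have h3 : (2 : R0) • X = -(1 * X ^ 2) := by
        have h4 : (1 + X) ^ 2 = 1 + ((2 : R0) • X + 1 * X ^ 2) := by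
          rw [two_smul]
          noncomm_ring
        rw [h] at h4
        have h5 : (1 : A) + 0 = 1 + ((2 : R0) • X + 1 * X ^ 2) := by
          rw [add_zero]
          exact h4
        exact eq_neg_of_add_eq_zero_left (add_left_cancel h5).symm
      refine ⟨-((2 : R0) ^ k • Y ^ 2), ?_⟩
      apply hc
      rw [h3, h6, one_mul, smul_neg, smul_neg, smul_smul, smul_smul, smul_smul]
      congr 2
      ring
    · obtain ⟨R, hR⟩ := TF.expand (R0 := R0) X q
      rw [h] at hR
      have h3 : (q : R0) • X = -(R * X ^ 2) := by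
        have h4 : (1 : A) + 0 = 1 + ((q : R0) • X + R * X ^ 2) := by
          rw [add_zero, ← add_assoc]
          exact hR
        exact eq_neg_of_add_eq_zero_left (add_left_cancel h4).symm
      have hcop : IsCoprime (q : ℤ) ((2 : ℤ) ^ (k + 1 + 2)) := by
        apply IsCoprime.pow_right
        have : IsCoprime (q : ℤ) ((2 : ℕ) : ℤ) := by
          rw [Nat.isCoprime_iff_coprime]
          exact (Nat.coprime_primes hq Nat.prime_two).2 hqp
        exact_mod_cast this
      obtain ⟨a, b, hab⟩ := hcop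
      have hab' : (a : R0) * (q : R0) + (b : R0) * (2 : R0) ^ (k + 1 + 2) = 1 := by
        have := congrArg (Int.cast : ℤ → R0) hab
        push_cast at this
        exact this
      refine ⟨-((a : R0) • ((2 : R0) ^ (k + 1) • (R * Y ^ 2))) + (b : R0) • X, ?_⟩
      calc X = ((a : R0) * (q : R0) + (b : R0) * (2 : R0) ^ (k + 1 + 2)) • X := by
            rw [hab', one_smul]
        _ = (a : R0) • ((q : R0) • X) + ((2 : R0) ^ (k + 1 + 2)) • ((b : R0) • X) := by
            rw [add_smul, mul_smul, smul_smul ((2 : R0) ^ (k + 1 + 2)), mul_comm (b : R0)]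
        _ = _ := by
            rw [h3, h6, smul_add, smul_neg, smul_neg, smul_comm (a : R0)]

theorem smul_cancel {n : ℕ} (X Y : Mn n ℤ_[2])
    (h : (2 : ℤ_[2]) • X = (2 : ℤ_[2]) • Y) : X = Y := by
  have := TF.smul_cancel (p := 2) X Y (by exact_mod_cast h)
  exact this

end TF4

theorem t_TF4 : S_TF4 := by
  intro n A W hA hm
  by_contra hne
  have ho : orderOf A ≠ 1 := fun h => hne (orderOf_eq_one_iff.1 h)
  have hpos : 0 < orderOf A := by
    obtain ⟨m, hm, h⟩ := hm
    exact orderOf_pos_iff.2 (isOfFinOrder_iff_pow_eq_one.2 ⟨m, hm, h⟩)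
  obtain ⟨q, hq, hqd⟩ := Nat.exists_prime_and_dvd ho
  obtain ⟨m, hm'⟩ := hqd
  have hmpos : 0 < m := by
    rcases Nat.eq_zero_or_pos m with h | h
    · rw [h, mul_zero] at hm'
      omega
    · exact h
  have hB : (A ^ m) ^ q = 1 := by
    rw [← pow_mul, mul_comm, ← hm', pow_orderOf_eq_one]
  obtain ⟨R, hR⟩ := TF.expand (R0 := ℤ_[2]) ((4 : ℤ_[2]) • W) m
  have hX : A ^ m - 1 = (4 : ℤ_[2]) • ((m : ℤ_[2]) • W + R * ((4 : ℤ_[2]) • W ^ 2)) := by
    rw [hA, hR, smul_pow, smul_add, smul_comm (m : ℤ_[2]), pow_two (4 : ℤ_[2]), mul_smul,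
      mul_smul_comm, add_assoc, add_sub_cancel_left]
  have h0 : A ^ m - 1 = 0 := by
    apply TF.mat_zero
    intro k
    obtain ⟨Y, hY⟩ := TF4.prime_order (R0 := ℤ_[2]) TF4.smul_cancel q hq (A ^ m - 1) _ hX
        (by rw [add_sub_cancel]; exact hB) k
    refine ⟨(2 : ℤ_[2]) ^ 2 • Y, ?_⟩
    rw [hY, pow_add, mul_smul]
    rfl
  have h1 : A ^ m = 1 := sub_eq_zero.1 h0
  have h3 := orderOf_le_of_pow_eq_one hmpos h1
  have h4 := hq.two_le
  rw [hm'] at h3
  nlinarith

end Pool.Agent.T2h96.ST
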