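import Pool.Agent.T2h96.ST.Stm

set_option autoImplicit false

namespace Pool.Agent.T2h96.ST.TF5

open Matrix Pool.Agent.T2h61.PR Pool.Agent.T2h96.SN Pool.Agent.T2h96.SM

/-- the binomial expansion modulo `p X ^ 2`. -/
theorem expand {R : Type} [Ring R] (X : R) (p : ℕ) (hp : p.Prime) :
    ∃ S : R, (X + 1) ^ p = X ^ p + 1 + (p : R) * X + (p : R) * (X * X * S) := by
  have h := (Commute.one_right X).add_pow_prime_eq hp
  have hmem : (1 : ℕ) ∈ Finset.Ioo 0 p := by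
    simp [hp.one_lt]
  rw [← Finset.add_sum_erase _ _ hmem] at h
  refine ⟨∑ k ∈ (Finset.Ioo 0 p).erase 1, X ^ (k - 2) * ((p.choose k / p : ℕ) : R), ?_⟩
  have h2 : ∑ k ∈ (Finset.Ioo 0 p).erase 1,
      X ^ (k - 1) * (1 : R) ^ (p - k - 1) * ((p.choose k / p : ℕ) : R) =
      X * ∑ k ∈ (Finset.Ioo 0 p).erase 1, X ^ (k - 2) * ((p.choose k / p : ℕ) : R) := by
    rw [Finset.mul_sum]
    refine Finset.sum_congr rfl fun k hk => ?_
    rw [Finset.mem_erase, Finset.mem_Ioo] at hk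
    have hk2 : k - 1 = (k - 2) + 1 := by omega
    rw [one_pow, mul_one, hk2, pow_succ']
    rw [mul_assoc]
  rw [h2] at h
  rw [h]
  have h1 : ((p.choose 1 / p : ℕ) : R) = 1 := by
    rw [Nat.choose_one_right, Nat.div_self hp.pos, Nat.cast_one]
  rw [h1]
  simp only [Nat.sub_self, pow_zero, one_pow, mul_one]
  noncomm_ring

end Pool.Agent.T2h96.ST.TF5

namespace Pool.Agent.T2h96.ST

open Matrix Pool.Agent.T2h61.PR Pool.Agent.T2h96.SN Pool.Agent.T2h96.SM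

theorem t_TF5 : S_TF → S_TF5 := by
  intro hTF n p _ A Y hXY ⟨m, hm, hA⟩
  have hp : p.Prime := Fact.out
  set X : Mn n ℤ_[p] := A - 1 with hX
  have hAX : A = X + 1 := by rw [hX]; abel
  have smul_eq : ∀ M : Mn n ℤ_[p], (p : ℤ_[p]) • M = (p : Mn n ℤ_[p]) * M := by
    intro M
    rw [Nat.cast_smul_eq_nsmul, nsmul_eq_mul]
  rw [smul_eq] at hXY
  obtain ⟨S, hS⟩ := TF5.expand X p hp
  rw [← hAX] at hS
  have comm : ∀ M : Mn n ℤ_[p], M * (p : Mn n ℤ_[p]) = (p : Mn n ℤ_[p]) * M := by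
    intro M
    exact ((Nat.cast_commute p M).eq).symm
  have h1 : 2 < p → A ^ p = 1 := by
    intro h2
    refine hTF n p h2 (A ^ p) (X + (p : Mn n ℤ_[p]) * (Y * S) + Y * X ^ (p - 2)) ?_
      ⟨m, hm, by rw [← pow_mul, mul_comm, pow_mul, hA, one_pow]⟩
    have hXp : X ^ p = X * X * X ^ (p - 2) := by
      rw [← pow_two, ← pow_add]
      congr 1
      omega
    rw [hS, hXp, hXY, smul_eq]
    noncomm_ring
  refine ⟨h1, fun h5 => ?_⟩
  have hAp := h1 (by omega)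
  have hXp : X ^ p = (X * X) * (X * X) * X ^ (p - 4) := by
    rw [← pow_two, ← pow_two, ← pow_mul, ← pow_add]
    congr 1
    omega
  rw [hAp, hXp, hXY] at hS
  have hS2 : (p : Mn n ℤ_[p]) * (X + (p : Mn n ℤ_[p]) * (Y * S + Y * Y * X ^ (p - 4))) = 0 := by
    have e : (p : Mn n ℤ_[p]) * Y * ((p : Mn n ℤ_[p]) * Y) * X ^ (p - 4) =
        (p : Mn n ℤ_[p]) * ((p : Mn n ℤ_[p]) * (Y * Y * X ^ (p - 4))) := by
      rw [mul_assoc (p : Mn n ℤ_[p]) Y, ← mul_assoc Y, comm Y]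
      simp only [mul_assoc]
    rw [e] at hS
    have hS3 := hS.symm
    rw [← sub_eq_zero] at hS3
    rw [← hS3]
    noncomm_ring
  have hp0 : (p : ℤ_[p]) ≠ 0 := by
    exact_mod_cast hp.ne_zero
  rw [← smul_eq] at hS2
  have hX0 : X + (p : Mn n ℤ_[p]) * (Y * S + Y * Y * X ^ (p - 4)) = 0 := by
    rcases smul_eq_zero.mp hS2 with h | h
    · exact absurd h hp0
    · exact h
  refine hTF n p (by omega) A (-(Y * S + Y * Y * X ^ (p - 4))) ?_ ⟨m, hm, hA⟩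
  rw [smul_eq, mul_neg]
  generalize (p : Mn n ℤ_[p]) * (Y * S + Y * Y * X ^ (p - 4)) = Q at hX0
  rw [hAX, eq_neg_of_add_eq_zero_left hX0]
  abel

end Pool.Agent.T2h96.ST
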