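import Pool.Agent.T2h96.ST.Stm2

/-!
# (TORA) the torsion case for all `n ≥ 3`: assembly
-/

set_option autoImplicit false

namespace Pool.Agent.T2h96.ST

open Matrix Pool.Agent.T2h61.PR Pool.Agent.T2h96.SN Pool.Agent.T2h96.SM

theorem t_TORA (hAL : S_AL) (hGO : S_GO) (hG2 : S_G2) (hG3 : S_G3) (hG4 : S_G4) : S_TORA := by
  intro n _ hn ι Λ _ x κ hFG hRF hFQ hx hN
  by_contra hcon
  push Not at hcon
  have hcon' : ∀ i, ∀ γ ∈ Subgroup.closure (x '' {t | κ t ≠ i}), IsOfFinOrder γ := by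
    intro i γ hγ
    exact hcon i γ hγ
  have hfin : ∀ t, IsOfFinOrder (x t) := by
    intro t
    have hne : ∃ i : Fin n, κ t ≠ i := by
      by_cases h : κ t = ⟨0, by omega⟩
      · refine ⟨⟨1, by omega⟩, ?_⟩
        rw [h]
        intro h'
        simpa using congrArg Fin.val h'
      · exact ⟨_, h⟩
    obtain ⟨i, hi⟩ := hne
    exact hcon' i _ (Subgroup.subset_closure ⟨t, hi, rfl⟩)
  obtain ⟨p, hp, ρ, hρ, hNF⟩ := hAL n (by omega) ι Λ x κ hFG hRF hFQ hx hN hfin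
  have h2 := hp.out.two_le
  rcases Nat.lt_or_ge 2 p with h | h
  · exact hGO n p (by omega) h ι Λ x κ ρ hNF hcon'
  · have hp2 : p = 2 := le_antisymm h h2
    subst hp2
    rcases Nat.lt_or_ge n 5 with h5 | h5
    · have h34 : n = 3 ∨ n = 4 := by omega
      rcases h34 with h3 | h4
      · subst h3
        exact hG3 ι Λ x κ hFG hFQ hx hcon' ρ hρ hNF
      · subst h4
        exact hG4 ι Λ x κ hcon' ρ hNF
    · exact hG2 n h5 ι Λ x κ hFG hRF hFQ hN hcon' ρ hρ hNF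

end Pool.Agent.T2h96.ST
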