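import Pool.Agent.T2h96.ST.Stm2

/-!
TRF: elements of finite order in the kernel of one representation are in the kernel of the others.
-/

set_option autoImplicit false

namespace Pool.Agent.T2h96.ST

open Matrix Pool.Agent.T2h61.PR Pool.Agent.T2h96.SN

theorem t_TRF : S_CTQ → S_C2 → S_TRF := by
  intro hCT hC n hn Λ _ hFG hSF p q _ _ ρ σ hρ hσ l hl hs
  obtain ⟨m, hm, hlm⟩ := isOfFinOrder_iff_pow_eq_one.1 hl
  have h1 : ∀ k : ℕ, (ρ (l ^ k) : Mn n ℤ_[p]).trace = (n : ℤ_[p]) := by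
    intro k
    exact hCT n hn Λ hFG hSF p q ρ σ hρ hσ (l ^ k) (by rw [map_pow, hs, one_pow])
  have h2 : (ρ l : Mn n ℤ_[p]).map (PadicInt.Coe.ringHom (p := p)) = 1 := by
    refine hC n ℚ_[p] _ m hm ?_ fun k => ?_
    · rw [← Matrix.map_pow, ← Matrix.SpecialLinearGroup.coe_pow, ← map_pow, hlm, map_one,
        Matrix.SpecialLinearGroup.coe_one, Matrix.map_one _ (map_zero _) (map_one _)]
    · have h3 := congrArg (PadicInt.Coe.ringHom (p := p)) (h1 k)
      rw [map_pow, Matrix.SpecialLinearGroup.coe_pow, map_natCast] at h3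
      rw [← h3, ← Matrix.map_pow]
      exact (AddMonoidHom.map_trace (PadicInt.Coe.ringHom (p := p)).toAddMonoidHom _).symm
  apply Matrix.SpecialLinearGroup.ext
  intro i j
  have h4 := congrFun (congrFun h2 i) j
  rw [Matrix.map_apply] at h4
  have h5 : (PadicInt.Coe.ringHom (p := p)) ((ρ l : Mn n ℤ_[p]) i j) =
      (PadicInt.Coe.ringHom (p := p)) ((1 : Mn n ℤ_[p]) i j) := by
    rw [h4, Matrix.one_apply, Matrix.one_apply]
    split_ifs <;> simp
  exact Subtype.ext h5

end Pool.Agent.T2h96.ST
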