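import Pool.Agent.T2h96.ST.Stm2

/-!
# Elements of order `4` in `SL (4, ℤ_2)` whose square is `1 + w ⊗ φ` modulo `2`
-/

set_option autoImplicit false

namespace Pool.Agent.T2h96.ST

open Matrix Pool.Agent.T2h61.PR Pool.Agent.T2h96.SN Pool.Agent.T2h96.SM

namespace TT

/-- an equation over the `2`-adic integers gives one modulo `64` -/
theorem red (t : ℤ_[2]) (c : ℤ) (h : t * t = (c : ℤ_[2])) :
    ∃ a : ZMod (2 ^ 6), a * a = (c : ZMod (2 ^ 6)) := by
  refine ⟨PadicInt.toZModPow 6 t, ?_⟩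
  rw [← map_mul, h, map_intCast]

theorem no32 (t : ℤ_[2]) (h : t * t = -32) : False := by
  obtain ⟨a, ha⟩ := red t (-32) (by rw [h]; norm_num)
  have h3 : ∀ a : ZMod (2 ^ 6), a * a ≠ ((-32 : ℤ) : ZMod (2 ^ 6)) := by decide
  exact h3 _ ha

theorem no12 (t : ℤ_[2]) (h : t * t = 12) : False := by
  obtain ⟨a, ha⟩ := red t 12 (by rw [h]; norm_num)
  have h3 : ∀ a : ZMod (2 ^ 6), a * a ≠ ((12 : ℤ) : ZMod (2 ^ 6)) := by decide
  exact h3 _ ha

theorem no12' (t : ℤ_[2]) (h : t * t = -12) : False := by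
  obtain ⟨a, ha⟩ := red t (-12) (by rw [h]; norm_num)
  have h3 : ∀ a : ZMod (2 ^ 6), a * a ≠ ((-12 : ℤ) : ZMod (2 ^ 6)) := by decide
  exact h3 _ ha

theorem no_unit (k : ℤ_[2]) (h : 64 * (k * k) = 16) : False := by
  have h1 : (16 : ℤ_[2]) * (4 * (k * k) - 1) = 0 := by linear_combination h
  rcases mul_eq_zero.1 h1 with h2 | h2
  · norm_num at h2
  · have h3 := congrArg (PadicInt.toZModPow 6) h2
    rw [map_sub, map_mul, map_mul, map_one, map_zero] at h3
    have h4 : ∀ a : ZMod (2 ^ 6), PadicInt.toZModPow 6 (4 : ℤ_[2]) * (a * a) - 1 ≠ 0 := by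
      have h5 : PadicInt.toZModPow 6 (4 : ℤ_[2]) = (4 : ZMod (2 ^ 6)) := by
        simpa using map_natCast (PadicInt.toZModPow (p := 2) 6) 4
      rw [h5]
      decide
    exact h4 _ h3

/-- a determinant divisible by `8` -/
theorem det8 (Y : Mn 4 ℤ_[2]) (w φ : Fin 4 → ℤ_[2]) :
    ∃ k : ℤ_[2], (Matrix.vecMulVec w φ + (2 : ℤ_[2]) • Y).det = 8 * k := by
  set C : Matrix (Fin 4) Unit ℤ_[2] := Matrix.replicateCol Unit w with hC
  set D : Matrix Unit (Fin 4) ℤ_[2] := Matrix.replicateRow Unit φ with hD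
  have e0 : Matrix.vecMulVec w φ = C * D := by
    rw [hC, hD, Matrix.vecMulVec_eq Unit]
  have e1 : (Matrix.vecMulVec w φ + (2 : ℤ_[2]) • Y).det =
      (Matrix.fromBlocks ((2 : ℤ_[2]) • Y) (-C) D 1).det := by
    rw [Matrix.det_fromBlocks_one₂₂, e0, Matrix.neg_mul, sub_neg_eq_add, add_comm]
  have e2 : Matrix.fromBlocks ((2 : ℤ_[2]) • Y) (-C) D 1 *
      Matrix.fromBlocks (1 : Matrix (Fin 4) (Fin 4) ℤ_[2]) 0 0 ((2 : ℤ_[2]) • (1 : Matrix Unit Unit ℤ_[2])) =
      Matrix.fromBlocks ((2 : ℤ_[2]) • (1 : Matrix (Fin 4) (Fin 4) ℤ_[2])) 0 0 1 *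
        Matrix.fromBlocks Y (-C) D ((2 : ℤ_[2]) • (1 : Matrix Unit Unit ℤ_[2])) := by
    rw [Matrix.fromBlocks_multiply, Matrix.fromBlocks_multiply]
    simp
  have e3 := congrArg Matrix.det e2
  rw [Matrix.det_mul, Matrix.det_mul, Matrix.det_fromBlocks_zero₂₁, Matrix.det_fromBlocks_zero₂₁,
    Matrix.det_smul, Matrix.det_smul, Matrix.det_one, Matrix.det_one, ← e1] at e3
  refine ⟨(Matrix.fromBlocks Y (-C) D ((2 : ℤ_[2]) • (1 : Matrix Unit Unit ℤ_[2]))).det, ?_⟩
  have e4 : (2 : ℤ_[2]) ≠ 0 := by norm_num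
  apply mul_left_cancel₀ e4
  simp only [Fintype.card_fin, Fintype.card_unit] at e3
  linear_combination e3

end TT

theorem t_TT : S_NW4 → S_TZ → S_TT := by
  intro hN hZ h hi Y w φ hd hhi hJ hJJ hJ1 hJ2
  have hih : hi * h = 1 := mul_eq_one_comm.1 hhi
  have dJ : (h * h).det = 1 := by rw [Matrix.det_mul, hd, one_mul]
  have hneg : h * h * (h * h) ≠ -1 := by
    intro hm
    have e1 : (h * h - 1) * (h * h - 1) = (-2 : ℤ_[2]) • (h * h) := by
      have : (h * h - 1) * (h * h - 1) = h * h * (h * h) - h * h - h * h + 1 := by noncomm_ring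
      rw [this, hm]
      rw [neg_smul, two_smul]
      abel
    have e2 : (h * h - 1).det * (h * h - 1).det = 16 := by
      rw [← Matrix.det_mul, e1, Matrix.det_smul, dJ]
      norm_num
    have e3 : h * h - 1 = Matrix.vecMulVec w φ + (2 : ℤ_[2]) • Y := by
      rw [hJ]; abel
    obtain ⟨k, hk⟩ := TT.det8 Y w φ
    rw [e3, hk] at e2
    exact TT.no_unit k (by linear_combination e2)
  have h1 : h * h * (h * h) = 1 := hJJ.resolve_right hneg
  have trJ : (h * h).trace = 0 := hZ (h * h) dJ (Or.inl h1) hJ1 hJ2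
  have e1 : hi = h * h * h := by
    calc hi = hi * (h * h * (h * h)) := by rw [h1, mul_one]
      _ = (hi * h) * (h * h * h) := by noncomm_ring
      _ = h * h * h := by rw [hih, one_mul]
  have e2 : hi * hi = h * h := by
    rw [e1]
    calc h * h * h * (h * h * h) = h * h * (h * h) * (h * h) := by noncomm_ring
      _ = h * h := by rw [h1, one_mul]
  have e3 : hi * hi * hi = h := by
    rw [e2, e1]
    calc h * h * (h * h * h) = h * h * (h * h) * h := by noncomm_ring
      _ = h := by rw [h1, one_mul]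
  have di : hi.det = 1 := by
    have := congrArg Matrix.det hhi
    rw [Matrix.det_mul, hd, one_mul, Matrix.det_one] at this
    exact this
  have w1 := hN ℤ_[2] h
  have w2 := hN ℤ_[2] hi
  have tr1 : (1 : Mn 4 ℤ_[2]).trace = 4 := by simp
  rw [hd, trJ, ← e1, h1, tr1] at w1
  rw [di, e3, e2, trJ, h1, tr1] at w2
  set t := h.trace with ht
  set t' := hi.trace with ht'
  have p1 : t ^ 4 = 48 - 8 * (t * t') := by linear_combination -w1
  have p2 : t' ^ 4 = 48 - 8 * (t * t') := by linear_combination -w2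
  have p3 : (t * t') ^ 4 = (48 - 8 * (t * t')) ^ 2 := by
    rw [mul_pow, p1, p2, pow_two]
  have p4 : (t * t' - 4) * ((t * t' + 12) * ((t * t' - 4) * (t * t' - 4) + 32)) = 0 := by
    linear_combination p3
  rcases mul_eq_zero.1 p4 with p5 | p5
  · linear_combination p5
  rcases mul_eq_zero.1 p5 with p5 | p5
  · exfalso
    have p6 : t * t' = -12 := by linear_combination p5
    rw [p6] at p1
    have p7 : (t * t - 12) * (t * t + 12) = 0 := by linear_combination p1
    rcases mul_eq_zero.1 p7 with p8 | p8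
    · exact TT.no12 t (by linear_combination p8)
    · exact TT.no12' t (by linear_combination p8)
  · exact (TT.no32 (t * t' - 4) (by linear_combination p5)).elim

end Pool.Agent.T2h96.ST
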