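import Pool.Agent.T2h96.ST.Stm2

/-!
# Traces of `4 × 4` matrices over the `2`-adic integers whose square is `± 1`
-/

set_option autoImplicit false

namespace Pool.Agent.T2h96.ST

open Matrix Pool.Agent.T2h61.PR Pool.Agent.T2h96.SN Pool.Agent.T2h96.SM

namespace TZ

/-- over the `2`-adic integers an equation in the trace modulo `64` -/
theorem no_sq (t : ℤ_[2]) (h : t * t = -16) : False := by
  have h1 := congrArg (PadicInt.toZModPow 6) h
  have h2 : PadicInt.toZModPow 6 t * PadicInt.toZModPow 6 t = (-16 : ZMod (2 ^ 6)) := by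
    rw [← map_mul, h1, map_neg]
    congr 1
    simpa using map_natCast (PadicInt.toZModPow (p := 2) 6) 16
  have h3 : ∀ a : ZMod (2 ^ 6), a * a ≠ -16 := by decide
  exact h3 _ h2

/-- a matrix over the `2`-adic integers with square `1` and trace `4` -/
theorem one_of (hC : S_C2) (h : Mn 4 ℤ_[2]) (h1 : h * h = 1) (h2 : h.trace = 4) : h = 1 := by
  have inj : Function.Injective (algebraMap ℤ_[2] ℚ_[2]) := fun a b hab => by
    exact PadicInt.ext hab
  set T : Mn 4 ℚ_[2] := h.map (algebraMap ℤ_[2] ℚ_[2]) with hT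
  have hTT : T * T = 1 := by
    rw [hT, ← Matrix.map_mul, h1, Matrix.map_one _ (map_zero _) (map_one _)]
  have htr : T.trace = 4 := by
    have : T.trace = algebraMap ℤ_[2] ℚ_[2] h.trace := by
      rw [hT]
      simp [Matrix.trace, map_sum]
    rw [this, h2]
    simpa using map_natCast (algebraMap ℤ_[2] ℚ_[2]) 4
  have h4 : T = 1 := by
    refine hC 4 ℚ_[2] T 2 (by norm_num) (by rw [pow_two, hTT]) ?_
    intro k
    induction k using Nat.twoStepInduction with
    | zero => simp
    | one => simp [htr]
    | more n ih _ =>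
      rw [show n + 2 = 2 + n by ring, pow_add, pow_two, hTT, one_mul]
      exact ih
  ext i j
  have h5 : T i j = (1 : Mn 4 ℚ_[2]) i j := by rw [h4]
  have h6 : algebraMap ℤ_[2] ℚ_[2] (h i j) = algebraMap ℤ_[2] ℚ_[2] ((1 : Mn 4 ℤ_[2]) i j) := by
    have h7 : T i j = algebraMap ℤ_[2] ℚ_[2] (h i j) := rfl
    rw [← h7, h5]
    by_cases hij : i = j
    · subst hij; simp
    · simp [Matrix.one_apply_ne hij]
  exact inj h6

end TZ

theorem t_TZ : S_NW4 → S_C2 → S_TZ := by
  intro hN hC h hd hh hn1 hn2
  have hw := hN ℤ_[2] h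
  rw [hd] at hw
  rcases hh with h1 | h1
  · have e1 : (h * h).trace = 4 := by rw [h1]; simp
    have e2 : (h * h * h).trace = h.trace := by rw [h1, one_mul]
    have e3 : (h * h * (h * h)).trace = 4 := by rw [h1, one_mul]; simp
    rw [e1, e2, e3] at hw
    have e4 : h.trace * (h.trace * ((h.trace - 4) * (h.trace + 4))) = 0 := by linear_combination -hw
    rcases mul_eq_zero.1 e4 with e5 | e5
    · exact e5
    rcases mul_eq_zero.1 e5 with e5 | e5
    · exact e5
    rcases mul_eq_zero.1 e5 with e5 | e5
    · exact absurd (TZ.one_of hC h h1 (by linear_combination e5)) hn1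
    · exfalso
      apply hn2
      have : -h = 1 := TZ.one_of hC (-h) (by simpa using h1)
        (by rw [Matrix.trace_neg]; linear_combination -e5)
      rw [← this, neg_neg]
  · have e1 : (h * h).trace = -4 := by rw [h1, Matrix.trace_neg]; simp
    have e2 : (h * h * h).trace = -h.trace := by rw [h1, neg_one_mul, Matrix.trace_neg]
    have e3 : (h * h * (h * h)).trace = 4 := by rw [h1]; simp
    rw [e1, e2, e3] at hw
    have e4 : h.trace * (h.trace * (h.trace * h.trace + 16)) = 0 := by linear_combination -hw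
    rcases mul_eq_zero.1 e4 with e5 | e5
    · exact e5
    rcases mul_eq_zero.1 e5 with e5 | e5
    · exact e5
    exact (TZ.no_sq h.trace (by linear_combination e5)).elim

end Pool.Agent.T2h96.ST
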