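import Pool.Agent.T2h96.ST.Stm
import Pool.Agent.H373SQ.CardPSL

/-!
VB: the order of a `2`-subgroup of `SL (n, F_3)`.
-/

set_option autoImplicit false

namespace Pool.Agent.T2h96.ST

open Matrix Pool.Agent.T2h61.PR

namespace VB

theorem pos3 (f : ℕ) (hf : 1 ≤ f) : 3 ^ f - 1 ≠ 0 := by
  have : 3 ^ 1 ≤ 3 ^ f := Nat.pow_le_pow_right (by norm_num) hf
  omega

theorem val_le {a k : ℕ} (ha : a ≠ 0) (h : ¬ 2 ^ (k + 1) ∣ a) : padicValNat 2 a ≤ k := by
  by_contra hc
  apply h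
  rw [padicValNat_dvd_iff_le ha]
  omega

theorem v_odd (f : ℕ) (hf : f % 2 = 1) : padicValNat 2 (3 ^ f - 1) ≤ 1 := by
  apply val_le (pos3 f (by omega))
  intro h
  have h' : 4 ∣ 3 ^ f - 1 := by simpa using h
  have h1 : 3 ^ f % 4 = 3 := by
    obtain ⟨g, rfl⟩ : ∃ g, f = 2 * g + 1 := ⟨f / 2, by omega⟩
    rw [pow_succ, pow_mul, Nat.mul_mod, Nat.pow_mod]
    norm_num
  have h2 : 1 ≤ 3 ^ f := Nat.one_le_pow _ _ (by norm_num)
  generalize 3 ^ f = x at *
  omega

theorem v_plus (g : ℕ) : padicValNat 2 (3 ^ g + 1) ≤ 2 := by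
  apply val_le (Nat.succ_ne_zero _)
  intro h
  have h' : 8 ∣ 3 ^ g + 1 := by simpa using h
  have h1 : ∀ k : ℕ, 3 ^ k % 8 = 1 ∨ 3 ^ k % 8 = 3 := by
    intro k
    induction k with
    | zero => left; rfl
    | succ k ih => rw [pow_succ]; omega
  have := h1 g
  omega

theorem v_le (f : ℕ) (hf : 6 ≤ f) : padicValNat 2 (3 ^ f - 1) ≤ f - 1 := by
  induction f using Nat.strong_induction_on with
  | _ f ih =>
    rcases Nat.mod_two_eq_zero_or_one f with h | h
    · obtain ⟨g, rfl⟩ : ∃ g, f = 2 * g := ⟨f / 2, by omega⟩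
      have e : 3 ^ (2 * g) - 1 = (3 ^ g - 1) * (3 ^ g + 1) := by
        have h1 : 1 ≤ 3 ^ g := Nat.one_le_pow _ _ (by norm_num)
        have h2 : 3 ^ (2 * g) = 3 ^ g * 3 ^ g := by rw [two_mul, pow_add]
        rw [h2]
        obtain ⟨y, hy⟩ : ∃ y, 3 ^ g = y + 1 := ⟨3 ^ g - 1, by omega⟩
        rw [hy, Nat.add_sub_cancel]
        have e1 : (y + 1) * (y + 1) = y * (y + 1 + 1) + 1 := by ring
        rw [e1, Nat.add_sub_cancel]
      rw [e, padicValNat.mul (pos3 g (by omega)) (show 3 ^ g + 1 ≠ 0 from Nat.succ_ne_zero _)]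
      have h2 := v_plus g
      by_cases hg : 6 ≤ g
      · have := ih g (by omega) hg
        omega
      · have hg' : g = 3 ∨ g = 4 ∨ g = 5 := by omega
        rcases hg' with rfl | rfl | rfl
        · have := v_odd 3 rfl
          omega
        · have : padicValNat 2 (3 ^ 4 - 1) ≤ 4 := val_le (by norm_num) (by norm_num)
          omega
        · have := v_odd 5 rfl
          omega
    · have := v_odd f h
      omega

theorem v_prod (n : ℕ) (hn : 5 ≤ n) :
    (∏ i ∈ Finset.Icc 2 n, (3 ^ i - 1)) ≠ 0 ∧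
    padicValNat 2 (∏ i ∈ Finset.Icc 2 n, (3 ^ i - 1)) < n * (n - 1) / 2 := by
  induction n, hn using Nat.le_induction with
  | base =>
    have e : ∏ i ∈ Finset.Icc 2 5, (3 ^ i - 1) = 4026880 := by decide
    rw [e]
    refine ⟨by norm_num, ?_⟩
    have : padicValNat 2 4026880 ≤ 9 := val_le (by norm_num) (by norm_num)
    omega
  | succ n hn ih =>
    rw [Finset.prod_Icc_succ_top (by omega)]
    refine ⟨mul_ne_zero ih.1 (pos3 _ (by omega)), ?_⟩
    rw [padicValNat.mul ih.1 (pos3 _ (by omega))]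
    have h1 := v_le (n + 1) (by omega)
    have h2 : (n + 1) * (n + 1 - 1) / 2 = n * (n - 1) / 2 + n := by
      have e : (n + 1) * (n + 1 - 1) = n * (n - 1) + n * 2 := by
        obtain ⟨m, rfl⟩ : ∃ m, n = m + 1 := ⟨n - 1, by omega⟩
        simp only [Nat.add_sub_cancel]
        ring
      rw [e, Nat.add_mul_div_right _ _ (by norm_num)]
    have := ih.2
    omega

end VB

open VB in
theorem t_VB : S_VB := by
  intro n hn H hH
  have hfin : Finite (SLn n (ZMod 3)) := inferInstance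
  have hp : IsPGroup 2 H := by
    intro h
    obtain ⟨k, hk⟩ := hH h.1 h.2
    exact ⟨k, Subtype.ext hk⟩
  have : Fact (Nat.Prime 2) := ⟨Nat.prime_two⟩
  have : Fact (Nat.Prime 3) := ⟨Nat.prime_three⟩
  obtain ⟨e, he⟩ := IsPGroup.iff_card.1 hp
  have h1 := Subgroup.card_subgroup_dvd_card H
  have h2 := Pool.Agent.H373SQ.card_SL n (by omega) (ZMod 3)
  rw [he, h2, Nat.card_zmod, Pool.Agent.H373SQ.numPSL] at h1
  have h3 : 2 ^ e ∣ ∏ i ∈ Finset.Icc 2 n, (3 ^ i - 1) :=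
    Nat.Coprime.dvd_of_dvd_mul_left (Nat.Coprime.pow _ _ (by norm_num)) h1
  obtain ⟨h4, h5⟩ := v_prod n hn
  rw [padicValNat_dvd_iff_le h4] at h3
  rw [he]
  exact Nat.pow_lt_pow_right (by norm_num) (by omega)

end Pool.Agent.T2h96.ST
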