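import Pool.Agent.T2h96.SM.Fin
import Pool.Agent.T2h96.ST.T_AL
import Pool.Agent.T2h96.ST.T_B4
import Pool.Agent.T2h96.ST.T_C2
import Pool.Agent.T2h96.ST.T_COM
import Pool.Agent.T2h96.ST.T_CTQ
import Pool.Agent.T2h96.ST.T_D3
import Pool.Agent.T2h96.ST.T_DIC
import Pool.Agent.T2h96.ST.T_DZ
import Pool.Agent.T2h96.ST.T_EA
import Pool.Agent.T2h96.ST.T_EE
import Pool.Agent.T2h96.ST.T_EX
import Pool.Agent.T2h96.ST.T_G2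
import Pool.Agent.T2h96.ST.T_G3
import Pool.Agent.T2h96.ST.T_G4
import Pool.Agent.T2h96.ST.T_GA
import Pool.Agent.T2h96.ST.T_GO
import Pool.Agent.T2h96.ST.T_MA
import Pool.Agent.T2h96.ST.T_MAXA
import Pool.Agent.T2h96.ST.T_MB
import Pool.Agent.T2h96.ST.T_NS2
import Pool.Agent.T2h96.ST.T_NW4
import Pool.Agent.T2h96.ST.T_PP
import Pool.Agent.T2h96.ST.T_Q3
import Pool.Agent.T2h96.ST.T_T3
import Pool.Agent.T2h96.ST.T_TF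
import Pool.Agent.T2h96.ST.T_TF4
import Pool.Agent.T2h96.ST.T_TF5
import Pool.Agent.T2h96.ST.T_TORA
import Pool.Agent.T2h96.ST.T_TRF
import Pool.Agent.T2h96.ST.T_TT
import Pool.Agent.T2h96.ST.T_TZ
import Pool.Agent.T2h96.ST.T_UB
import Pool.Agent.T2h96.ST.T_VB

/-!
# Assembly of the torsion case and of the theorem for all `n ≥ 3`
-/

set_option autoImplicit false

namespace Pool.Agent.T2h96.ST

open Pool.Agent.T2h61.PR Pool.Agent.T2h96.SN Pool.Agent.T2h96.SM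

theorem m_CTQ : S_CTQ := t_CTQ m_CT inf

theorem m_DIC : S_DIC := t_DIC t_JOR (t_TXA m_NFX t_NIL) (t_TXB t_NIL)

theorem m_AL : S_AL := t_AL pad t_DZ m_DIC (t_PP t_NIL) t_NS2 t_COM m_CTQ

theorem m_GO : S_GO := t_GO t_TF (t_TF5 t_TF) t_T3

theorem m_G2 : S_G2 := t_G2 pad t_NIL (t_PP t_NIL) m_CTQ t_TF t_C2 t_UB t_VB

theorem m_EX : S_EX := t_EX (t_EE t_TF4 t_EA)

theorem m_G3 : S_G3 := t_G3 pad t_DZ (t_TRF m_CTQ t_C2) m_EX (t_Q3 t_MA t_MB) (t_D3 m_CT inf pad)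

theorem m_TZ : S_TZ := t_TZ t_NW4 t_C2

theorem m_G4 : S_G4 := t_G4 m_EX m_TZ (t_TT t_NW4 m_TZ) t_B4 t_GA

theorem m_TORA : S_TORA := t_TORA m_AL m_GO m_G2 m_G3 m_G4

theorem m_MAXA : ∀ n : ℕ, 3 ≤ n → ∀ (Λ : Type) [Group Λ], Group.FG Λ → RF Λ →
    SameFQ Λ (SLn n ℤ) → ∀ N : Fin n → Subgroup Λ, (⨆ i, N i) = ⊤ →
    (∀ (Q : Type) [Group Q] [Finite Q] (f : Λ →* Q) (i : Fin n),
      Group.IsNilpotent ((⨆ j ∈ ({i}ᶜ : Set (Fin n)), N j).map f)) →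
    Nonempty (Λ ≃* SLn n ℤ) :=
  t_MAXA m_TORA (t_X1 t_NFS) t_CHZ t_PERF t_JL (t_X3 m_CT t_JL) (t_X4 t_PER) (t_X5 m_CT pad inf)
    (t_XB t_JL t_PER t_UT t_XA) m_INX

end Pool.Agent.T2h96.ST
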