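import Pool.Agent.T2h96.SM.Stm

/-!
# The torsion case: for `n ≥ 5` one of the groups `⟨N j | j ≠ i⟩` is not periodic

Here all elements of the groups `P i = ⟨x t | κ t ≠ i⟩` have finite order; this is impossible for
`n ≥ 5`. Outline: there is a prime `p` such that the reduction modulo `p` of a `p`-adic
representation `ρ` is in normal form (AL). For odd `p` two adjacent generators give a contradiction
(GO); for `p = 2` the `2`-group generated by the `2`-parts of the `x t`, `κ t ≠ i`, has at least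
`2 ^ (n (n-1) / 2)` elements modulo `2`, and it embeds in `SL (n, F_3)`, which has no such
`2`-subgroups for `n ≥ 5` (G2).
-/

set_option autoImplicit false

namespace Pool.Agent.T2h96.ST

open Matrix Pool.Agent.T2h61.PR Pool.Agent.T2h96.SN Pool.Agent.T2h96.SM

/-- the reduction modulo `p` of a `p`-adic representation -/
noncomputable def rp {n p : ℕ} [Fact p.Prime] {Λ : Type} [Group Λ] (ρ : Λ →* SLn n ℤ_[p]) :
    Λ →* SLn n (ZMod p) :=
  (Matrix.SpecialLinearGroup.map (n := Fin n) (PadicInt.toZMod (p := p))).comp ρ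

/-- (DZ, 40 lines) Proof. `Dn` with `s = 1` and `ZMod (p ^ 1) ≃+* ZMod p`; `PadicInt.toZMod` is the
composition of `PadicInt.toZModPow 1` with this isomorphism (both map natural numbers to their
classes and kill `p`). -/
def S_DZ : Prop := ∀ (n p : ℕ) [Fact p.Prime] (Λ : Type) [Group Λ] (ρ : Λ →* SLn n ℤ_[p]), Dn ρ →
  Function.Surjective (rp ρ)

/-- (DIC, 40 lines; takes `S_JOR`, `S_TXA`, `S_TXB`; as T2h96/SM/T_TXP.lean) dichotomy. -/
def S_DIC : Prop := ∀ (n ℓ : ℕ) [NeZero n] [Fact ℓ.Prime], 3 ≤ n → ∀ (ι Λ : Type) [Group Λ]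
  (x : ι → Λ) (κ : ι → Fin n), Subgroup.closure (Set.range x) = ⊤ →
  ∀ f : Λ →* SLn n (ZMod ℓ), Function.Surjective f → NilCol (fun t => f (x t)) κ →
  NFormX x κ f ∨ ∀ t, (orderOf (f (x t))).Coprime ℓ

/-- (PP, 120 lines; takes `S_NIL`) `p`-parts in `Λ`.
Proof. `orderOf (x t) = p ^ k * m` with `m` prime to `p`, `u p ^ k + v m = 1`,
`a t = x t ^ (v m)`, `b t = x t ^ (u p ^ k)` (integer exponents). `a t`, `b s` commute: otherwise
their commutator is not in some subgroup of finite index, so not in its normal core `M`; in the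
finite quotient `Q = Λ ⧸ M` (map `f`) choose a colour `i` different from `κ t`, `κ s` (`n ≥ 3`);
`f (a t)`, `f (b s)` are in the nilpotent group generated by the `f (x r)`, `κ r ≠ i`, the first has
`p`-power order, the second order prime to `p`, so they commute by NIL (1). -/
def S_PP : Prop := ∀ n : ℕ, 3 ≤ n → ∀ (ι Λ : Type) [Group Λ] (x : ι → Λ) (κ : ι → Fin n), RF Λ →
  (∀ (Q : Type) [Group Q] [Finite Q] (f : Λ →* Q), NilCol (fun t => f (x t)) κ) →
  (∀ t, IsOfFinOrder (x t)) → ∀ p : ℕ, p.Prime →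
  ∃ a b : ι → Λ, (∀ t, a t ∈ Subgroup.zpowers (x t)) ∧ (∀ t, b t ∈ Subgroup.zpowers (x t)) ∧
    (∀ t, x t = a t * b t) ∧ (∀ t, ∃ k : ℕ, a t ^ p ^ k = 1) ∧ (∀ t, (orderOf (b t)).Coprime p) ∧
    (∀ t s, a t * b s = b s * a t)

/-- (NS2, 180 lines) `SL (n, F_2)` is simple (and has trivial centre).
Proof. Let `h ∈ H`, `h ≠ 1`. Transvections: `1 + v ⊗ φ` (matrix `1 + vecMulVec v φ`), `φ v = 0`.
As the elementary matrices generate and the centre is trivial there is a transvection `e` with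
`k = e * h * e⁻¹ * h⁻¹ ≠ 1`, `k ∈ H`; `k` is a product of two transvections `1 + v ⊗ φ`,
`1 + v' ⊗ φ'`, so it fixes `ker φ ∩ ker φ' ≠ 0` (`n ≥ 3`) pointwise. Let `w ≠ 0` be fixed by `k`. If
there are `y` with `z = k y - y` not in `{0, w}` choose `ψ` with `ψ w = 0`, `ψ z ≠ 0`; then for
`e' = 1 + w ⊗ ψ`: `e' * k * e'⁻¹ * k⁻¹ = 1 + w ⊗ (ψ - ψ k⁻¹) ∈ H` is a transvection `≠ 1`.
Otherwise `k` itself is the transvection `1 + w ⊗ χ`. All transvections `≠ 1` are conjugate in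
`SL (n, F_2)` (choose bases: `v = e_0`, `φ` dual to `e_1`; over `F_2` every invertible matrix has
determinant `1`), so `H` contains an elementary matrix, so all (`Pool.Agent.H185.ZM.all_mem` in
H185/ZM/SLN.lean, or conjugation by permutations), so `H = ⊤` (`FF.gen_field`). -/
def S_NS2 : Prop := ∀ n : ℕ, 3 ≤ n →
  (∀ H : Subgroup (SLn n (ZMod 2)), H.Normal → H ≠ ⊥ → H = ⊤) ∧
  (∀ c : SLn n (ZMod 2), (∀ g, c * g = g * c) → c = 1)

/-- (COM, 120 lines) commutants.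
Proof. By induction on `k`: `p ^ k ∣ T i j` for `i ≠ j` and `p ^ k ∣ T i i - T j j`. Write
`T = T 0 0 • 1 + p ^ k • T'`; `T'` commutes with `S`, so its reduction modulo `p` commutes with
`SL (n, F_p)`, so it is scalar (commute with the elementary matrices), which gives the claim for
`k + 1`. An element of `ℤ_[p]` divisible by all `p ^ k` is zero. -/
def S_COM : Prop := ∀ (n p : ℕ) [Fact p.Prime], 2 ≤ n → ∀ S : Set (SLn n ℤ_[p]),
  (∀ y : SLn n (ZMod p), ∃ s ∈ S,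
    Matrix.SpecialLinearGroup.map (n := Fin n) (PadicInt.toZMod (p := p)) s = y) →
  ∀ T : Mn n ℤ_[p], (∀ s ∈ S, (s : Mn n ℤ_[p]) * T = T * (s : Mn n ℤ_[p])) →
  ∃ c : ℤ_[p], T = c • (1 : Mn n ℤ_[p])

/-- (CTQ, 80 lines; takes `S_CT`, `S_INF`) traces for different primes.
Proof. `CA.amalgam` (T_CA.lean) with `E = ℚ` gives a field `Ω` containing `ℚ_[p]` and `ℚ_[q]`. CT
over `Ω` for the representations from `ρ` and `σ` (infinite ranges by `S_INF`, see
T2h96/SN/T_INTG.lean); the traces of `σ l = 1` and `σ l⁻¹ = 1` are `n`. -/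
def S_CTQ : Prop := ∀ n : ℕ, 3 ≤ n → ∀ (Λ : Type) [Group Λ], Group.FG Λ → SameFQ Λ (SLn n ℤ) →
  ∀ (p q : ℕ) [Fact p.Prime] [Fact q.Prime] (ρ : Λ →* SLn n ℤ_[p]) (σ : Λ →* SLn n ℤ_[q]),
  Dn ρ → Dn σ → ∀ l, σ l = 1 → (ρ l : Mn n ℤ_[p]).trace = (n : ℤ_[p])

/-- (AL, 250 lines; takes `S_PAD`, `S_DZ`, `S_DIC`, `S_PP`, `S_NS2`, `S_COM`, `S_CTQ`) there is a
prime with normal form.
Proof. `σ` from PAD for the prime `2`, `f = rp σ`, onto by DZ. By DIC we may assume that all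
`f (x t)` have odd order. Some `f (x t) ≠ 1`; let `p` be a prime divisor of `orderOf (f (x t))`.
PP for `p`: `x s = a s * b s`. `f (a t) ≠ 1` (otherwise `f (x t) = f (b t)` has order prime to `p`).
The closure `H` of the `f (a s)` is normal in `SL (n, F_2)` (`f (x s) = f (a s) * f (b s)` and the
`b`'s commute with the `a`'s), so `H = ⊤` (NS2), so the `f (b s)` are central, so `f (b s) = 1`.
Let `L` be the closure of the `a s`: `f (L)` is everything, and `σ (b s)` commutes with `σ (L)`, so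
it is scalar by COM. So `σ` is commutative on the closure `L'` of the `b s`, and `σ l = 1` for `l` in
the commutator subgroup of `L'`. Let `ρ` from PAD for `p`. If `rp ρ` is not in normal form then by
DIC all `rp ρ (x s)` have order prime to `p`, so `rp ρ (a s) = 1` (it is a power of `rp ρ (x s)` of
`p`-power order), so `rp ρ (L')` is everything (`rp ρ` is onto, `x s = a s * b s`), so is
`rp ρ` of the commutator subgroup of `L'` (`SL (n, F_p)` is perfect: it is generated by the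
commutators `tr i k c = [tr i j c, tr j k 1]`). By CTQ all these elements have trace `n`, but
`tr 0 1 1 * tr 1 0 1` has trace `n + 1 ≠ n`. -/
def S_AL : Prop := ∀ (n : ℕ) [NeZero n], 3 ≤ n → ∀ (ι Λ : Type) [Group Λ] (x : ι → Λ)
  (κ : ι → Fin n), Group.FG Λ → RF Λ → SameFQ Λ (SLn n ℤ) → Subgroup.closure (Set.range x) = ⊤ →
  (∀ (Q : Type) [Group Q] [Finite Q] (f : Λ →* Q), NilCol (fun t => f (x t)) κ) →
  (∀ t, IsOfFinOrder (x t)) →
  ∃ (p : ℕ) (_ : Fact p.Prime) (ρ : Λ →* SLn n ℤ_[p]), Dn ρ ∧ NFormX (F := ZMod p) x κ (rp ρ)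

/-- (TF, 120 lines) the congruence subgroup modulo an odd prime is torsion free.
Proof. Suppose `A ≠ 1`; let `v ≥ 1` be the exact power of `p` dividing `X = A - 1`:
`X = p ^ v • W`, `W` not divisible by `p`. For `q` prime to `p` (or any prime `q`): `A ^ q - 1 =
q X + ∑_{j ≥ 2} choose q j X ^ j`, and `X ^ j` is divisible by `p ^ (2 v)`, `2 v > v`; so `A ^ q - 1`
has exact power `v` if `q ≠ p`, and exact power `v + 1` if `q = p` (`choose p j` is divisible by `p`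
for `2 ≤ j < p`, and `X ^ p` by `p ^ (3 v)`). By induction over the prime factors `A ^ m ≠ 1` for all
`m > 0`. (Or: `m ↦` exact power of `A ^ m - 1` is finite.) -/
def S_TF : Prop := ∀ (n p : ℕ) [Fact p.Prime], 2 < p → ∀ A W : Mn n ℤ_[p],
  A = 1 + (p : ℤ_[p]) • W → (∃ m : ℕ, 0 < m ∧ A ^ m = 1) → A = 1

/-- (TF5, 120 lines; takes `S_TF`)
Proof. `X = A - 1`, `X ^ 2 = p Y` (`X` and `Y` commute as `p X Y = X ^ 3 = p Y X`). (1) `p ≥ 3`:
`A ^ p - 1 = ∑_{1 ≤ j < p} choose p j X ^ j + X ^ p` is divisible by `p` (`X ^ p = p Y X ^ (p-2)`),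
so `A ^ p = 1` by TF. (2) `p ≥ 5`: `choose p j X ^ j` for `2 ≤ j < p` is divisible by `p ^ 2`
(`p ∣ choose p j`, `X ^ j = p Y X ^ (j-2)`) and `X ^ p = p ^ 2 Y ^ 2 X ^ (p-4)`. So
`0 = A ^ p - 1 = p X + p ^ 2 V`, so `X = - p V` and `A = 1` by TF. -/
def S_TF5 : Prop := ∀ (n p : ℕ) [Fact p.Prime], ∀ A Y : Mn n ℤ_[p],
  (A - 1) * (A - 1) = (p : ℤ_[p]) • Y → (∃ m : ℕ, 0 < m ∧ A ^ m = 1) →
  (2 < p → A ^ p = 1) ∧ (5 ≤ p → A = 1)

/-- (T3, 180 lines) no Heisenberg group over `ℤ_[3]`.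
Proof. `X = Z - 1` commutes with `A`, `B`, `Z`; `X ^ 3 = - 3 Z X`. (1) If `X v = 3 w` then
`3 X^2 w = X^3 v = - 3 Z X v = - 9 Z w`, so `X^2 w = - 3 Z w`, so `X v = - Z⁻¹ X^2 w`. (2) so for
every `v` there are `s`, `v'` with `X v = s X e + X^2 v'`; applying it twice,
`X v = s X e + s' X^2 e - 3 X (Z v'')`. So the range `N` of `X` satisfies
`N = span {X e, X^2 e} + 3 N`, so `N = span {X e, X^2 e}` (Nakayama, or iteration and completeness).
(3) `A X e = X A e = (α + β X) X e`, `B X e = (γ + δ X) X e`, so `A B X e = B A X e`; with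
`A B = Z B A` this gives `X B A X e = 0`, so `X^2 e = 0`, so `X^2 v = 0` for all `v` (as
`X v = α X e + β X^2 e`), so `- 3 Z X = X^3 = 0`, `X = 0`. -/
def S_T3 : Prop := ∀ (n : ℕ) (A B Z : (Mn n ℤ_[3])ˣ), Z ^ 3 = 1 → Z * A = A * Z → Z * B = B * Z →
  A * B = Z * (B * A) → ∀ e : Fin n → ℤ_[3],
  (∀ v : Fin n → ℤ_[3], ∃ (s : ℤ_[3]) (w : Fin n → ℤ_[3]),
    ((Z : Mn n ℤ_[3]) - 1) *ᵥ (v - s • e) = (3 : ℤ_[3]) • w) → Z = 1

/-- (GO, 250 lines; takes `S_TF`, `S_TF5`, `S_T3`) contradiction for odd `p`.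
Proof. `f = rp ρ`, `f (x t) = ζ t • (g * cy (π.symm (κ t)) (c t) * g⁻¹)`. Let `k = 0`; choose `t`,
`s` with `κ t = π k`, `κ s = π (k+1)`, `c t ≠ 0`, `c s ≠ 0`, and `i` a colour different from both
(`n ≥ 3`); `P = closure (x '' {κ ≠ i})` contains `x t`, `x s`. `z = x s * x t * (x s)⁻¹ * (x t)⁻¹`
has finite order, and `f z = g * (1 + single (k+2) k (c s * c t)) * g⁻¹` (the scalars cancel).
`Z = ρ z`: `(Z-1)^2 ≡ 0` modulo `p` (`k + 2 ≠ k`). If `p ≥ 5` then `Z = 1` by TF5, contradiction.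
Let `p = 3`: `Z ^ 3 = 1` by TF5. The commutators of `z` with `x t`, `x s` have finite order and their
images under `f` are trivial (`single (k+2) k` commutes with `single (k+1) k` and
`single (k+2) (k+1)`), so they are trivial under `ρ` by TF. T3 with `A = ρ (x s)`, `B = ρ (x t)`,
`e` a lift of `g e_k`: for `v` let `s` be a lift of the coordinate `k` of `g⁻¹ v`. So `Z = 1`,
contradiction. -/
def S_GO : Prop := ∀ (n p : ℕ) [NeZero n] [Fact p.Prime], 3 ≤ n → 2 < p → ∀ (ι Λ : Type) [Group Λ]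
  (x : ι → Λ) (κ : ι → Fin n) (ρ : Λ →* SLn n ℤ_[p]), NFormX (F := ZMod p) x κ (rp ρ) →
  (∀ i, ∀ γ ∈ Subgroup.closure (x '' {t | κ t ≠ i}), IsOfFinOrder γ) → False

/-- (C2, 80 lines) Proof. `E = (1/m) ∑_{k < m} T ^ k` is idempotent with `T E = E`, and its trace is
`n`. The trace of an idempotent is its rank (`LinearMap.IsIdempotentElem`/`IsProj.trace`, or
`LinearMap.IsProj`), so `E = 1` and `T = 1`. -/
def S_C2 : Prop := ∀ (n : ℕ) (K : Type) [Field K] [CharZero K] (T : Mn n K) (m : ℕ), 0 < m →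
  T ^ m = 1 → (∀ k : ℕ, (T ^ k).trace = (n : K)) → T = 1

/-- (UB, 180 lines) lower bound for the group generated by the `cy k 1`, `k ≠ k₀`.
Proof. Conjugating we may assume `g = 1`. Let `r a = (a - (k₀+1) : Fin n).val`. `H` contains
`transvection (k+1) k 1` for `k ≠ k₀`, so by commutators `transvection i j 1` for `r j < r i`. For
fixed `j` the `1 + ∑_i s i E_ij` (sum over `r j < r i`) are in `H`. Every `1 + X` with `X i j = 0`
unless `r j < r i` is the product `(1 + X_0) * (1 + X_1) * …` over the columns in the order of `r`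
(`X_r` = the column of rank `r`; `X_r * X_s = 0` for `r < s`), so it is in `H`. There are
`2 ^ (n(n-1)/2)` such matrices. -/
def S_UB : Prop := ∀ (n : ℕ) [NeZero n], 3 ≤ n → ∀ (H : Subgroup (SLn n (ZMod 2))) (k₀ : Fin n)
  (g : (Mn n (ZMod 2))ˣ), (∀ k, k ≠ k₀ → ∃ h ∈ H, (h : Mn n (ZMod 2)) =
    (g : Mn n (ZMod 2)) * cy k 1 * ((g⁻¹ : (Mn n (ZMod 2))ˣ) : Mn n (ZMod 2))) →
  2 ^ (n * (n - 1) / 2) ≤ Nat.card H

/-- (VB, 180 lines) upper bound for `2`-subgroups of `SL (n, F_3)`, `n ≥ 5`.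
Proof. `Nat.card H = 2 ^ e` (`IsPGroup.iff_card`) divides `Nat.card (SL)`, and
`2 * Nat.card (SL) = Nat.card (GL) = ∏_{i<n} (3^n - 3^i)` (`Matrix.card_GL_field`; the determinant is
onto) `= 3^(n(n-1)/2) * ∏_{f=1}^n (3^f-1)`. So `e + 1 ≤ ∑_{f=1}^n v_2 (3^f - 1)`, where
`v_2 (3^f-1)` is `1` for odd `f` and `v_2 f + 2` for even `f` (`3^(2g) - 1 = 9^g - 1`;
`padicValNat.pow_two_sub_pow` or `Nat.emultiplicity_two_pow_sub_pow`...). The sum for `n = 5` is
`1+3+1+4+1 = 10 = n(n-1)/2`, and `v_2 (3^f-1) ≤ f - 1` for `f ≥ 6`. -/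
def S_VB : Prop := ∀ n : ℕ, 5 ≤ n → ∀ H : Subgroup (SLn n (ZMod 3)), (∀ h ∈ H, ∃ k : ℕ, h ^ 2 ^ k = 1) →
  Nat.card H < 2 ^ (n * (n - 1) / 2)

/-- (G2, 250 lines; takes `S_PAD`, `S_NIL`, `S_PP`, `S_CTQ`, `S_TF`, `S_C2`, `S_UB`, `S_VB`)
contradiction for `p = 2`.
Proof. `σ : Λ →* SLn n ℤ_[3]` from PAD. `a t`, `b t` from PP for the prime `2`; fix a colour `i`, and
let `P'` be the closure of the `a t`, `κ t ≠ i` (contained in `P i = closure (x '' {κ ≠ i})`, so all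
its elements have finite order), `H2 = P'.map (rp ρ)`, `H3 = P'.map (rp σ)`. (1) for `k` with
`π k ≠ i` there is `t` with `κ t = π k`, `c t ≠ 0`, so `c t = 1` and `ζ t = 1` in `ZMod 2`, and
`rp ρ (x t) = g * cy k 1 * g⁻¹` has order `2`, so `rp ρ (b t) = 1` (a power of it of odd order) and
`rp ρ (a t) = rp ρ (x t)`; UB (`k₀ = π.symm i`): `2^(n(n-1)/2) ≤ Nat.card H2`. (2) `H3` is contained
in the closure of the `2`-elements of the finite nilpotent group `(P i).map (rp σ)`, so it is a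
`2`-group by NIL (2); VB: `Nat.card H3 < 2^(n(n-1)/2)`. (3) if `l ∈ P'`, `rp σ l = 1` then `σ l` is
`1 + 3 W` of finite order, so `σ l = 1` (TF), so `σ (l ^ k) = 1` and the trace of `ρ (l ^ k)` is `n`
for all `k` (CTQ), so `ρ l = 1` by C2 over `ℚ_[2]`; so `rp ρ l = 1`. So there is a surjection
`H3 → H2` and `Nat.card H2 ≤ Nat.card H3`. -/
def S_G2 : Prop := ∀ (n : ℕ) [NeZero n], 5 ≤ n → ∀ (ι Λ : Type) [Group Λ] (x : ι → Λ)
  (κ : ι → Fin n), Group.FG Λ → RF Λ → SameFQ Λ (SLn n ℤ) →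
  (∀ (Q : Type) [Group Q] [Finite Q] (f : Λ →* Q), NilCol (fun t => f (x t)) κ) →
  (∀ i, ∀ γ ∈ Subgroup.closure (x '' {t | κ t ≠ i}), IsOfFinOrder γ) →
  ∀ ρ : Λ →* SLn n ℤ_[2], Dn ρ → NFormX (F := ZMod 2) x κ (rp ρ) → False

/-- (TOR) the torsion case is impossible for `n ≥ 5`. -/
def S_TOR : Prop := ∀ (n : ℕ) [NeZero n], 5 ≤ n → ∀ (ι Λ : Type) [Group Λ] (x : ι → Λ)
  (κ : ι → Fin n), Group.FG Λ → RF Λ → SameFQ Λ (SLn n ℤ) → Subgroup.closure (Set.range x) = ⊤ →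
  (∀ (Q : Type) [Group Q] [Finite Q] (f : Λ →* Q), NilCol (fun t => f (x t)) κ) →
  ∃ i, ∃ γ ∈ Subgroup.closure (x '' {t | κ t ≠ i}), ¬ IsOfFinOrder γ

end Pool.Agent.T2h96.ST
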