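import Pool.Agent.T2h96.ST.Stm

/-!
# The torsion case for `n = 3` and `n = 4`, `p = 2`

As before all elements of the groups `P i = closure (x '' {t | κ t ≠ i})` have finite order and the
reduction modulo `2` of a `2`-adic representation `ρ` is in normal form. An element of `ρ (P i)` with
trivial reduction is `1` or `-1` (EA, EE, EX). `n = 4`: 16 elements of `ρ (P i)` with pairwise traces
zero are a basis of the `4 × 4` matrices, and this gives `48 = 16` (G4). `n = 3`: the group is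
generated by three involutions `r k` such that `r j r k` has order `4`; their images in
`SL (3, ℤ_q)` for all primes `q` give the contradiction (G3).
-/

set_option autoImplicit false

namespace Pool.Agent.T2h96.ST

open Matrix Pool.Agent.T2h61.PR Pool.Agent.T2h96.SN Pool.Agent.T2h96.SM

/-- (TF4, 60 lines) the congruence subgroup modulo `4` is torsion free.
Proof. As S_TF: `A = 1 + 2 ^ v • W'` with `v ≥ 2` and `W'` not divisible by `2` (if `A ≠ 1`). Then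
`A ^ q - 1` has exact power `v` for odd `q`, and `A ^ 2 - 1 = 2 ^ (v+1) • (W' + 2 ^ (v-1) W' ^ 2)` has
exact power `v + 1`. Induction over the prime factors of `m`. -/
def S_TF4 : Prop := ∀ (n : ℕ) (A W : Mn n ℤ_[2]), A = 1 + (4 : ℤ_[2]) • W →
  (∃ m : ℕ, 0 < m ∧ A ^ m = 1) → A = 1

/-- (TRF, 40 lines; takes `S_CTQ`, `S_C2`) Proof. `σ (l ^ k) = 1`, so the trace of `ρ (l ^ k)` is `n`
for all `k` (CTQ), so `ρ l = 1` by C2 over `ℚ_[p]`. -/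
def S_TRF : Prop := ∀ n : ℕ, 3 ≤ n → ∀ (Λ : Type) [Group Λ], Group.FG Λ → SameFQ Λ (SLn n ℤ) →
  ∀ (p q : ℕ) [Fact p.Prime] [Fact q.Prime] (ρ : Λ →* SLn n ℤ_[p]) (σ : Λ →* SLn n ℤ_[q]),
  Dn ρ → Dn σ → ∀ l, IsOfFinOrder l → σ l = 1 → ρ l = 1

/-- (EA, 200 lines) an idempotent whose conjugates under the unipotent group commute.
Proof. We may assume that `U` is the subgroup generated by the `T k = cy k 1 = 1 + single (k+1) k 1`,
`k ≠ k₀`. Let `u = e_{k₀}` (fixed by `U`), `φ` = coordinate at `k₀ + 1`. `U` contains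
`T = 1 + u ⊗ φ` (iterated commutators). (F1) if `φ w ≠ 0` then the `h w`, `h ∈ U`, span everything;
(F2) a `U`-invariant subspace `≠ 0` contains `u`. All conjugates `h e h⁻¹`, `h ∈ U`, commute with each
other. Let `p = e u`, `α = φ p ∈ F_2`. `T e T = e + R` with `R = u ⊗ ψ + p ⊗ φ + α u ⊗ φ`, `ψ = φ e`.
Case `α = 1`. Every `e' = h e h⁻¹`, `h ∈ U`, commutes with `e` and `T e T`, so with `R`; apply
`R e' = e' R` to `u` (`R u = u`, `φ u = 0`, `ψ u = 1`): `e' u = (ψ + φ)(e' u) • u + φ (e' u) • p`. As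
`h⁻¹ u = u` this is `h p ∈ span {u, p}` for all `h ∈ U`, which contradicts (F1) as `n ≥ 3`.
Case `α = 0`. `e R = R e` is `p ⊗ ψ + p ⊗ φ = u ⊗ ψ + p ⊗ ψ`, so `p ⊗ φ = u ⊗ ψ`, so `p ∈ {0, u}`.
If `e u = 0`: the `e' = h e h⁻¹` are commuting idempotents with `e' u = h e u = 0`. The sum `I` of
their ranges is `U`-invariant; if `e ≠ 0` then `I ≠ 0`, so `u ∈ I`: `u = ∑ e'_i w_i`; the product of
the commuting `1 - e'_i` kills `u` and fixes it, contradiction. So `e = 0`. If `e u = u` the same for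
`1 - e` gives `e = 1`. -/
def S_EA : Prop := ∀ (n : ℕ) [NeZero n], 3 ≤ n → ∀ (k₀ : Fin n) (U : Subgroup (SLn n (ZMod 2))),
  (∀ k, k ≠ k₀ → ∃ h ∈ U, (h : Mn n (ZMod 2)) = cy k 1) →
  ∀ e : Mn n (ZMod 2), e * e = e →
  (∀ h ∈ U, e * ((h : Mn n (ZMod 2)) * e * ((h⁻¹ : SLn n (ZMod 2)) : Mn n (ZMod 2))) =
    ((h : Mn n (ZMod 2)) * e * ((h⁻¹ : SLn n (ZMod 2)) : Mn n (ZMod 2))) * e) →
  e = 0 ∨ e = 1

/-- (EE, 150 lines; takes `S_TF4`, `S_EA`) elements with trivial reduction.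
Proof. `z = 1 + 2 W`, `z * z = 1 + 4 (W + W * W)` has finite order, so `z * z = 1` (TF4), and
`W + W * W = 0`; `e = -W` is idempotent, `z = 1 - 2 e`. For `h ∈ G` the commutator of `z` and
`h * z * h⁻¹` is `1` modulo `4`, so it is `1`, so `e` and `h * e * h⁻¹` commute. EA for the
reduction of `e`, conjugated by `g⁻¹`, `U` = the reduction of `G` conjugated by `g⁻¹`: the reduction
of `e` is `0` or `1`. An idempotent divisible by `2` is `0` (`e = e ^ k` is divisible by `2 ^ k`): so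
`e = 0` or `1 - e = 0`. -/
def S_EE : Prop := ∀ (n : ℕ) [NeZero n], 3 ≤ n → ∀ (G : Subgroup (SLn n ℤ_[2])) (k₀ : Fin n)
  (g : (Mn n (ZMod 2))ˣ), (∀ h ∈ G, IsOfFinOrder h) →
  (∀ k, k ≠ k₀ → ∃ h ∈ G,
    ((Matrix.SpecialLinearGroup.map (n := Fin n) (PadicInt.toZMod (p := 2)) h : SLn n (ZMod 2)) :
      Mn n (ZMod 2)) =
    (g : Mn n (ZMod 2)) * cy k 1 * ((g⁻¹ : (Mn n (ZMod 2))ˣ) : Mn n (ZMod 2))) →
  ∀ z ∈ G, Matrix.SpecialLinearGroup.map (n := Fin n) (PadicInt.toZMod (p := 2)) z = 1 →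
  (z : Mn n ℤ_[2]) = 1 ∨ (z : Mn n ℤ_[2]) = -1

/-- (EX, 80 lines; takes `S_EE`) Proof. NFormX over `ZMod 2`: all `ζ t = 1` (nonzero), `c t` is `0` or
`1`. For every `k` choose `u k` with `κ (u k) = π k`, `c (u k) ≠ 0`. The last part is EE for
`G = (closure (x '' {κ ≠ i})).map ρ` and `k₀ = π.symm i`. -/
def S_EX : Prop := ∀ (n : ℕ) [NeZero n], 3 ≤ n → ∀ (ι Λ : Type) [Group Λ] (x : ι → Λ)
  (κ : ι → Fin n), (∀ i, ∀ γ ∈ Subgroup.closure (x '' {t | κ t ≠ i}), IsOfFinOrder γ) →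
  ∀ ρ : Λ →* SLn n ℤ_[2], NFormX (F := ZMod 2) x κ (rp ρ) →
  ∃ (g : (Mn n (ZMod 2))ˣ) (u : Fin n → ι), Function.Bijective (fun k => κ (u k)) ∧
    (∀ k, (rp ρ (x (u k)) : Mn n (ZMod 2)) =
      (g : Mn n (ZMod 2)) * cy k 1 * ((g⁻¹ : (Mn n (ZMod 2))ˣ) : Mn n (ZMod 2))) ∧
    (∀ t, rp ρ (x t) = 1 ∨ ∃ k, κ (u k) = κ t ∧ rp ρ (x t) = rp ρ (x (u k))) ∧
    ∀ i, ∀ l ∈ Subgroup.closure (x '' {t | κ t ≠ i}), rp ρ l = 1 →
      (ρ l : Mn n ℤ_[2]) = 1 ∨ (ρ l : Mn n ℤ_[2]) = -1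

/-! ## `n = 3` -/

/-- three involutions whose products have order `4` -/
def Rel3 {G : Type} [Group G] (r : Fin 3 → G) : Prop :=
  (∀ k, r k * r k = 1) ∧ (∀ k, r k ≠ 1) ∧ (∀ j k, j ≠ k → (r j * r k) ^ 4 = 1) ∧
  ∀ j k, j ≠ k → r j * r k ≠ r k * r j

/-- (MA, 80 lines) an involution of determinant `1` in dimension `3`.
Proof. `r⁻¹ = r`, so `adjugate r = r` (9 equations, `Matrix.adjugate_fin_three`). Cayley-Hamilton
`r^3 - (tr r) r^2 + (tr adj r) r - 1 = 0` gives `(1 + tr r) (r - 1) = 0`, so `tr r = -1`. So all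
`2 × 2` minors of `M = 1 + r` are zero (they are linear combinations of the equations
`adjugate r = r` and `tr r = -1`). Choose an entry `M a b` which divides all entries (`M ≠ 0`, the
ideals of `ℤ_[q]` are totally ordered): `v i = M i b / M a b`, `φ j = M a j`. -/
def S_MA : Prop := ∀ (q : ℕ) [Fact q.Prime] (r : SLn 3 ℤ_[q]), r * r = 1 → r ≠ 1 →
  ∃ v φ : Fin 3 → ℤ_[q], (r : Mn 3 ℤ_[q]) = -1 + Matrix.vecMulVec v φ ∧ φ ⬝ᵥ v = 2

/-- (MB, 80 lines) two involutions whose product has order `4`.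
Proof. `M = v ⊗ φ`, `N = w ⊗ ψ`, `m = (φ w) (ψ v)`: `M M = 2 M`, `N N = 2 N`, `M N M = m M`,
`N M N = m N`. `A = (M - 1) (N - 1)`, `B = (N - 1) (M - 1)`: `A - B = M N - N M` and
`A A - B B = (M N - N M) (M N + N M - 2 M - 2 N + 2) = (m - 2) (M N - N M)`. -/
def S_MB : Prop := ∀ (R : Type) [CommRing R] [IsDomain R] (n : ℕ) (v w φ ψ : Fin n → R),
  φ ⬝ᵥ v = 2 → ψ ⬝ᵥ w = 2 →
  ((-1 + Matrix.vecMulVec v φ) * (-1 + Matrix.vecMulVec w ψ)) *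
    ((-1 + Matrix.vecMulVec v φ) * (-1 + Matrix.vecMulVec w ψ)) =
  ((-1 + Matrix.vecMulVec w ψ) * (-1 + Matrix.vecMulVec v φ)) *
    ((-1 + Matrix.vecMulVec w ψ) * (-1 + Matrix.vecMulVec v φ)) →
  (-1 + Matrix.vecMulVec v φ) * (-1 + Matrix.vecMulVec w ψ) ≠
    (-1 + Matrix.vecMulVec w ψ) * (-1 + Matrix.vecMulVec v φ) →
  (φ ⬝ᵥ w) * (ψ ⬝ᵥ v) = 2

/-- (Q3, 180 lines; takes `S_MA`, `S_MB`) three involutions generating `SL (3, F_q)`.
Proof. MA: `r k = -1 + v k ⊗ φ k`, `φ k (v k) = 2`; MB: `(φ j (v k)) (φ k (v j)) = 2` for `j ≠ k`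
(`A = r j * r k`, `B = r k * r j = A⁻¹`, `A ^ 4 = 1`). With `c = φ 0 (v 1) φ 1 (v 2) φ 2 (v 0)` and
`c' = φ 0 (v 2) φ 2 (v 1) φ 1 (v 0)` it is `tr (r 0 * r 1 * r 2) = c - 3`,
`tr (r 2 * r 1 * r 0) = c' - 3`, `c c' = 8`, and the determinant of the Gram matrix
`(φ i (v j)) = Φ * V` is `8 + c + c' - 12 = c + c' - 4`. If it is not a unit its image in `ZMod q` is
`0`, so there is a row `ψ ≠ 0` over `ZMod q` with `ψ v_k = 0` for all `k`, or a column `w ≠ 0` with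
`φ_k w = 0` for all `k` (`Matrix.exists_vecMul_eq_zero_iff`, `Matrix.exists_mulVec_eq_zero_iff`). So
`ψ y = ± ψ` (or `y w = ± w`) for `y` the reduction of `r k`, so for all `y ∈ SL (3, F_q)`. But for
`w j ≠ 0`, `i ≠ j`, `y = 1 + single i j`: `y w = w + w_j e_i` is not `w`, and `y w = -w` would give
`w_j = - w_j`, so `q = 2` and `-w = w`, contradiction. -/
def S_Q3 : Prop := ∀ (q : ℕ) [Fact q.Prime] (r : Fin 3 → SLn 3 ℤ_[q]), Rel3 r →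
  (∀ y : SLn 3 (ZMod q), ∃ s ∈ Subgroup.closure (Set.range r),
    Matrix.SpecialLinearGroup.map (n := Fin 3) (PadicInt.toZMod (p := q)) s = y) →
  (3 + ((r 0 * r 1 * r 2 : SLn 3 ℤ_[q]) : Mn 3 ℤ_[q]).trace) *
    (3 + ((r 2 * r 1 * r 0 : SLn 3 ℤ_[q]) : Mn 3 ℤ_[q]).trace) = 8 ∧
  IsUnit (((r 0 * r 1 * r 2 : SLn 3 ℤ_[q]) : Mn 3 ℤ_[q]).trace +
    ((r 2 * r 1 * r 0 : SLn 3 ℤ_[q]) : Mn 3 ℤ_[q]).trace + 2)

/-- (D3, 150 lines; takes `S_CT`, `S_INF`, `S_PAD`; see T_CTQ.lean) the sums of traces are integers.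
Proof. `T ρ = tr ρ l + tr ρ l⁻¹`. (1) for `Dn ρ` (prime `p`), `Dn σ` (prime `q`) and
`i : ℚ_[p] →+* Ω`, `j : ℚ_[q] →+* Ω`: `i (T ρ) = j (T σ)`. With `a, b` the images of
`tr ρ l`, `tr ρ l⁻¹` and `c, d` those for `σ`, CT (for `ρ, σ` and `σ, ρ`, and `l`, `l⁻¹`) gives
`a ∈ {c, d}`, `b ∈ {d, c}`, `c ∈ {a, b}`, `d ∈ {b, a}`, so `a + b = c + d`. (2) by
`Pool.Agent.T2h61.PR.CA.rational` `T ρ` is rational in `ℚ_[p]`; by `CA.amalgam` (for `E = ℚ`) it is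
the same rational number `t` for all `p` and `ρ`. By PAD there is a `ρ` for every `p`, so `t` is a
`p`-adic integer for all `p`, so an integer. -/
def S_D3 : Prop := ∀ n : ℕ, 3 ≤ n → ∀ (Λ : Type) [Group Λ], Group.FG Λ → SameFQ Λ (SLn n ℤ) →
  ∀ l : Λ, ∃ s : ℤ, ∀ (p : ℕ) [Fact p.Prime] (ρ : Λ →* SLn n ℤ_[p]), Dn ρ →
  (ρ l : Mn n ℤ_[p]).trace + (ρ l⁻¹ : Mn n ℤ_[p]).trace = (s : ℤ_[p])

/-- (G3, 200 lines; takes `S_PAD`, `S_DZ`, `S_TRF`, `S_EX`, `S_Q3`, `S_D3`) contradiction for `n = 3`.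
Proof. EX gives `g`, `u`; `w k = x (u k)`. Let `q` be a prime and `σ` with `Dn σ` (PAD). (a) if `z`
is in some `closure (x '' {κ ≠ i})` and `rp ρ z = 1` then `ρ z = 1` (`-1` has determinant `-1`), so
`σ z = 1` (TRF; `z` has finite order). (b) this gives `σ (w k) * σ (w k) = 1` and
`(σ (w j) * σ (w k)) ^ 4 = 1` for `j ≠ k` (take `i` different from both colours;
`(cy j 1 * cy k 1) ^ 4 = 1` over `ZMod 2` by `decide`). (c) `σ (w k) ≠ 1`, otherwise `ρ (w k) = 1` by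
TRF; `σ (w j)`, `σ (w k)` do not commute, otherwise the commutator of `w j`, `w k` (of finite order)
is in the kernel of `σ`, so in the kernel of `ρ`, but `cy j 1`, `cy k 1` do not commute. (d)
`σ (x t)` is `1` or `σ (w k)`, by (a) for `x t` or `x t * (w k)⁻¹`. So the range of `σ` is the
closure of the `σ (w k)`, and Q3 applies (DZ). With `l = w 0 * w 1 * w 2`:
`σ (w 2 * w 1 * w 0) = σ l⁻¹`; D3 gives `s`, the same for all `q`; `s + 2` is a unit in every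
`ℤ_[q]`, so `s + 2 = ± 1`; `c = 3 + tr σ l` satisfies `c * (6 + s - c) = 8` in `ℤ_[q]`. For
`s = -1`: `c * (5 - c) = 8` has no solution in `ZMod 3`; for `s = -3`: `c * (3 - c) = 8` has no
solution in `ZMod 5`. -/
def S_G3 : Prop := ∀ (ι Λ : Type) [Group Λ] (x : ι → Λ) (κ : ι → Fin 3), Group.FG Λ →
  SameFQ Λ (SLn 3 ℤ) → Subgroup.closure (Set.range x) = ⊤ →
  (∀ i, ∀ γ ∈ Subgroup.closure (x '' {t | κ t ≠ i}), IsOfFinOrder γ) →
  ∀ ρ : Λ →* SLn 3 ℤ_[2], Dn ρ → NFormX (F := ZMod 2) x κ (rp ρ) → False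

/-! ## `n = 4` -/

/-- (NW4, 40 lines) Newton's identity for `4 × 4` matrices. Proof. Expand and `ring`
(`Matrix.det_succ_row_zero`, `Fin.sum_univ_four`, `Matrix.trace`, `Matrix.mul_apply`). -/
def S_NW4 : Prop := ∀ (R : Type) [CommRing R] (h : Mn 4 R), 24 * h.det =
  h.trace ^ 4 - 6 * h.trace ^ 2 * (h * h).trace + 3 * (h * h).trace ^ 2 +
    8 * h.trace * (h * h * h).trace - 6 * (h * h * (h * h)).trace

/-- (TZ, 80 lines; takes `S_NW4`, `S_C2`) Proof. `t = tr h`. If `h * h = 1` then NW4 gives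
`t ^ 4 = 16 t ^ 2`, so `t = 0` or `t = ± 4`; then `h = ± 1` by C2 over `ℚ_[2]` (`T = ± h`, `m = 2`).
If `h * h = -1` then NW4 gives `t ^ 4 = - 16 t ^ 2`, and `t ^ 2 = - 16` is impossible modulo `64`
(`PadicInt.toZModPow 6`, `decide`). -/
def S_TZ : Prop := ∀ h : Mn 4 ℤ_[2], h.det = 1 → (h * h = 1 ∨ h * h = -1) → h ≠ 1 → h ≠ -1 →
  h.trace = 0

/-- (TT, 120 lines; takes `S_NW4`, `S_TZ`) Proof. `J = h * h`. `J * J = -1` is impossible: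
`(J - 1)^2 = - 2 J`, so `det (J - 1) ^ 2 = 16`, but the determinant of
`J - 1 = vecMulVec w φ + 2 • Y` is divisible by `8` (expand; it is
`16 det Y + 8 φ adj(Y) w`). So `J * J = 1`, and `tr J = 0` by TZ. `h * h * h = hi`, `hi * hi = J`,
`hi * hi * hi = h`. With `t = tr h`, `t' = tr hi` NW4 for `h` and `hi` gives
`t ^ 4 + 8 t t' = 48 = t' ^ 4 + 8 t t'`. `P = t t'`: `P ^ 4 = (48 - 8 P) ^ 2`, so
`(P - 4) (P + 12) = 0` or `(P - 4) ^ 2 = - 32`; the last is impossible modulo `64`; `P = -12` gives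
`t ^ 4 = 144`, `t ^ 2 = ± 12`, impossible modulo `64`. -/
def S_TT : Prop := ∀ (h hi Y : Mn 4 ℤ_[2]) (w φ : Fin 4 → ℤ_[2]), h.det = 1 → h * hi = 1 →
  h * h = 1 + Matrix.vecMulVec w φ + (2 : ℤ_[2]) • Y →
  (h * h * (h * h) = 1 ∨ h * h * (h * h) = -1) → h * h ≠ 1 → h * h ≠ -1 →
  h.trace * hi.trace = 4

/-- (B4, 80 lines) Proof. The `m i` are independent (multiply `∑ a i • m i = 0` by `mi j` and take the
trace, `tr (m j * mi j) = 4`), so they are a basis of the matrices (dimension 16). Write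
`r = ∑ a i • m i`; then `tr (r * mi j) = 4 a j` and
`4 = tr (r * ri) = ∑ a i tr (m i * ri)`. -/
def S_B4 : Prop := ∀ (K : Type) [Field K] [CharZero K] (ι : Type) [Fintype ι] [DecidableEq ι]
  (m mi : ι → Mn 4 K) (r ri : Mn 4 K), Fintype.card ι = 16 → (∀ i, m i * mi i = 1) → r * ri = 1 →
  (∀ i j, i ≠ j → (m i * mi j).trace = 0) → ∑ i, (r * mi i).trace * (m i * ri).trace = 16

/-- block matrices -/
def bl {A : Type} [CommRing A] (a : Fin 4 → A) : Mn 4 A :=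
  !![1, 0, 0, 0; 0, 1, 0, 0; a 0, a 1, 1, 0; a 2, a 3, 0, 1]

/-- (GA, 80 lines) Proof. We may assume `g = 1` (conjugate `H`). `cy 1 1 = 1 + E_21`; the commutators of
`cy 1 1, cy 0 1` and of `cy 2 1, cy 1 1` are `1 + E_20`, `1 + E_31`, the commutator of `cy 2 1` and
`1 + E_20` is `1 + E_30` (`decide`); `bl` is multiplicative: `bl a * bl b = bl (a + b)`. -/
def S_GA : Prop := ∀ (H : Subgroup (SLn 4 (ZMod 2))) (g : (Mn 4 (ZMod 2))ˣ),
  (∀ k : Fin 4, k ≠ 3 → ∃ h ∈ H, (h : Mn 4 (ZMod 2)) =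
    (g : Mn 4 (ZMod 2)) * cy k 1 * ((g⁻¹ : (Mn 4 (ZMod 2))ˣ) : Mn 4 (ZMod 2))) →
  ∀ a : Fin 4 → ZMod 2, ∃ h ∈ H, (h : Mn 4 (ZMod 2)) =
    (g : Mn 4 (ZMod 2)) * bl a * ((g⁻¹ : (Mn 4 (ZMod 2))ˣ) : Mn 4 (ZMod 2))

/-- (G4, 250 lines; takes `S_EX`, `S_TZ`, `S_TT`, `S_B4`, `S_GA`) contradiction for `n = 4`.
Proof. EX gives `g`, `u`. `i = κ (u 3)`, `P = closure (x '' {κ ≠ i})` contains `x (u 0)`, `x (u 1)`,
`x (u 2)`. GA for `P.map (rp ρ)`: for every `a : Fin 4 → ZMod 2` there is `l a ∈ P` with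
`rp ρ (l a) = g * bl a * g⁻¹`; `e = x (u 0)`, `rp ρ e = g * (1 + E_10) * g⁻¹`. If `h ∈ P`,
`rp ρ h ≠ 1`, `rp ρ h * rp ρ h = 1` then `ρ (h * h) = ± 1` (EX), so `tr ρ h = 0` (TZ). So
`tr ρ (l a * (l b)⁻¹) = 0` for `a ≠ b`. Let `h = e * (l a)⁻¹`:
`rp ρ h = g * (1 + E_10) * bl a * g⁻¹`, `rp ρ (h * h) = g * (1 + (a 1) E_20 + (a 3) E_30) * g⁻¹`
(`decide`; `bl a * bl a = 1`). If `a 1 = a 3 = 0` then `tr ρ h = 0`. Otherwise
`rp ρ (h * h) = 1 + vecMulVec (g (a 1 e_2 + a 3 e_3)) (e_0 g⁻¹)`; lift: `ρ (h * h) =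
1 + vecMulVec w φ + 2 • Y` (an element of `ℤ_[2]` with reduction zero is divisible by `2`), and
`rp ρ (h^4) = 1`, so TT gives `tr ρ h * tr ρ h⁻¹ = 4`. B4 over `ℚ_[2]` for `m a = ρ (l a)`,
`r = ρ e`: the sum is `12 * 4 = 48`, not `16`. -/
def S_G4 : Prop := ∀ (ι Λ : Type) [Group Λ] (x : ι → Λ) (κ : ι → Fin 4),
  (∀ i, ∀ γ ∈ Subgroup.closure (x '' {t | κ t ≠ i}), IsOfFinOrder γ) →
  ∀ ρ : Λ →* SLn 4 ℤ_[2], NFormX (F := ZMod 2) x κ (rp ρ) → False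

/-- (TORA) the torsion case is impossible for all `n ≥ 3`. -/
def S_TORA : Prop := ∀ (n : ℕ) [NeZero n], 3 ≤ n → ∀ (ι Λ : Type) [Group Λ] (x : ι → Λ)
  (κ : ι → Fin n), Group.FG Λ → RF Λ → SameFQ Λ (SLn n ℤ) → Subgroup.closure (Set.range x) = ⊤ →
  (∀ (Q : Type) [Group Q] [Finite Q] (f : Λ →* Q), NilCol (fun t => f (x t)) κ) →
  ∃ i, ∃ γ ∈ Subgroup.closure (x '' {t | κ t ≠ i}), ¬ IsOfFinOrder γ

end Pool.Agent.T2h96.ST
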