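import Pool.Agent.T2h96.ST.Stm

/-!
# (G2) contradiction for `p = 2`
-/

set_option autoImplicit false

namespace Pool.Agent.T2h96.ST

open Matrix Pool.Agent.T2h61.PR Pool.Agent.T2h96.SN Pool.Agent.T2h96.SM

namespace G2

theorem two_cases (c : ZMod 2) (h : c ≠ 0) : c = 1 := by
  revert h c
  decide

/-- elements of the kernel of the reduction -/
theorem exists_W {n p : ℕ} [Fact p.Prime] {Λ : Type} [Group Λ] (σ : Λ →* SLn n ℤ_[p]) (l : Λ)
    (h : rp σ l = 1) : ∃ W : Mn n ℤ_[p], (σ l : Mn n ℤ_[p]) = 1 + (p : ℤ_[p]) • W := by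
  have h1 : ∀ i j, ∃ w : ℤ_[p], (σ l : Mn n ℤ_[p]) i j = (1 : Mn n ℤ_[p]) i j + (p : ℤ_[p]) * w := by
    intro i j
    have h2 : PadicInt.toZMod (p := p) ((σ l : Mn n ℤ_[p]) i j) = (1 : Mn n (ZMod p)) i j :=
      congrFun (congrFun (congrArg Subtype.val h) i) j
    have h3 : PadicInt.toZMod (p := p) ((1 : Mn n ℤ_[p]) i j) = (1 : Mn n (ZMod p)) i j := by
      rw [Matrix.one_apply, Matrix.one_apply]
      split_ifs <;> simp
    have h4 : (σ l : Mn n ℤ_[p]) i j - (1 : Mn n ℤ_[p]) i j ∈ RingHom.ker (PadicInt.toZMod (p := p)) := by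
      rw [RingHom.mem_ker, map_sub, h2, h3, sub_self]
    rw [PadicInt.ker_toZMod, PadicInt.maximalIdeal_eq_span_p, Ideal.mem_span_singleton] at h4
    obtain ⟨w, hw⟩ := h4
    exact ⟨w, by rw [← hw]; ring⟩
  choose W hW using h1
  refine ⟨Matrix.of W, ?_⟩
  ext i j
  rw [hW i j]
  simp [Matrix.add_apply]

/-- the square of `cy k 1` -/
theorem cy_sq {n : ℕ} [NeZero n] (hn : 2 ≤ n) (k : Fin n) :
    (cy k (1 : ZMod 2) : Mn n (ZMod 2)) * cy k 1 = 1 := by
  have hk : k ≠ k + 1 := by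
    intro h
    have h1 : (1 : Fin n) = 0 := by
      have h2 : k + 1 = k + 0 := by rw [add_zero]; exact h.symm
      exact add_left_cancel h2
    have h3 := congrArg Fin.val h1
    rw [Fin.val_one', Fin.val_zero, Nat.mod_eq_of_lt (by omega)] at h3
    omega
  unfold cy
  have h0 : (Matrix.single (k + 1) k (1 : ZMod 2) : Mn n (ZMod 2)) * Matrix.single (k + 1) k 1 = 0 :=
    Matrix.single_mul_single_of_ne _ _ _ _ hk _
  rw [add_mul, mul_add, mul_add, one_mul, mul_one, one_mul, h0, add_zero, add_assoc]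
  have h1 : (Matrix.single (k + 1) k (1 : ZMod 2) : Mn n (ZMod 2)) + Matrix.single (k + 1) k 1 = 0 := by
    rw [← Matrix.single_add]
    have : (1 : ZMod 2) + 1 = 0 := by decide
    rw [this, Matrix.single_zero]
  rw [h1, add_zero]

/-- powers of odd order of an involution are trivial -/
theorem odd_power {G : Type} [Group G] {y b : G} (hy : y * y = 1) (hb : b ∈ Subgroup.zpowers y)
    (ho : (orderOf b).Coprime 2) : b = 1 := by
  obtain ⟨m, rfl⟩ := hb
  have h1 : (y ^ m) ^ 2 = 1 := by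
    rw [← zpow_natCast, ← _root_.zpow_mul, mul_comm, _root_.zpow_mul]
    have : y ^ ((2 : ℕ) : ℤ) = 1 := by
      rw [zpow_natCast, pow_two, hy]
    rw [this, _root_.one_zpow]
  have h2 : orderOf (y ^ m) ∣ 2 := orderOf_dvd_of_pow_eq_one h1
  have h3 : orderOf (y ^ m) = 1 := Nat.eq_one_of_dvd_coprimes ho dvd_rfl h2
  exact orderOf_eq_one_iff.1 h3

end G2

set_option maxHeartbeats 1000000 in
theorem t_G2 : S_PAD → S_NIL → S_PP → S_CTQ → S_TF → S_C2 → S_UB → S_VB → S_G2 := by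
  intro hPAD hNIL hPP hCTQ hTF hC2 hUB hVB n _ hn ι Λ _ x κ hFG hRF hFQ hN hfin' ρ hρ hNF
  classical
  obtain ⟨σ, hσ⟩ := hPAD n (by omega) Λ hFG hFQ 3
  have hfin : ∀ t, IsOfFinOrder (x t) := by
    intro t
    have hne : ∃ i : Fin n, κ t ≠ i := by
      by_cases h : κ t = ⟨0, by omega⟩
      · refine ⟨⟨1, by omega⟩, ?_⟩
        rw [h]
        intro h'
        simpa using congrArg Fin.val h'
      · exact ⟨_, h⟩
    obtain ⟨i, hi⟩ := hne
    exact hfin' i _ (Subgroup.subset_closure ⟨t, hi, rfl⟩)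
  obtain ⟨a, b, ha, hb, hab, ha2, hb2, -⟩ := hPP n (by omega) ι Λ x κ hRF hN hfin 2 Nat.prime_two
  obtain ⟨π, g, c, ζ, hc, hform⟩ := hNF
  set i : Fin n := π 0 with hi
  set PX : Subgroup Λ := Subgroup.closure (x '' {t | κ t ≠ i}) with hPX
  set P : Subgroup Λ := Subgroup.closure (a '' {t | κ t ≠ i}) with hP
  have hPle : P ≤ PX := by
    rw [hP, Subgroup.closure_le]
    rintro _ ⟨t, ht, rfl⟩
    exact (Subgroup.zpowers_le.2 (Subgroup.subset_closure ⟨t, ht, rfl⟩) : _ ≤ PX) (ha t)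
  have hPfin : ∀ l ∈ P, IsOfFinOrder l := fun l hl => hfin' i l (hPle hl)
  set H2 : Subgroup (SLn n (ZMod 2)) := P.map (rp ρ) with hH2
  set H3 : Subgroup (SLn n (ZMod 3)) := P.map (rp σ) with hH3
  -- (1) the lower bound
  have hlow : 2 ^ (n * (n - 1) / 2) ≤ Nat.card H2 := by
    refine hUB n (by omega) H2 0 g fun k hk => ?_
    obtain ⟨t, ht, hct⟩ := hc k
    have hti : κ t ≠ i := by
      rw [ht, hi]
      exact fun h => hk (π.injective h)
    have hct1 : c t = 1 := G2.two_cases _ hct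
    have hf := hform t
    rw [ht, Equiv.symm_apply_apply, hct1] at hf
    have hζ : ζ t = 1 := by
      refine G2.two_cases _ fun h0 => ?_
      rw [h0, zero_smul] at hf
      have hdet := (rp ρ (x t)).2
      rw [hf, Matrix.det_zero] at hdet
      exact zero_ne_one hdet
    rw [hζ, one_smul] at hf
    have hsq : rp ρ (x t) * rp ρ (x t) = 1 := by
      apply Subtype.ext
      have hgg : ((g⁻¹ : (Mn n (ZMod 2))ˣ) : Mn n (ZMod 2)) * (g : Mn n (ZMod 2)) = 1 := Units.inv_mul g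
      have hgg' : (g : Mn n (ZMod 2)) * ((g⁻¹ : (Mn n (ZMod 2))ˣ) : Mn n (ZMod 2)) = 1 := Units.mul_inv g
      calc ((rp ρ (x t) * rp ρ (x t) : SLn n (ZMod 2)) : Mn n (ZMod 2))
          = (rp ρ (x t) : Mn n (ZMod 2)) * (rp ρ (x t) : Mn n (ZMod 2)) := rfl
        _ = (g : Mn n (ZMod 2)) * cy k 1 * (((g⁻¹ : (Mn n (ZMod 2))ˣ) : Mn n (ZMod 2)) * (g : Mn n (ZMod 2))) *
            cy k 1 * ((g⁻¹ : (Mn n (ZMod 2))ˣ) : Mn n (ZMod 2)) := by
              rw [hf]
              simp only [Matrix.mul_assoc]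
        _ = (g : Mn n (ZMod 2)) * (cy k 1 * cy k 1) * ((g⁻¹ : (Mn n (ZMod 2))ˣ) : Mn n (ZMod 2)) := by
              rw [hgg, Matrix.mul_one, Matrix.mul_assoc (g : Mn n (ZMod 2))]
        _ = ((1 : SLn n (ZMod 2)) : Mn n (ZMod 2)) := by
              rw [G2.cy_sq (by omega) k, Matrix.mul_one, hgg']
              rfl
    have hb1 : rp ρ (b t) = 1 := by
      refine G2.odd_power hsq ?_ ?_
      · obtain ⟨m, hm⟩ := hb t
        refine ⟨m, ?_⟩
        rw [← hm]
        exact (map_zpow (rp ρ) (x t) m).symm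
      · exact Nat.Coprime.coprime_dvd_left (orderOf_map_dvd (rp ρ) (b t)) (hb2 t)
    have ha1 : rp ρ (a t) = rp ρ (x t) := by
      conv_rhs => rw [hab t, map_mul, hb1, mul_one]
    refine ⟨rp ρ (a t), ⟨a t, Subgroup.subset_closure ⟨t, hti, rfl⟩, rfl⟩, ?_⟩
    rw [ha1]
    exact hf
  -- (2) the upper bound
  have hup : Nat.card H3 < 2 ^ (n * (n - 1) / 2) := by
    refine hVB n hn H3 fun h hh => ?_
    have hnil := hN (SLn n (ZMod 3)) (rp σ) i
    refine (hNIL (SLn n (ZMod 3)) _ inferInstance hnil 2 Nat.prime_two).2 h ?_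
    have hle : H3 ≤ Subgroup.closure {h | h ∈ Subgroup.closure ((fun t => rp σ (x t)) '' {t | κ t ≠ i}) ∧
        ∃ k : ℕ, h ^ 2 ^ k = 1} := by
      rw [hH3, hP, MonoidHom.map_closure, Subgroup.closure_le]
      rintro _ ⟨_, ⟨t, ht, rfl⟩, rfl⟩
      refine Subgroup.subset_closure ⟨?_, ?_⟩
      · obtain ⟨m, hm⟩ := ha t
        rw [← hm]
        have h1 : rp σ (x t ^ m) = rp σ (x t) ^ m := map_zpow (rp σ) (x t) m
        have h2 : rp σ (x t) ∈ Subgroup.closure ((fun t => rp σ (x t)) '' {t | κ t ≠ i}) :=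
          Subgroup.subset_closure ⟨t, ht, rfl⟩
        show rp σ (x t ^ m) ∈ _
        rw [h1]
        exact Subgroup.zpow_mem _ h2 m
      · obtain ⟨k, hk⟩ := ha2 t
        exact ⟨k, by rw [← map_pow, hk, map_one]⟩
    exact hle hh
  -- (3) the kernel
  have hker : ∀ l ∈ P, rp σ l = 1 → rp ρ l = 1 := by
    intro l hl h1
    obtain ⟨m, hm, hlm⟩ := (isOfFinOrder_iff_pow_eq_one).1 (hPfin l hl)
    obtain ⟨W, hW⟩ := G2.exists_W σ l h1
    have h2 : (σ l : Mn n ℤ_[3]) = 1 := by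
      refine hTF n 3 (by norm_num) _ W hW ⟨m, hm, ?_⟩
      have h3 : (σ l) ^ m = 1 := by rw [← map_pow, hlm, map_one]
      have h4 := congrArg Subtype.val h3
      simpa using h4
    have h3 : σ l = 1 := Subtype.ext h2
    have h4 : ∀ k : ℕ, (ρ (l ^ k) : Mn n ℤ_[2]).trace = (n : ℤ_[2]) := fun k =>
      hCTQ n (by omega) Λ hFG hFQ 2 3 ρ σ hρ hσ (l ^ k) (by rw [map_pow, h3, one_pow])
    set j := PadicInt.Coe.ringHom (p := 2) with hj
    have h5 : ((ρ l : Mn n ℤ_[2]).map j : Mn n ℚ_[2]) = 1 := by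
      refine hC2 n ℚ_[2] _ m hm ?_ fun k => ?_
      · have h6 : (ρ l) ^ m = 1 := by rw [← map_pow, hlm, map_one]
        have h7 : (ρ l : Mn n ℤ_[2]) ^ m = 1 := by
          have := congrArg Subtype.val h6
          simpa using this
        have h8 : ((ρ l : Mn n ℤ_[2]).map j) ^ m = ((ρ l : Mn n ℤ_[2]) ^ m).map j :=
          (map_pow j.mapMatrix (ρ l : Mn n ℤ_[2]) m).symm
        rw [h8, h7]
        exact map_one j.mapMatrix
      · have h8 : ((ρ l : Mn n ℤ_[2]).map j) ^ k = ((ρ l : Mn n ℤ_[2]) ^ k).map j :=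
          (map_pow j.mapMatrix (ρ l : Mn n ℤ_[2]) k).symm
        have h9 : (ρ l : Mn n ℤ_[2]) ^ k = (ρ (l ^ k) : Mn n ℤ_[2]) := by
          rw [map_pow]
          simp
        rw [h8, h9]
        have h10 := AddMonoidHom.map_trace j.toAddMonoidHom (ρ (l ^ k) : Mn n ℤ_[2])
        have h11 : (((ρ (l ^ k) : Mn n ℤ_[2]).map j : Mn n ℚ_[2])).trace =
            j ((ρ (l ^ k) : Mn n ℤ_[2]).trace) := h10.symm
        rw [h11, h4 k]
        simp
    have h6 : ρ l = 1 := by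
      apply Subtype.ext
      ext r s
      have h7 : j ((ρ l : Mn n ℤ_[2]) r s) = (1 : Mn n ℚ_[2]) r s := congrFun (congrFun h5 r) s
      have h8 : (1 : Mn n ℚ_[2]) r s = j ((1 : Mn n ℤ_[2]) r s) := by
        rw [Matrix.one_apply, Matrix.one_apply]
        split_ifs <;> simp
      rw [h8] at h7
      exact Subtype.ext h7
    show Matrix.SpecialLinearGroup.map (n := Fin n) (PadicInt.toZMod (p := 2)) (ρ l) = 1
    rw [h6, map_one]
  -- (4) comparison
  have hcard : Nat.card H2 ≤ Nat.card H3 := by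
    have hsel : ∀ h : H2, ∃ l ∈ P, rp ρ l = h := fun h => h.2
    choose s hs hs' using hsel
    refine Nat.card_le_card_of_injective (fun h : H2 => (⟨rp σ (s h), ⟨s h, hs h, rfl⟩⟩ : H3)) ?_
    intro h h' hhh
    have h1 : rp σ (s h) = rp σ (s h') := congrArg Subtype.val hhh
    have h2 : rp σ ((s h)⁻¹ * s h') = 1 := by
      rw [map_mul, map_inv, h1, inv_mul_cancel]
    have h3 := hker _ (P.mul_mem (P.inv_mem (hs h)) (hs h')) h2
    rw [map_mul, map_inv, inv_mul_eq_one] at h3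
    apply Subtype.ext
    rw [← hs' h, ← hs' h', h3]
  exact absurd (hlow.trans hcard) (not_le.2 hup)

end Pool.Agent.T2h96.ST
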